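import Pool.Agent.H25.V0P.Cor
import Pool.Agent.H16.DIR.Pva
import Pool.Agent.H16.DIR.Fsm

/-!
# A pair of targets, last pivot: the event theorem

`v0pAlt`: the statement `V0pAlt`.
-/

set_option autoImplicit false

namespace Pool.V0P

open Finset Real MvPolynomial
open Pool.Agent.H49.Ent Pool.Agent.H32.Dense
open Pool.STK hiding pr2
open Pool.KA Pool.KSAT Pool.K2S Pool.PB Pool.S6C
open Pool.GEN Pool.CHT Pool.CHX Pool.ISO Pool.LA91 Pool.AVG71 Pool.AVG5 Pool.D2F2 Pool.AVG57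
open Pool.PB.Trl (rt rt_mem t_rt)
open Pool.LV64 (GrdV PrV Vm Mm Mu adV adV_ti CH_pi Evn VD mh_up)
open Pool.KVA (MI)
open Pool.D2R (hgt)
open Pool.KAF (rs Pr)
open Pool.BFL (Pb)
open Pool.V0F (VLaw2 VLaw mi_side CH_sgn CH_dig CH_ge CH_tr cE0_le log_two_pow)
open Pool.DIR16 (FIh Pe_cc cond_cc la pv_alt fih_small)

/-- **The pair event theorem, last pivot**: the statement. -/
theorem v0pAlt : V0pAlt := by
  intro k K h κ₂ dl hK hh hh1 hκ₂ hdl hnum4
  obtain ⟨ι, π₀, hι, hπ₀, X₀, hpv⟩ := pv_alt k K hK (del := dl) (x₀ := κ₂) (σ := 1) hh hh1 hdl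
    hκ₂ (by linarith) one_pos
  obtain ⟨Ca, hCa, hprv⟩ := vpc_prv k 2 K
  obtain ⟨τ₁, X₁, hτ₁, hnum⟩ := vpc_nums k 2 K hι
  have hl2 : 0 < Real.log 2 := Real.log_pos one_lt_two
  have hl2' : Real.log 2 ≤ 1 := by
    have := Real.log_two_lt_d9
    linarith
  have hl49 : Real.log 49 ≤ 8 := by
    rw [Real.log_le_iff_le_exp (by norm_num)]
    have h1 := Real.exp_one_gt_d9
    have h2 : Real.exp 8 = Real.exp 1 * Real.exp 1 * (Real.exp 1 * Real.exp 1) *
        (Real.exp 1 * Real.exp 1 * (Real.exp 1 * Real.exp 1)) := by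
      rw [← Real.exp_add, ← Real.exp_add, ← Real.exp_add]
      norm_num
    have h3 : 7 ≤ Real.exp 1 * Real.exp 1 := by nlinarith
    have h4 : 49 ≤ Real.exp 1 * Real.exp 1 * (Real.exp 1 * Real.exp 1) := by nlinarith
    rw [h2]
    nlinarith
  have hl49' : 0 ≤ Real.log 49 := Real.log_nonneg (by norm_num)
  -- the numbers
  obtain ⟨ν, hν⟩ : ∃ ν : ℝ, ν = min dl (min (ι / 8) 1) := ⟨_, rfl⟩
  have hν0 : 0 < ν := by
    rw [hν]
    exact lt_min hdl (lt_min (by positivity) one_pos)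
  have hν1 : ν ≤ dl := by rw [hν]; exact min_le_left _ _
  have hν2 : ν ≤ ι / 8 := by rw [hν]; exact (min_le_right _ _).trans (min_le_left _ _)
  have hν3 : ν ≤ 1 := by rw [hν]; exact (min_le_right _ _).trans (min_le_right _ _)
  obtain ⟨ι', hι'⟩ : ∃ ι' : ℝ, ι' = min ι 1 := ⟨_, rfl⟩
  have hι'0 : 0 < ι' := by rw [hι']; exact lt_min hι one_pos
  have hι'1 : ι' ≤ ι := by rw [hι']; exact min_le_left _ _
  have hι'2 : ι' ≤ 1 := by rw [hι']; exact min_le_right _ _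
  obtain ⟨κ, hκ⟩ : ∃ κ : ℝ, κ = ν * ι' / 128 := ⟨_, rfl⟩
  have hκ0 : 0 < κ := by rw [hκ]; positivity
  have hνι : ν * ι' ≤ ι' := mul_le_of_le_one_left hι'0.le hν3
  have hκ1 : κ ≤ 1 := by rw [hκ]; linarith
  have h3k : (1 : ℝ) ≤ 3 ^ (k + 2) := one_le_pow₀ (by norm_num)
  obtain ⟨π₁, hπ₁⟩ : ∃ π₁ : ℝ, π₁ = min π₀ 1 * (ν * ι') / (64 * 3 ^ (k + 2)) := ⟨_, rfl⟩
  have hm1 : 0 < min π₀ 1 := lt_min hπ₀ one_pos
  have hπ₁0 : 0 < π₁ := by rw [hπ₁]; positivity
  have hπ₁a : 3 ^ (k + 2) * (π₁ / π₀) ≤ ν * ι' / 64 := by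
    have e1 : 3 ^ (k + 2) * (π₁ / π₀) = min π₀ 1 / π₀ * (ν * ι' / 64) := by
      rw [hπ₁]
      field_simp
    rw [e1]
    have e2 : min π₀ 1 / π₀ ≤ 1 := by
      rw [div_le_one hπ₀]
      exact min_le_left _ _
    exact mul_le_of_le_one_left (by positivity) e2
  have hπ₁b : π₁ ≤ min π₀ 1 := by
    rw [hπ₁, div_le_iff₀ (by positivity)]
    have e1 : ν * ι' ≤ 64 * 3 ^ (k + 2) := by linarith
    exact mul_le_mul_of_nonneg_left e1 hm1.le
  obtain ⟨τ, hτ⟩ : ∃ τ : ℝ, τ = min τ₁ (min (ν * ι' / 64) (h / 16)) := ⟨_, rfl⟩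
  have hτ0 : 0 < τ := by
    rw [hτ]
    exact lt_min hτ₁ (lt_min (by positivity) (by positivity))
  have hτa : τ ≤ τ₁ := by rw [hτ]; exact min_le_left _ _
  have hτb : τ ≤ ν * ι' / 64 := by rw [hτ]; exact (min_le_right _ _).trans (min_le_left _ _)
  have hτc : τ ≤ h / 16 := by rw [hτ]; exact (min_le_right _ _).trans (min_le_right _ _)
  obtain ⟨X₂, hX₂⟩ := exists_nat_ge (16 / h + 2 / κ + 4 / ν + 128 / (ν * ι') +
    4 / κ * (8 / ι') + 64 / ι')
  refine ⟨κ, π₁, 1 / 16 / 3 ^ (k + 2), τ, 1, Ca, 0, max (max X₀ X₁) (max K X₂), hκ0, hκ1, hπ₁0,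
    hπ₁b.trans (min_le_right _ _), by positivity, hτ0, one_pos, hCa, ?_⟩
  intro m J F c mv tg qt q w W X mm D γ B G₀ H gg ζ χ₁ χ₂ ρ₁ ρ₂ ρ₃ ξ₆ zw Cj Cx Rj Rx R' XJ p Nf Nn
    Nu Nv nb Mf Mn vt U Fv Gf κ' e₁ d ψ hp sup wW hWX deg DK cls grd mU V hj hx zL zP n0 n1 u0 u1
    m0 m0' mf mf' v0' vs hc2 f0 f1 v0 v1 hv1 hd0 hv0 dj jt hD hf nb1 nb2 cells row FU T hX hs hmm
  have h0 := hp.nonneg
  have hW : W ≤ J := by omega
  have he1 : 0 ≤ e₁ := (CH_nonneg h0 _ _).trans (dj 0)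
  have hc : VpC F c mv tg qt q w W X mm D K γ B G₀ H gg zw Cj Cx Rj Rx R' XJ p Nf Nn Nu Nv nb Mf
      Mn vt U Fv Gf κ' e₁ d ψ 1 0 := ⟨hp, sup, wW, hWX, deg, DK, cls, grd, mU, V, hj, hx, zL, zP,
    n0, n1, u0, u1, m0, m0', mf, mf', v0', vs, hc2, f0, f1, v0, v1, hv1, hd0, hv0, dj, jt, hD, hf,
    nb1, nb2, cells, T, he1⟩
  have hX0 : (0 : ℝ) ≤ X := Nat.cast_nonneg X
  have hXX0 : X₀ ≤ X := (le_max_left _ _).trans ((le_max_left _ _).trans hX)
  have hXX1 : X₁ ≤ X := (le_max_right _ _).trans ((le_max_left _ _).trans hX)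
  have hXK : K ≤ X := (le_max_left _ _).trans ((le_max_right _ _).trans hX)
  have hXX2 : X₂ ≤ X := (le_max_right _ _).trans ((le_max_right _ _).trans hX)
  have hXR : 16 / h + 2 / κ + 4 / ν + 128 / (ν * ι') + 4 / κ * (8 / ι') + 64 / ι' ≤ X := by
    have h1 : (X₂ : ℝ) ≤ X := by exact_mod_cast hXX2
    exact hX₂.trans h1
  have g1 : 0 < 16 / h := by positivity
  have g2 : 0 < 2 / κ := by positivity
  have g3 : 0 < 4 / ν := by positivity
  have g4 : 0 < 128 / (ν * ι') := by positivity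
  have g5 : 0 < 4 / κ * (8 / ι') := by positivity
  have g6 : 0 < 64 / ι' := by positivity
  have hX1 : (0 : ℝ) < X := by linarith
  have hhX : 1 ≤ h / 16 * X := by
    have h2 : 16 / h ≤ X := by linarith
    rw [div_le_iff₀ hh] at h2
    linarith
  have hκX : 2 ≤ κ * X := by
    have h2 : 2 / κ ≤ X := by linarith
    rw [div_le_iff₀ hκ0] at h2
    linarith
  have hνX : 4 ≤ ν * X := by
    have h2 : 4 / ν ≤ X := by linarith
    rw [div_le_iff₀ hν0] at h2
    linarith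
  have hνιX : 128 ≤ ν * ι' * X := by
    have h2 : 128 / (ν * ι') ≤ X := by linarith
    rw [div_le_iff₀ (by positivity)] at h2
    linarith
  have hιX1 : 4 / κ ≤ ι' / 8 * X := by
    have h2 : 4 / κ * (8 / ι') ≤ X := by linarith
    have h3 : 4 / κ = 4 / κ * (8 / ι') * (ι' / 8) := by field_simp
    rw [h3, mul_comm (ι' / 8)]
    exact mul_le_mul_of_nonneg_right h2 (by positivity)
  have hιX2 : 64 ≤ ι' * X := by
    have h2 : 64 / ι' ≤ X := by linarith
    rw [div_le_iff₀ hι'0] at h2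
    linarith
  have hψ := hc.psi0
  have hτX : κ' + d + e₁ + Ca + ψ * J ≤ τ₁ * X :=
    hs.trans (mul_le_mul_of_nonneg_right hτa hX0)
  have hmX : (mm : ℝ) ≤ τ₁ * X := hmm.trans (mul_le_mul_of_nonneg_right hτa hX0)
  obtain ⟨q1, q2⟩ := hnum X mm κ' d e₁ Ca (ψ * J) U hXX1 V.κ0 hd0 he1 hCa hψ hτX hmX grd.U0 mU
  have P := hprv hc hXK
  have few := hc.few P
  -- the blocks
  have hla1 : 7 / 16 * h ≤ la h := by
    unfold la
    nlinarith
  have hla2 : la h ≤ 1 / 2 := by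
    unfold la
    nlinarith [sq_nonneg (h - 1)]
  have hla0 : 0 ≤ la h * X := by
    have : 0 ≤ la h := le_trans (by positivity) hla1
    positivity
  obtain ⟨L, hL⟩ : ∃ L : ℕ, L = ⌊la h * X⌋₊ := ⟨_, rfl⟩
  have hL1 : (L : ℝ) ≤ la h * X := by rw [hL]; exact Nat.floor_le hla0
  have hL2 : la h * X < L + 1 := by rw [hL]; exact Nat.lt_floor_add_one _
  have hlaX : la h * X ≤ 1 / 2 * X := mul_le_mul_of_nonneg_right hla2 hX0
  have hlaX' : 7 / 16 * h * X ≤ la h * X := mul_le_mul_of_nonneg_right hla1 hX0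
  have hmmh : (mm : ℝ) ≤ h / 16 * X := hmm.trans (mul_le_mul_of_nonneg_right hτc hX0)
  have hmL : mm ≤ L := by
    have h1 : (mm : ℝ) ≤ L := by linarith
    exact_mod_cast h1
  have hLX : L ≤ X := by
    have h1 : (L : ℝ) ≤ X := by linarith
    exact_mod_cast h1
  obtain ⟨t, ht⟩ : ∃ t : ℕ, t = X - L := ⟨_, rfl⟩
  obtain ⟨Y, hY⟩ : ∃ Y : ℕ, Y = L - mm := ⟨_, rfl⟩
  have htX : t ≤ X := by omega
  have hXt : (X : ℝ) - t = L := by
    have h1 : t + L = X := by omega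
    have h2 : (t : ℝ) + L = X := by exact_mod_cast h1
    linarith
  have hYL : (Y : ℝ) = L - mm := by
    have h1 : Y + mm = L := by omega
    have h2 : (Y : ℝ) + mm = L := by exact_mod_cast h1
    linarith
  have hXY : X - Y = mm + t := by omega
  have hYX : Y ≤ X := by omega
  -- the steps
  obtain ⟨ks, hks⟩ : ∃ ks : ℕ, ks = ⌊ν * X⌋₊ := ⟨_, rfl⟩
  have hνX0 : 0 ≤ ν * X := by positivity
  have ks1 : (ks : ℝ) ≤ ν * X := by rw [hks]; exact Nat.floor_le hνX0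
  have ks2 : ν * X < ks + 1 := by rw [hks]; exact Nat.lt_floor_add_one _
  have ks3 : ν * X / 2 ≤ ks := by linarith
  have ks4 : 0 < ks := by
    have : (0 : ℝ) < ks := by linarith
    exact_mod_cast this
  obtain ⟨N, hN⟩ : ∃ N : ℕ, N = Y / ks := ⟨_, rfl⟩
  have N1 : N * ks ≤ Y := by rw [hN]; exact Nat.div_mul_le_self Y ks
  have N2 : Y ≤ N * ks + ks := by
    have := Nat.div_add_mod Y ks
    have h2 := Nat.mod_lt Y ks4
    rw [← hN, mul_comm] at this
    omega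
  have N3 : (N : ℝ) ≤ 2 / ν := by
    rw [le_div_iff₀ hν0]
    have h1 : (N : ℝ) * ks ≤ X := by exact_mod_cast N1.trans hYX
    have h2 : (N : ℝ) * (ν * X / 2) ≤ N * ks := mul_le_mul_of_nonneg_left ks3
      (Nat.cast_nonneg N)
    have h3 : (N : ℝ) * ν * X ≤ 2 * X := by linarith
    exact le_of_mul_le_mul_right h3 hX1
  obtain ⟨er, her⟩ : ∃ er : ℝ, er = 2 * (κ * X) + τ * X + 3 ^ (k + 2) * (π₁ / π₀) * X :=
    ⟨_, rfl⟩
  have her1 : er ≤ 3 * (ν * ι' / 64 * X) := by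
    have h1 : 2 * (κ * X) = ν * ι' / 64 * X := by
      rw [hκ]
      ring
    have h2 : τ * X ≤ ν * ι' / 64 * X := mul_le_mul_of_nonneg_right hτb hX0
    have h3 : 3 ^ (k + 2) * (π₁ / π₀) * X ≤ ν * ι' / 64 * X :=
      mul_le_mul_of_nonneg_right hπ₁a hX0
    rw [her]
    linarith
  have her0 : 0 ≤ er := by
    rw [her]
    positivity
  have hfi : Pool.DIR16.FIh p (slam F W) (bsc F c mv tg qt w W γ H nb zw)
      (Mm F c tg w H (fun u => γ (tg u) + qt u + X)) (bsc F c mv tg qt w W γ H nb zw) (mm + t)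
      ((2 : ℝ) ^ (-(dl * X))) (N * (ks * Real.log 2 - er - Real.log 49)) π₀ := by
    refine fih_small (X := X) (ks := ks) hp (by omega) (by positivity) ?_ ?_
    · rw [← Real.rpow_natCast, ← Real.rpow_add two_pos]
      refine Real.rpow_le_one_of_one_le_of_nonpos one_le_two ?_
      have : ν * X ≤ dl * X := mul_le_mul_of_nonneg_right hν1 hX0
      linarith
    · intro kL kP E hk hE _ i hi
      have h1 : (i + 1) * ks ≤ X := by
        have := Nat.mul_le_mul_right ks (Nat.succ_le_of_lt hi)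
        exact this.trans (N1.trans hYX)
      have h2 := hc.ful 1 hκX hτ0.le hπ₁0 FU hk hπ₀ hE (Y₁ := i * ks) (Y₂ := (i + 1) * ks)
        (Nat.mul_le_mul_right ks (Nat.le_succ i)) h1
      have h3 : (((i + 1) * ks : ℕ) : ℝ) - ((i * ks : ℕ) : ℝ) = ks := by
        push_cast
        ring
      rw [h3, ← her] at h2
      exact h2
  have hιι : ι' * X ≤ ι * X := mul_le_mul_of_nonneg_right hι'1 hX0
  have hR0 : (0 : ℝ) ≤ 2 - h := by linarith
  have hrr : (2 - h) * (2 / κ) + τ * X + 2 * (κ * X + 2) ≤ ι * X := by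
    have h1 : (2 - h) * (2 / κ) ≤ 4 / κ := by
      have : 4 / κ = 2 * (2 / κ) := by ring
      rw [this]
      exact mul_le_mul_of_nonneg_right (by linarith) g2.le
    have h2 : τ * X ≤ ι' / 64 * X := mul_le_mul_of_nonneg_right (by linarith) hX0
    have h3 : 2 * (κ * X) ≤ ι' / 64 * X := by
      have : 2 * (κ * X) = ν * ι' / 64 * X := by
        rw [hκ]
        ring
      rw [this]
      exact mul_le_mul_of_nonneg_right (by linarith) hX0
    linarith
  have hrow := fun {Y' : ℕ} (hY' : Y' ≤ X) (E : Set F.Ω) (hE : π₁ ≤ Pr p E) =>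
    hc.row hR0 hκ0 hκX hπ₁0 row hY' E hE
  obtain ⟨kL, kP, ka, mu, G, b1, b2, b3, -, b5⟩ := hpv P
    (Ur := (2 - h) * X * Real.log 2 + ι * X)
    (Ur' := (2 - h) * ((X : ℝ) - t) * Real.log 2 + ι * X)
    (b₁ := N * (ks * Real.log 2 - er - Real.log 49)) (ψ := ψ) (ε₀ := 1)
    (j₀ := 0) (t := t) (Bs := bsc F c mv tg qt w W γ H nb zw) nb1 nb2 (fun _ => rfl)
    (VpC.hBs p) (few.trans q2)
    (fun E hE => by
      have h1 := hrow le_rfl E ((hπ₁b.trans (min_le_left _ _)).trans hE)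
      refine h1.trans ?_
      push_cast
      linarith)
    (fun E hE => by
      have h1 := hrow hYX E ((hπ₁b.trans (min_le_left _ _)).trans hE)
      have e1 : (fun ω u => Mm F c tg w H (fun u => γ (tg u) + qt u + X) ω u / 2 ^ (mm + t)) =
        Mm F c tg w H (fun u => γ (tg u) + qt u + Y) := by
        funext ω u
        rw [← hXY]
        exact mm_div hYX ω u
      show CH (rs p E) (fun ω u => Mm F c tg w H (fun u => γ (tg u) + qt u + X) ω u /
        2 ^ (mm + t)) _ ≤ _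
      rw [e1]
      refine h1.trans ?_
      have h2 : (2 - h) * (Y : ℝ) * Real.log 2 ≤ (2 - h) * ((X : ℝ) - t) * Real.log 2 := by
        refine mul_le_mul_of_nonneg_right (mul_le_mul_of_nonneg_left ?_ hR0) hl2.le
        rw [hXt, hYL]
        have : (0 : ℝ) ≤ mm := Nat.cast_nonneg mm
        linarith
      push_cast
      linarith)
    hfi T hc.hz hXX0 hWX
    (by
      have h1 : τ * X ≤ ι * X := mul_le_mul_of_nonneg_right (by linarith) hX0
      have := V.κ0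
      linarith)
    (by
      have h1 : τ * X ≤ ι * X := mul_le_mul_of_nonneg_right (by linarith) hX0
      linarith) q1 htX (by rw [hXt]; exact hL1)
    (by rw [hXt]; linarith) (by linarith) le_rfl
    (by
      rw [hXt]
      have h1 : (N : ℝ) * (er + Real.log 49) ≤ ι' / 4 * X := by
        have h2 : (N : ℝ) * (er + Real.log 49) ≤ 2 / ν * (3 * (ν * ι' / 64 * X) + 8) :=
          mul_le_mul N3 (by linarith) (by linarith) (by positivity)
        have h3 : 2 / ν * (3 * (ν * ι' / 64 * X) + 8) = 6 / 64 * (ι' * X) + 16 / ν := by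
          field_simp
          ring
        have h4 : 16 / ν ≤ ι' / 8 * X := by
          rw [div_le_iff₀ hν0]
          linarith
        linarith
      have h5 : (L : ℝ) ≤ N * ks + ks + mm := by
        have : (Y : ℝ) ≤ N * ks + ks := by exact_mod_cast N2
        linarith
      have h6 := mul_le_mul_of_nonneg_right h5 hl2.le
      have h7 : (ks : ℝ) * Real.log 2 ≤ ks := mul_le_of_le_one_right (Nat.cast_nonneg _) hl2'
      have h8 : (mm : ℝ) * Real.log 2 ≤ mm := mul_le_of_le_one_right (Nat.cast_nonneg _) hl2'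
      have h9 : (ks : ℝ) ≤ ι / 8 * X := ks1.trans (mul_le_mul_of_nonneg_right hν2 hX0)
      have h10 : (mm : ℝ) ≤ ι' / 64 * X :=
        hmm.trans (mul_le_mul_of_nonneg_right (by linarith) hX0)
      have h11 : (N : ℝ) * (ks * Real.log 2 - er - Real.log 49) =
        N * ks * Real.log 2 - N * (er + Real.log 49) := by ring
      have h12 : ((N : ℝ) * ks + ks + mm) * Real.log 2 = N * ks * Real.log 2 +
        ks * Real.log 2 + mm * Real.log 2 := by ring
      linarith)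
  obtain ⟨zz, G', c1, c2, c3⟩ := hc.out (fun ω hω hG => (b5 ω hω hG).1)
    (by norm_num : (0 : ℝ) < 1 / 16) b2
  exact ⟨fun s => ka (kL s), fun y => ka (zz y), mu, G', fun s => b1 _, b3, c2,
    fun ω hω hG => ⟨congrArg ka (c3 ω hω hG), (b5 ω hω (c1 ω hG)).2⟩⟩

end Pool.V0P
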