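import Pool.Agent.H25.V0P.St

/-!
# Several targets of one slope: the event theorem, statement

`V0tFin`: `C` targets; on an event of constant mass a combination of the gradients is closed, its
coefficient at the pivot is one, the coefficients after the pivot vanish. Only the row of the whole
block is used.
-/

set_option autoImplicit false

namespace Pool.V0P

open Finset Real MvPolynomial
open Pool.Agent.H49.Ent Pool.Agent.H32.Dense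
open Pool.STK hiding pr2
open Pool.KA Pool.KSAT Pool.K2S Pool.PB Pool.S6C
open Pool.GEN Pool.CHT Pool.CHX Pool.ISO Pool.LA91 Pool.AVG71 Pool.AVG5 Pool.D2F2 Pool.AVG57
open Pool.PB.Trl (rt)
open Pool.LV64 (GrdV PrV Vm Mm)
open Pool.D2R (hgt)
open Pool.KAF (rs Pr)
open Pool.BFL (Pb)
open Pool.V0F (VLaw2)

/-- **The event theorem for several targets.** `mv`: the moved places, `tg`: the targets, in the
order of the places. On an event of mass `m₀` and for one pivot `i` a combination of the gradients is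
closed: coefficient `1` at `i`, `0` after `i`, `≤ 2 ^ (ζ₂ i X)`; the combination is a function of the
line and of the point. -/
def V0tFin (C : ℕ) : Prop := ∀ (k K : ℕ) (h θ : ℝ), 1 ≤ K → 0 < h → h ≤ 1 → 0 < θ →
  ∃ κ₂ ζ₂ : Fin C → ℝ, (∀ i, 0 < κ₂ i ∧ κ₂ i ≤ 1 / 4 ∧ 0 ≤ ζ₂ i ∧ ζ₂ i ≤ θ * κ₂ i) ∧
  ∃ (π₀ m₀ τ ε₀ Ca : ℝ) (j₀ X₀ : ℕ), 0 < π₀ ∧ π₀ ≤ 1 ∧ 0 < m₀ ∧ 0 < τ ∧ 0 < ε₀ ∧ 0 ≤ Ca ∧
    ∀ {m J : ℕ} {F : Fam m J} {c : ℕ → Fin m} {mv : Fin k → ℕ} {tg qt : Fin C → ℕ}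
      {q w W X mm D : ℕ} {γ : ℕ → ℕ} {B : F.Ω → Prop}
      {G₀ : PtT F → ℕ → MvPolynomial (Option (Fin m)) ℝ}
      {H : LnT F → ℕ → MvPolynomial (Option (Fin m)) ℝ} {gg : F.Ω → Fin C → Fin k → ℝ}
      {ζ χ₁ χ₂ ρ₁ ρ₂ ρ₃ ξ₆ : Type} {zw : F.Ω → ζ} {Cj : F.Ω → χ₁} {Cx : F.Ω → χ₂}
      {Rj : F.Ω → ρ₁} {Rx : F.Ω → ρ₂} {R' : F.Ω → ρ₃} {XJ : F.Ω → ξ₆} {p : F.Ω → ℝ}
      {Nf Nn Nu Nv : Fin k → ℕ → ℝ} {nb : Fin k → ℝ} {Mf Mn vt : Fin C → ℝ}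
      {U Fv Gf κ' e₁ d ψ : ℝ},
      IsLaw p → (∀ ω, 0 < p ω → B ω) → w ≤ W → W + X ≤ J →
      (∀ s l, (H s l).totalDegree ≤ D) → D + 1 ≤ K →
      -- the charts are closed; the gradients
      (∀ ω, B ω → (∀ u, G₀ (ptr F J ω) (tg u) = H (slam F w ω) (tg u)) ∧
        ∀ j, G₀ (ptr F J ω) (mv j) = H (slam F w ω) (mv j)) →
      GrdV F c mv tg qt (fun _ => X) q X γ U B G₀ gg (fun _ => ()) Cj Cx → U + 1 ≤ 2 ^ mm →
      -- the law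
      VLaw2 p zw Rj Rx R' F.W (jp F c 0 mv w H fun l => Nn l 0) (jp F c 0 mv w H fun l => Nf l 0)
        (jp F c 1 mv w H fun l => Nn l 1) (jp F c 1 mv w H fun l => Nf l 1)
        (jp F c 0 tg w H Mn) (jp F c 0 tg w H Mf) XJ Fv Gf κ' →
      Det p Rj Cj → Det p Rx Cx → Det p (slam F W) zw → Det p (ptr F J) zw →
      -- the digits
      (∀ l, Nn l 0 * J ≤ (γ (mv l) + q : ℕ)) →
      (∀ l, Nn l 1 * J + W ≤ (γ (mv l) + q + (X + mm) : ℕ)) →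
      (∀ l, Nu l 0 * J ≤ (γ (mv l) + q : ℕ)) →
      (∀ l, Nu l 1 * J + W ≤ (γ (mv l) + q + (X + mm) : ℕ)) →
      (∀ u, Mn u * J ≤ (γ (tg u) + qt u : ℕ)) →
      (∀ u, ((γ (tg u) + qt u : ℕ) : ℝ) ≤ Mn u * J + d) →
      (∀ u, ((γ (tg u) + qt u + X : ℕ) : ℝ) ≤ Mf u * J) →
      (∀ u, Mf u * J ≤ (γ (tg u) + qt u + X : ℕ) + d) →
      -- the own velocities of the targets are small
      (∀ u, vt u * J + W ≤ (γ (tg u) + qt u : ℕ)) →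
      (∀ ω, 0 < p ω → ∀ u,
        |(2 : ℝ) ^ (vt u * J) * ojet F (c (tg u)) 1 (H (slam F w ω) (tg u)) ω| < 1) →
      -- the codes of the orders `≥ 2` of the moved places
      (∀ l, CH p (Pool.AVG71.cod F W 2 K (2 ^ (γ (mv l) + q + (X + mm))) (c (mv l))
        (fun s => upw w W s) (fun s => H s (mv l))) F.W ≤ e₁) →
      (∀ l, ((γ (mv l) + q + (X + mm) : ℕ) : ℝ) ≤ Nf l 0 * J) →
      (∀ l, ((γ (mv l) + q + (X + mm) : ℕ) : ℝ) ≤ Nf l 1 * J + W) →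
      (∀ l, ((γ (mv l) + q : ℕ) : ℝ) ≤ Nv l 0 * J) →
      (∀ l, ((γ (mv l) + q + (X + mm) : ℕ) : ℝ) ≤ Nv l 1 * J + W) →
      (∀ l, Nv l 1 = Nn l 1) → 0 ≤ d → (∀ l, (Nv l 0 - Nn l 0) * J ≤ d) →
      -- `dj`, `jt` for all targets
      (∀ u, CH p (Pool.AVG57.cod F w (fun s => H s (tg u)) (c (tg u)) (γ (tg u) + qt u + X) 1 K)
        (fun ω => (jetm F c mv w H Nf ω, (zw ω, F.W ω))) ≤ e₁) →
      (∀ u, CH p (Pool.AVG57.cod F w (fun s => H s (tg u)) (c (tg u)) (γ (tg u) + qt u) 0 K)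
        (fun ω => (jetm F c mv w H Nu ω, (Rx ω, F.W ω))) ≤ e₁) →
      -- near digits of the moved places
      CH p (jp F c 0 mv w H nb) (fun ω => (R' ω, F.W ω)) ≤ κ' →
      k * (X * Real.log 2) - κ' ≤ CH p (jp F c 0 mv w H nb)
        (fun ω => (jp F c 0 mv w H (fun l => Nn l 0) ω, (Rx ω, F.W ω))) →
      (∀ l, ((γ (mv l) + q + X : ℕ) : ℝ) ≤ nb l * J) →
      (∀ l, nb l * J ≤ (γ (mv l) + q + (X + mm) : ℕ)) →
      -- the cells: samples of one point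
      (∀ ω ν, 0 < p ω → 0 < p ν → ptr F J ω = ptr F J ν →
        (∀ j, |hgt F c G₀ ω (mv j) - hgt F c G₀ ν (mv j)| ≤
          1 / 2 ^ (γ (mv j) + q + (X + mm))) ∧
        ∀ u, |hgt F c G₀ ω (tg u) - hgt F c G₀ ν (tg u)| ≤ 1 / 2 ^ (γ (tg u) + qt u + X)) →
      -- the row of all targets on the whole block
      (∀ E : Set F.Ω, π₀ ≤ Pr p E →
        CH (rs p E) (Mm F c tg w H (fun u => γ (tg u) + qt u + X))
          (fun ω => (Mm F c tg w H (fun u => γ (tg u) + qt u) ω,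
            (jp F c 0 mv w H nb ω, (F.W ω, zw ω)))) ≤
          (C - h) * X * Real.log 2 + τ * X) →
      TimW F p W j₀ ε₀ ψ → X₀ ≤ X →
      κ' + d + e₁ + Ca + ψ * J ≤ τ * X → (mm : ℝ) ≤ τ * X →
      ∃ (i : Fin C) (G : F.Ω → Prop) (lam : LnT F → Fin C → ℝ) (lamP : PtT F → Fin C → ℝ)
        (mu : LnT F → Fin k → Polynomial ℝ),
        m₀ ≤ Pe p G ∧ (∀ s, lam s i = 1) ∧ (∀ s l, i < l → lam s l = 0) ∧
        (∀ s l, |lam s l| ≤ (2 : ℝ) ^ (ζ₂ i * X)) ∧ (∀ s j, (mu s j).natDegree ≤ K) ∧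
        ∀ ω, 0 < p ω → G ω → lam (slam F W ω) = lamP (ptr F J ω) ∧
          ∀ j, |∑ u, lam (slam F W ω) u * gg ω u j - (mu (slam F W ω) j).eval (rt F W ω)| ≤
            (2 : ℝ) ^ (-(κ₂ i * X))

end Pool.V0P
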