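import Pool.Agent.H25.V0P.St

/-!
# A pair of targets, last pivot: the event theorem, statement

`V0pAlt`: two targets `N`, `u`; on an event of constant mass the gradient of `N` minus a closed
multiple of the gradient of `u` is closed. Only the digits of `u` have to be full.
-/

set_option autoImplicit false

namespace Pool.V0P

open Finset Real MvPolynomial
open Pool.Agent.H49.Ent Pool.Agent.H32.Dense
open Pool.STK hiding pr2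
open Pool.KA Pool.KSAT Pool.K2S Pool.PB Pool.S6C
open Pool.GEN Pool.CHT Pool.CHX Pool.ISO Pool.LA91 Pool.AVG71 Pool.AVG5 Pool.D2F2 Pool.AVG57
open Pool.PB.Trl (rt)
open Pool.LV64 (GrdV PrV Vm Mm)
open Pool.D2R (hgt)
open Pool.KAF (rs Pr)
open Pool.BFL (Pb)
open Pool.V0F (VLaw2)

/-- **The pair event theorem, last pivot.** `mv`: the moved places; `tg 0 = N`, `tg 1 = u`. On an
event of mass `m₀` the gradient of `N` minus a closed multiple `lam` of the gradient of `u` is closed;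
`|lam| ≤ 2 ^ (dl X)`. Rows and fullness of `u` are needed on the grid `j ⌊κ X⌋` only. -/
def V0pAlt : Prop := ∀ (k K : ℕ) (h κ₂ dl : ℝ), 1 ≤ K → 0 < h → h ≤ 1 → 0 < κ₂ →
  0 < dl → 4 * dl + κ₂ < h ^ 2 / 16 →
  ∃ (κ π₀ m₀ τ ε₀ Ca : ℝ) (j₀ X₀ : ℕ), 0 < κ ∧ κ ≤ 1 ∧ 0 < π₀ ∧ π₀ ≤ 1 ∧ 0 < m₀ ∧ 0 < τ ∧
    0 < ε₀ ∧ 0 ≤ Ca ∧
    ∀ {m J : ℕ} {F : Fam m J} {c : ℕ → Fin m} {mv : Fin k → ℕ} {tg qt : Fin 2 → ℕ}
      {q w W X mm D : ℕ} {γ : ℕ → ℕ} {B : F.Ω → Prop}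
      {G₀ : PtT F → ℕ → MvPolynomial (Option (Fin m)) ℝ}
      {H : LnT F → ℕ → MvPolynomial (Option (Fin m)) ℝ} {gg : F.Ω → Fin 2 → Fin k → ℝ}
      {ζ χ₁ χ₂ ρ₁ ρ₂ ρ₃ ξ₆ : Type} {zw : F.Ω → ζ} {Cj : F.Ω → χ₁} {Cx : F.Ω → χ₂}
      {Rj : F.Ω → ρ₁} {Rx : F.Ω → ρ₂} {R' : F.Ω → ρ₃} {XJ : F.Ω → ξ₆} {p : F.Ω → ℝ}
      {Nf Nn Nu Nv : Fin k → ℕ → ℝ} {nb : Fin k → ℝ} {Mf Mn vt : Fin 2 → ℝ}
      {U Fv Gf κ' e₁ d ψ : ℝ},
      IsLaw p → (∀ ω, 0 < p ω → B ω) → w ≤ W → W + X ≤ J →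
      (∀ s l, (H s l).totalDegree ≤ D) → D + 1 ≤ K →
      -- the charts are closed; the gradients
      (∀ ω, B ω → (∀ u, G₀ (ptr F J ω) (tg u) = H (slam F w ω) (tg u)) ∧
        ∀ j, G₀ (ptr F J ω) (mv j) = H (slam F w ω) (mv j)) →
      GrdV F c mv tg qt (fun _ => X) q X γ U B G₀ gg (fun _ => ()) Cj Cx → U + 1 ≤ 2 ^ mm →
      -- the law
      VLaw2 p zw Rj Rx R' F.W (jp F c 0 mv w H fun l => Nn l 0) (jp F c 0 mv w H fun l => Nf l 0)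
        (jp F c 1 mv w H fun l => Nn l 1) (jp F c 1 mv w H fun l => Nf l 1)
        (jp F c 0 tg w H Mn) (jp F c 0 tg w H Mf) XJ Fv Gf κ' →
      Det p Rj Cj → Det p Rx Cx → Det p (slam F W) zw → Det p (ptr F J) zw →
      -- the digits
      (∀ l, Nn l 0 * J ≤ (γ (mv l) + q : ℕ)) →
      (∀ l, Nn l 1 * J + W ≤ (γ (mv l) + q + (X + mm) : ℕ)) →
      (∀ l, Nu l 0 * J ≤ (γ (mv l) + q : ℕ)) →
      (∀ l, Nu l 1 * J + W ≤ (γ (mv l) + q + (X + mm) : ℕ)) →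
      (∀ u, Mn u * J ≤ (γ (tg u) + qt u : ℕ)) →
      (∀ u, ((γ (tg u) + qt u : ℕ) : ℝ) ≤ Mn u * J + d) →
      (∀ u, ((γ (tg u) + qt u + X : ℕ) : ℝ) ≤ Mf u * J) →
      (∀ u, Mf u * J ≤ (γ (tg u) + qt u + X : ℕ) + d) →
      -- the own velocities of the targets are small
      (∀ u, vt u * J + W ≤ (γ (tg u) + qt u : ℕ)) →
      (∀ ω, 0 < p ω → ∀ u,
        |(2 : ℝ) ^ (vt u * J) * ojet F (c (tg u)) 1 (H (slam F w ω) (tg u)) ω| < 1) →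
      -- the codes of the orders `≥ 2` of the moved places
      (∀ l, CH p (Pool.AVG71.cod F W 2 K (2 ^ (γ (mv l) + q + (X + mm))) (c (mv l))
        (fun s => upw w W s) (fun s => H s (mv l))) F.W ≤ e₁) →
      (∀ l, ((γ (mv l) + q + (X + mm) : ℕ) : ℝ) ≤ Nf l 0 * J) →
      (∀ l, ((γ (mv l) + q + (X + mm) : ℕ) : ℝ) ≤ Nf l 1 * J + W) →
      (∀ l, ((γ (mv l) + q : ℕ) : ℝ) ≤ Nv l 0 * J) →
      (∀ l, ((γ (mv l) + q + (X + mm) : ℕ) : ℝ) ≤ Nv l 1 * J + W) →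
      (∀ l, Nv l 1 = Nn l 1) → 0 ≤ d → (∀ l, (Nv l 0 - Nn l 0) * J ≤ d) →
      -- `dj`, `jt` for both targets
      (∀ u, CH p (Pool.AVG57.cod F w (fun s => H s (tg u)) (c (tg u)) (γ (tg u) + qt u + X) 1 K)
        (fun ω => (jetm F c mv w H Nf ω, (zw ω, F.W ω))) ≤ e₁) →
      (∀ u, CH p (Pool.AVG57.cod F w (fun s => H s (tg u)) (c (tg u)) (γ (tg u) + qt u) 0 K)
        (fun ω => (jetm F c mv w H Nu ω, (Rx ω, F.W ω))) ≤ e₁) →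
      -- near digits of the moved places
      CH p (jp F c 0 mv w H nb) (fun ω => (R' ω, F.W ω)) ≤ κ' →
      k * (X * Real.log 2) - κ' ≤ CH p (jp F c 0 mv w H nb)
        (fun ω => (jp F c 0 mv w H (fun l => Nn l 0) ω, (Rx ω, F.W ω))) →
      (∀ l, ((γ (mv l) + q + X : ℕ) : ℝ) ≤ nb l * J) →
      (∀ l, nb l * J ≤ (γ (mv l) + q + (X + mm) : ℕ)) →
      -- the cells: samples of one point
      (∀ ω ν, 0 < p ω → 0 < p ν → ptr F J ω = ptr F J ν →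
        (∀ j, |hgt F c G₀ ω (mv j) - hgt F c G₀ ν (mv j)| ≤
          1 / 2 ^ (γ (mv j) + q + (X + mm))) ∧
        ∀ u, |hgt F c G₀ ω (tg u) - hgt F c G₀ ν (tg u)| ≤ 1 / 2 ^ (γ (tg u) + qt u + X)) →
      -- the rows of the pair, blocks `(q, q + j ⌊κ X⌋]`
      (∀ j : ℕ, j * ⌊κ * X⌋₊ ≤ X → ∀ E : Set F.Ω, π₀ ≤ Pr p E →
        CH (rs p E) (Mm F c tg w H (fun u => γ (tg u) + qt u + j * ⌊κ * X⌋₊))
          (fun ω => (Mm F c tg w H (fun u => γ (tg u) + qt u) ω,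
            (jp F c 0 mv w H nb ω, (F.W ω, zw ω)))) ≤
          (2 - h) * (j * (κ * X)) * Real.log 2 + τ * X) →
      -- the digits of `u` are full, blocks `(q + i ⌊κ X⌋, q + j ⌊κ X⌋]`
      (∀ i j : ℕ, i ≤ j → j * ⌊κ * X⌋₊ ≤ X → ∀ (V : Type) (z : PtT F → V) (z' : LnT F → V)
        (E : F.Ω → Prop), (∀ ω, 0 < p ω → E ω → z (ptr F J ω) = z' (slam F W ω)) →
        π₀ ≤ Pe p E →
        (j - i) * (κ * X) * Real.log 2 - τ * X ≤ CH (Pool.Agent.H49.Ent.cond p E True)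
          (fun ω => Mm F c tg w H (fun u => γ (tg u) + qt u + j * ⌊κ * X⌋₊) ω 1)
          (fun ω => (z' (slam F W ω),
            (Mm F c tg w H (fun u => γ (tg u) + qt u + i * ⌊κ * X⌋₊) ω,
              (jp F c 0 mv w H nb ω, (F.W ω, zw ω)))))) →
      TimW F p W j₀ ε₀ ψ → X₀ ≤ X →
      κ' + d + e₁ + Ca + ψ * J ≤ τ * X → (mm : ℝ) ≤ τ * X →
      ∃ (lam : LnT F → ℝ) (lamP : PtT F → ℝ) (mu : LnT F → Fin k → Polynomial ℝ) (G : F.Ω → Prop),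
        (∀ s, |lam s| ≤ (2 : ℝ) ^ (dl * X)) ∧ (∀ s i, (mu s i).natDegree ≤ K) ∧
        m₀ ≤ Pe p G ∧ ∀ ω, 0 < p ω → G ω → lam (slam F W ω) = lamP (ptr F J ω) ∧
          ∀ j, |gg ω 0 j - lam (slam F W ω) * gg ω 1 j -
            (mu (slam F W ω) j).eval (rt F W ω)| ≤ (2 : ℝ) ^ (-(κ₂ * X))

end Pool.V0P
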