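import Pool.Agent.H25.V0P.Fih
import Pool.Agent.H25.V0P.St2
import Pool.Agent.H44.V0F.Ev3

/-!
# Several targets: the common part of the event theorems

`VpC`: the inputs in the letters of the class theorem, without rows and fullness, any number of
targets. `vpc_prv`: the inputs `PrV`. `VpC.few`, `vpc_nums`: the error terms. `VpC.low`, `VpC.out`:
codes which are functions of the digits and codes which are functions of the point. `VpC.row`: rows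
on a grid and rows for all blocks; `VpC.ful`: the same for fullness.
-/

set_option autoImplicit false

namespace Pool.V0P

open Finset Real MvPolynomial
open Pool.Agent.H49.Ent Pool.Agent.H32.Dense
open Pool.STK hiding pr2
open Pool.KA Pool.KSAT Pool.K2S Pool.PB Pool.S6C
open Pool.GEN Pool.CHT Pool.CHX Pool.ISO Pool.LA91 Pool.AVG71 Pool.AVG5 Pool.D2F2 Pool.AVG57
open Pool.PB.Trl (rt rt_mem t_rt)
open Pool.LV64 (GrdV PrV Vm Mm Mu adV adV_ti CH_pi Evn VD mh_up)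
open Pool.KVA (MI)
open Pool.D2R (hgt)
open Pool.KAF (rs Pr)
open Pool.BFL (Pb)
open Pool.V0F (VLaw2 VLaw mi_side CH_sgn CH_dig CH_ge CH_tr cE0_le log_two_pow)
open Pool.DIR16 (FIh Pe_cc cond_cc)

/-- **The inputs** in the letters of the class theorem, without rows and fullness. -/
structure VpC {m J : ℕ} (F : Fam m J) (c : ℕ → Fin m) {k C : ℕ} (mv : Fin k → ℕ)
    (tg qt : Fin C → ℕ) (q w W X mm D K : ℕ) (γ : ℕ → ℕ) (B : F.Ω → Prop)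
    (G₀ : PtT F → ℕ → MvPolynomial (Option (Fin m)) ℝ)
    (H : LnT F → ℕ → MvPolynomial (Option (Fin m)) ℝ) (gg : F.Ω → Fin C → Fin k → ℝ)
    {ζ χ₁ χ₂ ρ₁ ρ₂ ρ₃ ξ₆ : Type} (zw : F.Ω → ζ) (Cj : F.Ω → χ₁) (Cx : F.Ω → χ₂)
    (Rj : F.Ω → ρ₁) (Rx : F.Ω → ρ₂) (R' : F.Ω → ρ₃) (XJ : F.Ω → ξ₆) (p : F.Ω → ℝ)
    (Nf Nn Nu Nv : Fin k → ℕ → ℝ) (nb : Fin k → ℝ) (Mf Mn vt : Fin C → ℝ)
    (U Fv Gf κ' e₁ d ψ ε₀ : ℝ) (j₀ : ℕ) : Prop where
  law : IsLaw p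
  sup : ∀ ω, 0 < p ω → B ω
  wW : w ≤ W
  WX : W + X ≤ J
  deg : ∀ s l, (H s l).totalDegree ≤ D
  DK : D + 1 ≤ K
  cls : ∀ ω, B ω → (∀ u, G₀ (ptr F J ω) (tg u) = H (slam F w ω) (tg u)) ∧
        ∀ j, G₀ (ptr F J ω) (mv j) = H (slam F w ω) (mv j)
  grd : GrdV F c mv tg qt (fun _ => X) q X γ U B G₀ gg (fun _ => ()) Cj Cx
  mU : U + 1 ≤ 2 ^ mm
  V : VLaw2 p zw Rj Rx R' F.W (jp F c 0 mv w H fun l => Nn l 0) (jp F c 0 mv w H fun l => Nf l 0)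
        (jp F c 1 mv w H fun l => Nn l 1) (jp F c 1 mv w H fun l => Nf l 1)
        (jp F c 0 tg w H Mn) (jp F c 0 tg w H Mf) XJ Fv Gf κ'
  hj : Det p Rj Cj
  hx : Det p Rx Cx
  zL : Det p (slam F W) zw
  zP : Det p (ptr F J) zw
  n0 : ∀ l, Nn l 0 * J ≤ (γ (mv l) + q : ℕ)
  n1 : ∀ l, Nn l 1 * J + W ≤ (γ (mv l) + q + (X + mm) : ℕ)
  u0 : ∀ l, Nu l 0 * J ≤ (γ (mv l) + q : ℕ)
  u1 : ∀ l, Nu l 1 * J + W ≤ (γ (mv l) + q + (X + mm) : ℕ)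
  m0 : ∀ u, Mn u * J ≤ (γ (tg u) + qt u : ℕ)
  m0' : ∀ u, ((γ (tg u) + qt u : ℕ) : ℝ) ≤ Mn u * J + d
  mf : ∀ u, ((γ (tg u) + qt u + X : ℕ) : ℝ) ≤ Mf u * J
  mf' : ∀ u, Mf u * J ≤ (γ (tg u) + qt u + X : ℕ) + d
  vt0 : ∀ u, vt u * J + W ≤ (γ (tg u) + qt u : ℕ)
  vs : ∀ ω, 0 < p ω → ∀ u,
        |(2 : ℝ) ^ (vt u * J) * ojet F (c (tg u)) 1 (H (slam F w ω) (tg u)) ω| < 1
  hc2 : ∀ l, CH p (Pool.AVG71.cod F W 2 K (2 ^ (γ (mv l) + q + (X + mm))) (c (mv l))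
        (fun s => upw w W s) (fun s => H s (mv l))) F.W ≤ e₁
  f0 : ∀ l, ((γ (mv l) + q + (X + mm) : ℕ) : ℝ) ≤ Nf l 0 * J
  f1 : ∀ l, ((γ (mv l) + q + (X + mm) : ℕ) : ℝ) ≤ Nf l 1 * J + W
  v0 : ∀ l, ((γ (mv l) + q : ℕ) : ℝ) ≤ Nv l 0 * J
  v1 : ∀ l, ((γ (mv l) + q + (X + mm) : ℕ) : ℝ) ≤ Nv l 1 * J + W
  hv1 : ∀ l, Nv l 1 = Nn l 1
  hd0 : 0 ≤ d
  hv0 : ∀ l, (Nv l 0 - Nn l 0) * J ≤ d
  dj : ∀ u, CH p (Pool.AVG57.cod F w (fun s => H s (tg u)) (c (tg u)) (γ (tg u) + qt u + X) 1 K)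
        (fun ω => (jetm F c mv w H Nf ω, (zw ω, F.W ω))) ≤ e₁
  jt : ∀ u, CH p (Pool.AVG57.cod F w (fun s => H s (tg u)) (c (tg u)) (γ (tg u) + qt u) 0 K)
        (fun ω => (jetm F c mv w H Nu ω, (Rx ω, F.W ω))) ≤ e₁
  hD : CH p (jp F c 0 mv w H nb) (fun ω => (R' ω, F.W ω)) ≤ κ'
  hf : k * (X * Real.log 2) - κ' ≤ CH p (jp F c 0 mv w H nb)
        (fun ω => (jp F c 0 mv w H (fun l => Nn l 0) ω, (Rx ω, F.W ω)))
  nb1 : ∀ l, ((γ (mv l) + q + X : ℕ) : ℝ) ≤ nb l * J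
  nb2 : ∀ l, nb l * J ≤ (γ (mv l) + q + (X + mm) : ℕ)
  cells : ∀ ω ν, 0 < p ω → 0 < p ν → ptr F J ω = ptr F J ν →
        (∀ j, |hgt F c G₀ ω (mv j) - hgt F c G₀ ν (mv j)| ≤
          1 / 2 ^ (γ (mv j) + q + (X + mm))) ∧
        ∀ u, |hgt F c G₀ ω (tg u) - hgt F c G₀ ν (tg u)| ≤ 1 / 2 ^ (γ (tg u) + qt u + X)
  T : TimW F p W j₀ ε₀ ψ
  he1 : 0 ≤ e₁

/-- The context. -/
def zc {m J : ℕ} (F : Fam m J) (W : ℕ) {ζ : Type} (zw : F.Ω → ζ) (ω : F.Ω) : ζ × (F.ζ × ℕ) :=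
  (zw ω, (slam F W ω).2)

/-- The base. -/
noncomputable def bsc {m J : ℕ} (F : Fam m J) (c : ℕ → Fin m) {k C : ℕ} (mv : Fin k → ℕ)
    (tg qt : Fin C → ℕ) (w W : ℕ) (γ : ℕ → ℕ)
    (H : LnT F → ℕ → MvPolynomial (Option (Fin m)) ℝ) (nb : Fin k → ℝ) {ζ : Type}
    (zw : F.Ω → ζ) (ω : F.Ω) :
    ((Fin k → ℤ) × (Fin C → ℤ)) × (ℝ × (ζ × (F.ζ × ℕ))) :=
  ((Vm F c mv w H (fun j => nb j * J) ω, Mu F c tg qt w γ H ω), (rt F W ω, zc F W zw ω))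

/-- The error of the inputs `PrV`. -/
noncomputable def epv (k C : ℕ) (κ d e₁ Ca ψJ : ℝ) : ℝ :=
  65 * κ + C * Real.log 2 + k * (d * Real.log 2 + Real.log 5) + (k + 1) * e₁ + Ca + ψJ

section zc

variable {m J : ℕ} {F : Fam m J} {W : ℕ} {ζ : Type} {zw : F.Ω → ζ}

theorem zc_of (hW : W ≤ J) {ω ν : F.Ω} (e1 : F.W ω = F.W ν) (e2 : zw ω = zw ν) :
    rt F W ω = rt F W ν ∧ zc F W zw ω = zc F W zw ν := by
  have eT : F.T ω = F.T ν := (Prod.ext_iff.mp e1).1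
  have eS : F.Z ω = F.Z ν := (Prod.ext_iff.mp e1).2
  have e6 : F.T1 W ω = F.T1 W ν := by
    unfold Fam.T1
    rw [eT]
  exact ⟨rt_of F hW eT, Prod.ext e2 (Prod.ext eS e6)⟩

theorem of_zc (hW : W ≤ J) {ω ν : F.Ω} (e1 : rt F W ω = rt F W ν)
    (e2 : zc F W zw ω = zc F W zw ν) : zw ω = zw ν ∧ F.W ω = F.W ν := by
  obtain ⟨e3, e4⟩ := Prod.ext_iff.mp e2
  obtain ⟨e5, e6⟩ := Prod.ext_iff.mp e4
  exact ⟨e3, Prod.ext (time_eq F hW e6 e1).1 e5⟩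

theorem zc_hy1 (hW : W ≤ J) (p : F.Ω → ℝ) :
    Det p (fun ω => (zw ω, F.W ω)) (fun ω => (rt F W ω, zc F W zw ω)) := fun ω ν _ _ e => by
  obtain ⟨e1, e2⟩ := Prod.ext_iff.mp e
  obtain ⟨e3, e4⟩ := zc_of (zw := zw) hW e2 e1
  exact Prod.ext e3 e4

theorem zc_hy2 (hW : W ≤ J) (p : F.Ω → ℝ) :
    Det p (fun ω => (rt F W ω, zc F W zw ω)) (fun ω => (zw ω, F.W ω)) := fun ω ν _ _ e => by
  obtain ⟨e1, e2⟩ := Prod.ext_iff.mp e
  obtain ⟨e3, e4⟩ := of_zc (zw := zw) hW e1 e2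
  exact Prod.ext e3 e4

end zc

section vpc

variable {m J : ℕ} {F : Fam m J} {c : ℕ → Fin m} {k C : ℕ} {mv : Fin k → ℕ}
    {tg qt : Fin C → ℕ} {q w W X mm D K : ℕ} {γ : ℕ → ℕ} {B : F.Ω → Prop}
    {G₀ : PtT F → ℕ → MvPolynomial (Option (Fin m)) ℝ}
    {H : LnT F → ℕ → MvPolynomial (Option (Fin m)) ℝ} {gg : F.Ω → Fin C → Fin k → ℝ}
    {ζ χ₁ χ₂ ρ₁ ρ₂ ρ₃ ξ₆ : Type} {zw : F.Ω → ζ} {Cj : F.Ω → χ₁} {Cx : F.Ω → χ₂}
    {Rj : F.Ω → ρ₁} {Rx : F.Ω → ρ₂} {R' : F.Ω → ρ₃} {XJ : F.Ω → ξ₆} {p : F.Ω → ℝ}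
    {Nf Nn Nu Nv : Fin k → ℕ → ℝ} {nb : Fin k → ℝ} {Mf Mn vt : Fin C → ℝ}
    {U Fv Gf κ' e₁ d ψ ε₀ : ℝ} {j₀ : ℕ}

theorem VpC.WJ (h : VpC F c mv tg qt q w W X mm D K γ B G₀ H gg zw Cj Cx Rj Rx R' XJ p Nf Nn Nu
    Nv nb Mf Mn vt U Fv Gf κ' e₁ d ψ ε₀ j₀) : W ≤ J := by
  have := h.WX
  omega

theorem VpC.psi0 (h : VpC F c mv tg qt q w W X mm D K γ B G₀ H gg zw Cj Cx Rj Rx R' XJ p Nf Nn
    Nu Nv nb Mf Mn vt U Fv Gf κ' e₁ d ψ ε₀ j₀) : 0 ≤ ψ * J := by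
  have h0 := h.law.nonneg
  have h1 := h.T.mi (F.T1 W) (fun ω ν _ _ e => (Prod.ext_iff.mp (Prod.ext_iff.mp e).2).2)
    (fun _ _ _ _ e => e)
  refine le_trans ?_ h1
  rw [MI_eq h0]
  have := CH_mono_cond h0 (X := F.T) (W' := fun ω => (slam F W ω, F.T1 W ω)) (W := F.T1 W)
    (fun ω ν _ _ e => (Prod.ext_iff.mp e).2)
  linarith

theorem VpC.grdz (h : VpC F c mv tg qt q w W X mm D K γ B G₀ H gg zw Cj Cx Rj Rx R' XJ p Nf Nn Nu
      Nv nb Mf Mn vt U Fv Gf κ' e₁ d ψ ε₀ j₀) :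
    GrdV F c mv tg qt (fun _ => X) q X γ U B G₀ gg (zc F W zw) Cj Cx :=
  { U0 := h.grd.U0
    bm := h.grd.bm
    bj := fun ω ν a b e1 _ e3 e4 => h.grd.bj ω ν a b e1 rfl e3 e4
    bx := fun ω ν a b e1 _ e3 e4 => h.grd.bx ω ν a b e1 rfl e3 e4
    nx := fun ω ν a b e1 _ e3 e4 => h.grd.nx ω ν a b e1 rfl e3 e4 }

/-- **`hfew`.** -/
theorem VpC.few (h : VpC F c mv tg qt q w W X mm D K γ B G₀ H gg zw Cj Cx Rj Rx R' XJ p Nf Nn Nu
      Nv nb Mf Mn vt U Fv Gf κ' e₁ d ψ ε₀ j₀) {e : ℝ}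
    (P : PrV F c mv tg qt (fun _ => X) q w W X mm D K γ B G₀ H gg (zc F W zw) zw F.W Cj Cx Rj Rx
      (Vm F c mv w H fun j => nb j * J) p Nf Nn Nn Nu Nv (vp Mf vt) (vp Mn vt) U
      (k * (X * Real.log 2)) e) :
    MI p (Mm F c tg w H fun u => γ (tg u) + qt u + X)
      (fun ω => (Vm F c mv w H (fun j => nb j * J) ω,
        ((adV F c mv tg qt (fun _ => X) q w W X mm γ gg H (zc F W zw)).T ω,
          (adV F c mv tg qt (fun _ => X) q w W X mm γ gg H (zc F W zw)).g K ω)))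
      (bsc F c mv tg qt w W γ H nb zw) ≤ Fwn C k K U e d κ' :=
  pv_few P h.V h.hx (zc_hy1 h.WJ p) (zc_hy2 h.WJ p) h.nb1 h.nb2 h.f0 h.m0 h.m0' h.mf h.mf' h.hd0

/-- The residues of the digits. -/
noncomputable def tau3 (F : Fam m J) (c : ℕ → Fin m) (mv : Fin k → ℕ) (tg qt : Fin C → ℕ)
    (w X : ℕ) (γ : ℕ → ℕ) (H : LnT F → ℕ → MvPolynomial (Option (Fin m)) ℝ) (nb : Fin k → ℝ)
    (ω : F.Ω) : (Fin k → ZMod 3) × (Fin C → ZMod 3) :=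
  ((fun j => ((jp F c 0 mv w H nb ω j : ℤ) : ZMod 3)),
    fun u => ((Mm F c tg w H (fun u => γ (tg u) + qt u + X) ω u : ℤ) : ZMod 3))

theorem card_t3 : (Fintype.card ((Fin k → ZMod 3) × (Fin C → ZMod 3)) : ℝ) = 3 ^ (k + C) := by
  rw [Fintype.card_prod, Fintype.card_fun, Fintype.card_fun, Fintype.card_fin,
    Fintype.card_fin, ZMod.card, ← pow_add]
  push_cast
  rfl

/-- The digits and the base are functions of the point and of the residues. -/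
theorem VpC.same (h : VpC F c mv tg qt q w W X mm D K γ B G₀ H gg zw Cj Cx Rj Rx R' XJ p Nf Nn Nu
      Nv nb Mf Mn vt U Fv Gf κ' e₁ d ψ ε₀ j₀) {ω ν : F.Ω} (hω : 0 < p ω) (hν : 0 < p ν)
    (e1 : ptr F J ω = ptr F J ν)
    (e2 : tau3 F c mv tg qt w X γ H nb ω = tau3 F c mv tg qt w X γ H nb ν) :
    Mm F c tg w H (fun u => γ (tg u) + qt u + X) ω =
      Mm F c tg w H (fun u => γ (tg u) + qt u + X) ν ∧
    bsc F c mv tg qt w W γ H nb zw ω = bsc F c mv tg qt w W γ H nb zw ν := by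
  have hw : w ≤ J := h.wW.trans h.WJ
  obtain ⟨g1, g2⟩ := h.cells ω ν hω hν e1
  have c1 := h.cls ω (h.sup ω hω)
  have c2 := h.cls ν (h.sup ν hν)
  obtain ⟨e3, e4⟩ := Prod.ext_iff.mp e2
  have eZ : Mm F c tg w H (fun u => γ (tg u) + qt u + X) ω =
      Mm F c tg w H (fun u => γ (tg u) + qt u + X) ν := by
    funext u
    have e5 := congrFun e4 u
    have h5 := g2 u
    rw [hgt_ojet hw (c1.1 u), hgt_ojet hw (c2.1 u)] at h5
    have p1 : (0 : ℝ) < 2 ^ (γ (tg u) + qt u + X) := by positivity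
    refine floor_z3 ?_ e5
    rw [← mul_sub, abs_mul, abs_of_pos p1]
    have h6 := mul_le_mul_of_nonneg_left h5 p1.le
    rwa [mul_one_div_cancel p1.ne'] at h6
  have eV : jp F c 0 mv w H nb ω = jp F c 0 mv w H nb ν := by
    funext j
    have e5 := congrFun e3 j
    have h5 := g1 j
    rw [hgt_ojet hw (c1.2 j), hgt_ojet hw (c2.2 j)] at h5
    have p1 : (0 : ℝ) < (2 : ℝ) ^ (nb j * J) := Real.rpow_pos_of_pos two_pos _
    have p2 : (0 : ℝ) < (2 : ℝ) ^ (γ (mv j) + q + (X + mm)) := by positivity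
    refine floor_z3 ?_ e5
    rw [← mul_sub, abs_mul, abs_of_pos p1]
    have h7 : (2 : ℝ) ^ (nb j * J) ≤ 2 ^ (γ (mv j) + q + (X + mm)) := by
      rw [← Real.rpow_natCast]
      exact Real.rpow_le_rpow_of_exponent_le one_le_two (h.nb2 j)
    refine (mul_le_mul h7 h5 (abs_nonneg _) p2.le).trans (le_of_eq ?_)
    exact mul_one_div_cancel p2.ne'
  refine ⟨eZ, ?_⟩
  have eM : Mu F c tg qt w γ H ω = Mu F c tg qt w γ H ν := by
    funext u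
    have e5 := congrFun eZ u
    have e6 : ∀ o : F.Ω, Mu F c tg qt w γ H o u =
        Mm F c tg w H (fun u => γ (tg u) + qt u + X) o u / 2 ^ X := by
      intro o
      show Mh F c (tg u) w H (γ (tg u) + qt u) o =
        Mh F c (tg u) w H (γ (tg u) + qt u + X) o / 2 ^ X
      rw [mh_up]
    rw [e6, e6, e5]
  have eW : F.W ω = F.W ν := (Prod.ext_iff.mp e1).2
  obtain ⟨e6, e7⟩ := zc_of (zw := zw) h.WJ eW (h.zP ω ν hω hν e1)
  exact Prod.ext (Prod.ext eV eM) (Prod.ext e6 e7)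

/-- **Lower bounds** for codes which are functions of the digits. -/
theorem VpC.low (h : VpC F c mv tg qt q w W X mm D K γ B G₀ H gg zw Cj Cx Rj Rx R' XJ p Nf Nn Nu
      Nv nb Mf Mn vt U Fv Gf κ' e₁ d ψ ε₀ j₀) {α S T : Type} [Inhabited α] (Xv : F.Ω → S)
    (Wv : F.Ω → T) {kL : LnT F → α}
    {kP : (Fin C → ℤ) × (((Fin k → ℤ) × (Fin C → ℤ)) × (ℝ × (ζ × (F.ζ × ℕ)))) → α}
    {E : F.Ω → Prop} (hk : ∀ ω, 0 < p ω → E ω → kL (slam F W ω) =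
      kP (Mm F c tg w H (fun u => γ (tg u) + qt u + X) ω, bsc F c mv tg qt w W γ H nb zw ω))
    {π₁ ϖ b₀ : ℝ} (hπ : 0 < π₁) (hϖ : 0 < ϖ) (hb : 0 ≤ b₀) (hE : ϖ ≤ Pe p E)
    (HH : ∀ (zz : PtT F → α) (E' : F.Ω → Prop),
      (∀ ω, 0 < p ω → E' ω → zz (ptr F J ω) = kL (slam F W ω)) → π₁ ≤ Pe p E' →
      b₀ ≤ CH (Pool.Agent.H49.Ent.cond p E' True) Xv Wv) :
    (1 - 3 ^ (k + C) * (π₁ / ϖ)) * b₀ ≤ CH (Pool.Agent.H49.Ent.cond p E True) Xv Wv := by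
  classical
  have hE0 : 0 < Pe p E := lt_of_lt_of_le hϖ hE
  have key := low_cls h.law hE0 (tau3 F c mv tg qt w X γ H nb) Xv Wv hπ hb (fun i hi => ?_)
  · refine le_trans ?_ key
    refine mul_le_mul_of_nonneg_right ?_ hb
    rw [card_t3]
    have h1 : π₁ / Pe p E ≤ π₁ / ϖ := div_le_div_of_nonneg_left hπ.le hϖ hE
    have h2 : (3 : ℝ) ^ (k + C) * (π₁ / Pe p E) ≤ 3 ^ (k + C) * (π₁ / ϖ) :=
      mul_le_mul_of_nonneg_left h1 (by positivity)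
    linarith
  · refine HH (fun y => if hy : ∃ ω, 0 < p ω ∧ (E ω ∧ tau3 F c mv tg qt w X γ H nb ω = i) ∧
      ptr F J ω = y then kP (Mm F c tg w H (fun u => γ (tg u) + qt u + X) hy.choose,
        bsc F c mv tg qt w W γ H nb zw hy.choose) else default)
      (fun ω => E ω ∧ tau3 F c mv tg qt w X γ H nb ω = i) (fun ω hω hEω => ?_) hi
    have hy : ∃ ω', 0 < p ω' ∧ (E ω' ∧ tau3 F c mv tg qt w X γ H nb ω' = i) ∧
        ptr F J ω' = ptr F J ω := ⟨ω, hω, hEω, rfl⟩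
    rw [dif_pos hy]
    obtain ⟨a1, a2, a3⟩ := hy.choose_spec
    obtain ⟨b1, b2⟩ := h.same a1 hω a3 (a2.2.trans hEω.2.symm)
    rw [b1, b2]
    exact (hk ω hω hEω.1).symm

/-- **Codes of the digits are codes of the point** on a large part of an event. -/
theorem VpC.out (h : VpC F c mv tg qt q w W X mm D K γ B G₀ H gg zw Cj Cx Rj Rx R' XJ p Nf Nn Nu
      Nv nb Mf Mn vt U Fv Gf κ' e₁ d ψ ε₀ j₀) {α : Type} [Inhabited α] {kL : LnT F → α}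
    {kP : (Fin C → ℤ) × (((Fin k → ℤ) × (Fin C → ℤ)) × (ℝ × (ζ × (F.ζ × ℕ)))) → α}
    {E : F.Ω → Prop} (hk : ∀ ω, 0 < p ω → E ω → kL (slam F W ω) =
      kP (Mm F c tg w H (fun u => γ (tg u) + qt u + X) ω, bsc F c mv tg qt w W γ H nb zw ω))
    {m₀ : ℝ} (hm : 0 < m₀) (hE : m₀ ≤ Pe p E) :
    ∃ (zz : PtT F → α) (E' : F.Ω → Prop), (∀ ω, E' ω → E ω) ∧ m₀ / 3 ^ (k + C) ≤ Pe p E' ∧
      ∀ ω, 0 < p ω → E' ω → kL (slam F W ω) = zz (ptr F J ω) := by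
  classical
  have h0 := h.law.nonneg
  have hE0 : 0 < Pe p E := lt_of_lt_of_le hm hE
  have hql : IsLaw (Pool.Agent.H49.Ent.cond p E True) := Pool.TQ.cond_law h0 hE0
  obtain ⟨i, hi⟩ : ∃ i, m₀ / 3 ^ (k + C) ≤
      Pe p (fun ω => E ω ∧ tau3 F c mv tg qt w X γ H nb ω = i) := by
    by_contra hcon
    push Not at hcon
    have h2 := sum_law_one hql.sum_one (tau3 F c mv tg qt w X γ H nb)
    have h3 : ∀ i ∈ univ.image (tau3 F c mv tg qt w X γ H nb),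
        Pool.Agent.H49.Ent.law (Pool.Agent.H49.Ent.cond p E True)
          (tau3 F c mv tg qt w X γ H nb) i <
          m₀ / 3 ^ (k + C) / Pe p E := by
      intro i _
      rw [law_evq, lt_div_iff₀ hE0, mul_comm, ← Pe_cc hE0]
      exact hcon i
    have hne : (univ.image (tau3 F c mv tg qt w X γ H nb)).Nonempty := by
      by_contra hn
      rw [Finset.not_nonempty_iff_eq_empty] at hn
      rw [hn, Finset.sum_empty] at h2
      norm_num at h2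
    have h4 := Finset.sum_lt_sum_of_nonempty hne h3
    rw [h2, Finset.sum_const, nsmul_eq_mul] at h4
    have h7 : ((univ.image (tau3 F c mv tg qt w X γ H nb)).card : ℝ) ≤ 3 ^ (k + C) := by
      rw [← card_t3]
      exact_mod_cast (Finset.card_le_univ _)
    have h8 : 0 ≤ m₀ / 3 ^ (k + C) / Pe p E := by positivity
    have h9 := mul_le_mul_of_nonneg_right h7 h8
    have h10 : (3 : ℝ) ^ (k + C) * (m₀ / 3 ^ (k + C) / Pe p E) = m₀ / Pe p E := by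
      field_simp
    have h11 : m₀ / Pe p E ≤ 1 := by
      rw [div_le_one hE0]
      exact hE
    linarith
  refine ⟨fun y => if hy : ∃ ω, 0 < p ω ∧ (E ω ∧ tau3 F c mv tg qt w X γ H nb ω = i) ∧
      ptr F J ω = y then kP (Mm F c tg w H (fun u => γ (tg u) + qt u + X) hy.choose,
        bsc F c mv tg qt w W γ H nb zw hy.choose) else default,
      fun ω => E ω ∧ tau3 F c mv tg qt w X γ H nb ω = i, fun ω hω => hω.1, hi,
      fun ω hω hEω => ?_⟩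
  have hy : ∃ ω', 0 < p ω' ∧ (E ω' ∧ tau3 F c mv tg qt w X γ H nb ω' = i) ∧
      ptr F J ω' = ptr F J ω := ⟨ω, hω, hEω, rfl⟩
  beta_reduce
  rw [dif_pos hy]
  obtain ⟨a1, a2, a3⟩ := hy.choose_spec
  obtain ⟨b1, b2⟩ := h.same a1 hω a3 (a2.2.trans hEω.2.symm)
  rw [b1, b2]
  exact hk ω hω hEω.1

/-- Digits from digits. -/
theorem CH_mn {p : F.Ω → ℝ} (hp : IsLaw p) {N N' : Fin C → ℕ} {r : ℕ}
    (hN : ∀ u, N' u ≤ N u + r) {𝓦 : Type} (Z : F.Ω → 𝓦) (hZ : Det p Z (Mm F c tg w H N)) :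
    CH p (Mm F c tg w H N') Z ≤ C * (r * Real.log 2 + Real.log 5) := by
  have hl2 : 0 < Real.log 2 := Real.log_pos one_lt_two
  refine CH_pi hp.nonneg Z C _ fun u => ?_
  have h2 := CH_dig hp (a := ((N u : ℕ) : ℝ)) (b := ((N' u : ℕ) : ℝ))
    (fun ω => ojet F (c (tg u)) 0 (H (slam F w ω) (tg u)) ω) Z (fun ω ν hω hν e => by
      have e1 := congrFun (hZ ω ν hω hν e) u
      rw [mm_eq, mm_eq] at e1
      exact e1)
  simp only [mm_eq]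
  refine h2.trans (add_le_add (mul_le_mul_of_nonneg_right (max_le ?_ (Nat.cast_nonneg r))
    hl2.le) le_rfl)
  have h3 : ((N' u : ℕ) : ℝ) ≤ N u + r := by exact_mod_cast hN u
  linarith

/-- The digits of a shorter block. -/
theorem mm_div {Y : ℕ} (hY : Y ≤ X) (ω : F.Ω) (u : Fin C) :
    Mm F c tg w H (fun u => γ (tg u) + qt u + X) ω u / 2 ^ (X - Y) =
      Mm F c tg w H (fun u => γ (tg u) + qt u + Y) ω u := by
  have e1 : γ (tg u) + qt u + X = γ (tg u) + qt u + Y + (X - Y) := by omega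
  show Mh F c (tg u) w H (γ (tg u) + qt u + X) ω / 2 ^ (X - Y) =
    Mh F c (tg u) w H (γ (tg u) + qt u + Y) ω
  rw [e1, mh_up]

/-- The digits of a shorter block, from longer ones. -/
theorem mm_le {Y Y' : ℕ} (hY : Y ≤ Y') {ω ν : F.Ω} (u : Fin C)
    (e : Mm F c tg w H (fun u => γ (tg u) + qt u + Y') ω u =
      Mm F c tg w H (fun u => γ (tg u) + qt u + Y') ν u) :
    Mm F c tg w H (fun u => γ (tg u) + qt u + Y) ω u =
      Mm F c tg w H (fun u => γ (tg u) + qt u + Y) ν u := by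
  rw [← mm_div hY, ← mm_div hY, e]

/-- The base determines the condition of the rows. -/
theorem VpC.bdet (h : VpC F c mv tg qt q w W X mm D K γ B G₀ H gg zw Cj Cx Rj Rx R' XJ p Nf Nn Nu
      Nv nb Mf Mn vt U Fv Gf κ' e₁ d ψ ε₀ j₀) (p' : F.Ω → ℝ) :
    Det p' (bsc F c mv tg qt w W γ H nb zw)
      (fun ω => (Mm F c tg w H (fun u => γ (tg u) + qt u) ω,
            (jp F c 0 mv w H nb ω, (F.W ω, zw ω)))) := by
  intro ω ν _ _ e
  obtain ⟨e1, e2⟩ := Prod.ext_iff.mp e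
  obtain ⟨e3, e4⟩ := Prod.ext_iff.mp e1
  obtain ⟨e5, e6⟩ := Prod.ext_iff.mp e2
  obtain ⟨e7, e8⟩ := of_zc (zw := zw) h.WJ e5 e6
  exact Prod.ext e4 (Prod.ext e3 (Prod.ext e8 e7))

/-- **Rows** for all blocks, from the rows on the grid `j n`, `n = ⌊κ X⌋`. -/
theorem VpC.row (h : VpC F c mv tg qt q w W X mm D K γ B G₀ H gg zw Cj Cx Rj Rx R' XJ p Nf Nn Nu
      Nv nb Mf Mn vt U Fv Gf κ' e₁ d ψ ε₀ j₀) {R₁ κ τ π₀ : ℝ} (hR : 0 ≤ R₁) (hκ : 0 < κ)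
    (hX : 2 ≤ κ * X) (hπ : 0 < π₀)
    (row : ∀ j : ℕ, j * ⌊κ * X⌋₊ ≤ X → ∀ E : Set F.Ω, π₀ ≤ Pr p E →
        CH (rs p E) (Mm F c tg w H (fun u => γ (tg u) + qt u + j * ⌊κ * X⌋₊))
          (fun ω => (Mm F c tg w H (fun u => γ (tg u) + qt u) ω,
            (jp F c 0 mv w H nb ω, (F.W ω, zw ω)))) ≤
          R₁ * (j * (κ * X)) * Real.log 2 + τ * X)
    {Y : ℕ} (hY : Y ≤ X) (E : Set F.Ω) (hE : π₀ ≤ Pr p E) :
    CH (rs p E) (Mm F c tg w H fun u => γ (tg u) + qt u + Y)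
        (bsc F c mv tg qt w W γ H nb zw) ≤
      R₁ * Y * Real.log 2 + (R₁ * (2 / κ) + τ * X + C * (κ * X + 2)) := by
  have hl2 : 0 < Real.log 2 := Real.log_pos one_lt_two
  have hl2' : Real.log 2 ≤ 1 := by
    have := Real.log_two_lt_d9
    linarith
  have hl5' : Real.log 5 ≤ 2 := by
    rw [Real.log_le_iff_le_exp (by norm_num)]
    have h1 := Real.exp_one_gt_d9
    have h2 : Real.exp 2 = Real.exp 1 * Real.exp 1 := by rw [← Real.exp_add]; norm_num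
    rw [h2]
    nlinarith
  obtain ⟨n, hn⟩ : ∃ n : ℕ, n = ⌊κ * X⌋₊ := ⟨_, rfl⟩
  rw [← hn] at row
  have hκX : 0 ≤ κ * X := by linarith
  have n1 : (n : ℝ) ≤ κ * X := by rw [hn]; exact Nat.floor_le hκX
  have n2 : κ * X < n + 1 := by rw [hn]; exact Nat.lt_floor_add_one _
  have n3 : κ * X / 2 ≤ n := by linarith
  have n4 : 0 < n := by
    have : (0 : ℝ) < n := by linarith
    exact_mod_cast this
  obtain ⟨j, hj⟩ : ∃ j : ℕ, j = Y / n := ⟨_, rfl⟩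
  have j1 : j * n ≤ Y := by rw [hj]; exact Nat.div_mul_le_self Y n
  have j2 : Y ≤ j * n + n := by
    have := Nat.div_add_mod Y n
    have h2 := Nat.mod_lt Y n4
    rw [← hj] at this
    rw [mul_comm] at this
    omega
  have hE0 : 0 < Pr p E := hπ.trans_le hE
  have hql : IsLaw (rs p E) :=
    ⟨cond_nonneg h.law.nonneg (fun ω => ω ∈ E) True, sum_cond p (fun ω => ω ∈ E) hE0.ne'⟩
  have q0 := hql.nonneg
  have h1 := row j (j1.trans hY) E hE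
  have h2 := CH_mono_cond q0 (X := Mm F c tg w H (fun u => γ (tg u) + qt u + j * n))
    (h.bdet (rs p E))
  have h3 := CH_mn (F := F) (c := c) (tg := tg) (w := w) (H := H) hql
    (N := fun u => γ (tg u) + qt u + j * n)
    (N' := fun u => γ (tg u) + qt u + Y) (r := n) (fun u => by
      show γ (tg u) + qt u + Y ≤ γ (tg u) + qt u + j * n + n
      omega)
    (fun ω => (Mm F c tg w H (fun u => γ (tg u) + qt u + j * n) ω,
      bsc F c mv tg qt w W γ H nb zw ω)) (fun ω ν _ _ e => (Prod.ext_iff.mp e).1)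
  have h4 := CH_le_add q0 (Mm F c tg w H (fun u => γ (tg u) + qt u + Y))
    (Mm F c tg w H (fun u => γ (tg u) + qt u + j * n)) (bsc F c mv tg qt w W γ H nb zw)
  have hC : (0 : ℝ) ≤ C := Nat.cast_nonneg C
  have h5 : C * ((n : ℝ) * Real.log 2 + Real.log 5) ≤ C * (κ * X + 2) := by
    refine mul_le_mul_of_nonneg_left ?_ hC
    have : (n : ℝ) * Real.log 2 ≤ n := mul_le_of_le_one_right (Nat.cast_nonneg n) hl2'
    linarith
  have h6 : (j : ℝ) * (κ * X) ≤ Y + 2 / κ := by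
    have hj0 : (0 : ℝ) ≤ j := Nat.cast_nonneg j
    have h7 : (j : ℝ) * (κ * X) ≤ j * (n + 1) := mul_le_mul_of_nonneg_left n2.le hj0
    have h8 : (j : ℝ) * n ≤ Y := by exact_mod_cast j1
    have h9 : (j : ℝ) ≤ 2 / κ := by
      rw [le_div_iff₀ hκ]
      have hXp : (0 : ℝ) < X := by
        by_contra hc
        have : (X : ℝ) = 0 := le_antisymm (not_lt.mp hc) (Nat.cast_nonneg X)
        rw [this] at hX
        linarith
      have h10 : (j : ℝ) * (κ * X / 2) ≤ X := by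
        have h11 : (j : ℝ) * (κ * X / 2) ≤ j * n := mul_le_mul_of_nonneg_left n3 hj0
        have h12 : (Y : ℝ) ≤ X := by exact_mod_cast hY
        linarith
      have h13 : (j : ℝ) * κ * X ≤ 2 * X := by linarith
      exact le_of_mul_le_mul_right h13 hXp
    linarith
  have h7 : R₁ * ((j : ℝ) * (κ * X)) * Real.log 2 ≤ R₁ * (Y + 2 / κ) * Real.log 2 :=
    mul_le_mul_of_nonneg_right (mul_le_mul_of_nonneg_left h6 hR) hl2.le
  have h8 : R₁ * (2 / κ) * Real.log 2 ≤ R₁ * (2 / κ) :=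
    mul_le_of_le_one_right (by positivity) hl2'
  have h9 : R₁ * (Y + 2 / κ) * Real.log 2 = R₁ * Y * Real.log 2 + R₁ * (2 / κ) * Real.log 2 := by
    ring
  linarith

/-- **Fullness** for all blocks and for codes of the digits, from fullness on the grid. -/
theorem VpC.ful (h : VpC F c mv tg qt q w W X mm D K γ B G₀ H gg zw Cj Cx Rj Rx R' XJ p Nf Nn Nu
      Nv nb Mf Mn vt U Fv Gf κ' e₁ d ψ ε₀ j₀) {κ τ π₁ : ℝ} (a : Fin C)
    (hX : 2 ≤ κ * X) (hτ : 0 ≤ τ) (hπ : 0 < π₁)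
    (FU : ∀ i j : ℕ, i ≤ j → j * ⌊κ * X⌋₊ ≤ X → ∀ (V : Type) (z : PtT F → V) (z' : LnT F → V)
        (E : F.Ω → Prop), (∀ ω, 0 < p ω → E ω → z (ptr F J ω) = z' (slam F W ω)) →
        π₁ ≤ Pe p E →
        (j - i) * (κ * X) * Real.log 2 - τ * X ≤ CH (Pool.Agent.H49.Ent.cond p E True)
          (fun ω => Mm F c tg w H (fun u => γ (tg u) + qt u + j * ⌊κ * X⌋₊) ω a)
          (fun ω => (z' (slam F W ω),
            (Mm F c tg w H (fun u => γ (tg u) + qt u + i * ⌊κ * X⌋₊) ω,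
              (jp F c 0 mv w H nb ω, (F.W ω, zw ω))))))
    {α : Type} [Inhabited α] {kL : LnT F → α}
    {kP : (Fin C → ℤ) × (((Fin k → ℤ) × (Fin C → ℤ)) × (ℝ × (ζ × (F.ζ × ℕ)))) → α}
    {E : F.Ω → Prop} (hk : ∀ ω, 0 < p ω → E ω → kL (slam F W ω) =
      kP (Mm F c tg w H (fun u => γ (tg u) + qt u + X) ω, bsc F c mv tg qt w W γ H nb zw ω))
    {ϖ : ℝ} (hϖ : 0 < ϖ) (hE : ϖ ≤ Pe p E) {Y₁ Y₂ : ℕ} (hY : Y₁ ≤ Y₂) (hY2 : Y₂ ≤ X) :
    ((Y₂ : ℝ) - Y₁) * Real.log 2 - (2 * (κ * X) + τ * X + 3 ^ (k + C) * (π₁ / ϖ) * X) ≤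
      CH (Pool.Agent.H49.Ent.cond p E True)
        (fun ω => Mm F c tg w H (fun u => γ (tg u) + qt u + X) ω a / 2 ^ (X - Y₂))
        (fun ω => (kL (slam F W ω), (bsc F c mv tg qt w W γ H nb zw ω,
          fun u => Mm F c tg w H (fun u => γ (tg u) + qt u + X) ω u / 2 ^ (X - Y₁)))) := by
  have hl2 : 0 < Real.log 2 := Real.log_pos one_lt_two
  have hl2' : Real.log 2 ≤ 1 := by
    have := Real.log_two_lt_d9
    linarith
  have h0 := h.law.nonneg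
  have hE0 : 0 < Pe p E := lt_of_lt_of_le hϖ hE
  have hql : IsLaw (Pool.Agent.H49.Ent.cond p E True) := Pool.TQ.cond_law h0 hE0
  have q0 := hql.nonneg
  obtain ⟨n, hn⟩ : ∃ n : ℕ, n = ⌊κ * X⌋₊ := ⟨_, rfl⟩
  rw [← hn] at FU
  have hκX : 0 ≤ κ * X := by linarith
  have n1 : (n : ℝ) ≤ κ * X := by rw [hn]; exact Nat.floor_le hκX
  have n2 : κ * X < n + 1 := by rw [hn]; exact Nat.lt_floor_add_one _
  have n4 : 0 < n := by
    have : (0 : ℝ) < n := by linarith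
    exact_mod_cast this
  have hX0 : (0 : ℝ) ≤ X := Nat.cast_nonneg X
  have hsum : 0 ≤ 3 ^ (k + C) * (π₁ / ϖ) * X := by positivity
  have hτX : 0 ≤ τ * X := by positivity
  have hnn := CH_nonneg q0
    (fun ω => Mm F c tg w H (fun u => γ (tg u) + qt u + X) ω a / 2 ^ (X - Y₂))
    (fun ω => (kL (slam F W ω), (bsc F c mv tg qt w W γ H nb zw ω,
          fun u => Mm F c tg w H (fun u => γ (tg u) + qt u + X) ω u / 2 ^ (X - Y₁))))
  obtain ⟨j, hj⟩ : ∃ j : ℕ, j = Y₂ / n := ⟨_, rfl⟩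
  obtain ⟨i, hi⟩ : ∃ i : ℕ, i = (Y₁ + n - 1) / n := ⟨_, rfl⟩
  have j1 : j * n ≤ Y₂ := by rw [hj]; exact Nat.div_mul_le_self Y₂ n
  have j2 : Y₂ ≤ j * n + n := by
    have := Nat.div_add_mod Y₂ n
    have h2 := Nat.mod_lt Y₂ n4
    rw [← hj, mul_comm] at this
    omega
  have i1 : i * n ≤ Y₁ + n := by
    have := Nat.div_mul_le_self (Y₁ + n - 1) n
    rw [← hi] at this
    omega
  have i2 : Y₁ ≤ i * n := by
    have := Nat.div_add_mod (Y₁ + n - 1) n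
    have h2 := Nat.mod_lt (Y₁ + n - 1) n4
    rw [← hi, mul_comm] at this
    omega
  have hYY : (Y₁ : ℝ) ≤ Y₂ := by exact_mod_cast hY
  have hYX : (Y₂ : ℝ) ≤ X := by exact_mod_cast hY2
  have hY10 : (0 : ℝ) ≤ Y₁ := Nat.cast_nonneg Y₁
  by_cases hb : ((Y₂ : ℝ) - Y₁) * Real.log 2 - (2 * (κ * X) + τ * X) ≤ 0
  · linarith
  push Not at hb
  have hYl : ((Y₂ : ℝ) - Y₁) * Real.log 2 ≤ Y₂ - Y₁ :=
    mul_le_of_le_one_right (by linarith) hl2'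
  have j3 : (Y₂ : ℝ) ≤ j * n + n := by exact_mod_cast j2
  have i3 : (i : ℝ) * n ≤ Y₁ + n := by exact_mod_cast i1
  have hij : i ≤ j := by
    by_contra hc
    push Not at hc
    have h1 : j * n + n ≤ i * n := by
      have := Nat.mul_le_mul_right n hc
      rw [Nat.succ_mul] at this
      exact this
    have h2 : (j : ℝ) * n + n ≤ i * n := by exact_mod_cast h1
    linarith
  have hij' : (i : ℝ) ≤ j := by exact_mod_cast hij
  have hdiff : (Y₂ : ℝ) - Y₁ - 2 * (κ * X) ≤ (j - i) * (κ * X) := by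
    have h1 : ((j : ℝ) - i) * n ≤ (j - i) * (κ * X) :=
      mul_le_mul_of_nonneg_left n1 (by linarith)
    have h2 : ((j : ℝ) - i) * n = j * n - i * n := by ring
    linarith
  have hb2 : ((Y₂ : ℝ) - Y₁) * Real.log 2 - (2 * (κ * X) + τ * X) ≤
      (j - i) * (κ * X) * Real.log 2 - τ * X := by
    have h1 := mul_le_mul_of_nonneg_right hdiff hl2.le
    have h2 : 2 * (κ * X) * Real.log 2 ≤ 2 * (κ * X) := mul_le_of_le_one_right (by linarith) hl2'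
    have h3 : ((Y₂ : ℝ) - Y₁ - 2 * (κ * X)) * Real.log 2 =
        (Y₂ - Y₁) * Real.log 2 - 2 * (κ * X) * Real.log 2 := by ring
    linarith
  have key := h.low
    (fun ω => Mm F c tg w H (fun u => γ (tg u) + qt u + j * n) ω a)
    (fun ω => (kL (slam F W ω),
            (Mm F c tg w H (fun u => γ (tg u) + qt u + i * n) ω,
              (jp F c 0 mv w H nb ω, (F.W ω, zw ω))))) hk hπ hϖ hb.le hE
    (fun zz E' hz hE' => hb2.trans (FU i j hij (j1.trans hY2) α zz kL E' hz hE'))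
  -- the conditions
  have c1 : CH (Pool.Agent.H49.Ent.cond p E True)
      (fun ω => Mm F c tg w H (fun u => γ (tg u) + qt u + j * n) ω a)
      (fun ω => (kL (slam F W ω),
            (Mm F c tg w H (fun u => γ (tg u) + qt u + i * n) ω,
              (jp F c 0 mv w H nb ω, (F.W ω, zw ω))))) ≤
      CH (Pool.Agent.H49.Ent.cond p E True)
        (fun ω => Mm F c tg w H (fun u => γ (tg u) + qt u + X) ω a / 2 ^ (X - Y₂))
        (fun ω => (kL (slam F W ω), (bsc F c mv tg qt w W γ H nb zw ω,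
          fun u => Mm F c tg w H (fun u => γ (tg u) + qt u + X) ω u / 2 ^ (X - Y₁)))) := by
    refine (CH_mono_cond q0 (W := fun ω => (kL (slam F W ω), (bsc F c mv tg qt w W γ H nb zw ω,
      fun u => Mm F c tg w H (fun u => γ (tg u) + qt u + X) ω u / 2 ^ (X - Y₁)))) ?_).trans
      (CH_mono_left q0 ?_)
    · intro ω ν _ _ e
      obtain ⟨e1, e2⟩ := Prod.ext_iff.mp e
      obtain ⟨e3, e4⟩ := Prod.ext_iff.mp e2
      obtain ⟨e5, e6⟩ := Prod.ext_iff.mp e4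
      obtain ⟨e7, e8⟩ := Prod.ext_iff.mp e6
      have e9 : ∀ Y : ℕ, Y ≤ i * n → ∀ u : Fin C,
          Mm F c tg w H (fun u => γ (tg u) + qt u + Y) ω u =
            Mm F c tg w H (fun u => γ (tg u) + qt u + Y) ν u := fun Y hYi u =>
        mm_le hYi u (congrFun e3 u)
      obtain ⟨f1, f2⟩ := zc_of (zw := zw) h.WJ e7 e8
      refine Prod.ext e1 (Prod.ext (Prod.ext (Prod.ext e5 (funext fun u => ?_))
        (Prod.ext f1 f2)) (funext fun u => ?_))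
      · exact e9 0 (Nat.zero_le _) u
      · show Mm F c tg w H (fun u => γ (tg u) + qt u + X) ω u / 2 ^ (X - Y₁) =
          Mm F c tg w H (fun u => γ (tg u) + qt u + X) ν u / 2 ^ (X - Y₁)
        rw [mm_div (hY.trans hY2), mm_div (hY.trans hY2)]
        exact e9 Y₁ i2 u
    · intro ω ν _ _ e
      have e1 := (Prod.ext_iff.mp e).1
      simp only at e1
      rw [mm_div hY2, mm_div hY2] at e1
      exact mm_le j1 a e1
  have h7 : 3 ^ (k + C) * (π₁ / ϖ) * (((Y₂ : ℝ) - Y₁) * Real.log 2 - (2 * (κ * X) + τ * X)) ≤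
      3 ^ (k + C) * (π₁ / ϖ) * X := by
    refine mul_le_mul_of_nonneg_left ?_ (by positivity)
    linarith
  have h8 : (1 - 3 ^ (k + C) * (π₁ / ϖ)) *
      (((Y₂ : ℝ) - Y₁) * Real.log 2 - (2 * (κ * X) + τ * X)) =
      ((Y₂ : ℝ) - Y₁) * Real.log 2 - (2 * (κ * X) + τ * X) - 3 ^ (k + C) * (π₁ / ϖ) *
        (((Y₂ : ℝ) - Y₁) * Real.log 2 - (2 * (κ * X) + τ * X)) := by ring
  rw [h8] at key
  linarith

/-- **The inputs `PrV`** in the context `zc`. -/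
theorem vpc_prv (k C K : ℕ) : ∃ Ca : ℝ, 0 ≤ Ca ∧
    ∀ {m J : ℕ} {F : Fam m J} {c : ℕ → Fin m} {mv : Fin k → ℕ}
      {tg qt : Fin C → ℕ} {q w W X mm D : ℕ} {γ : ℕ → ℕ} {B : F.Ω → Prop}
      {G₀ : PtT F → ℕ → MvPolynomial (Option (Fin m)) ℝ}
      {H : LnT F → ℕ → MvPolynomial (Option (Fin m)) ℝ} {gg : F.Ω → Fin C → Fin k → ℝ}
      {ζ χ₁ χ₂ ρ₁ ρ₂ ρ₃ ξ₆ : Type} {zw : F.Ω → ζ} {Cj : F.Ω → χ₁} {Cx : F.Ω → χ₂}
      {Rj : F.Ω → ρ₁} {Rx : F.Ω → ρ₂} {R' : F.Ω → ρ₃} {XJ : F.Ω → ξ₆} {p : F.Ω → ℝ}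
      {Nf Nn Nu Nv : Fin k → ℕ → ℝ} {nb : Fin k → ℝ} {Mf Mn vt : Fin C → ℝ}
      {U Fv Gf κ' e₁ d ψ ε₀ : ℝ} {j₀ : ℕ},
      VpC F c mv tg qt q w W X mm D K γ B G₀ H gg zw Cj Cx Rj Rx R' XJ p Nf Nn Nu Nv nb Mf Mn vt
        U Fv Gf κ' e₁ d ψ ε₀ j₀ → K ≤ X →
      PrV F c mv tg qt (fun _ => X) q w W X mm D K γ B G₀ H gg (zc F W zw) zw F.W Cj Cx Rj Rx
        (Vm F c mv w H fun j => nb j * J) p Nf Nn Nn Nu Nv (vp Mf vt) (vp Mn vt) U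
        (k * (X * Real.log 2)) (epv k C κ' d e₁ Ca (ψ * J)) := by
  obtain ⟨Ca, hCa, hprv⟩ := prvGen k C K
  refine ⟨Ca, hCa, ?_⟩
  intro m J F c mv tg qt q w W X mm D γ B G₀ H gg ζ χ₁ χ₂ ρ₁ ρ₂ ρ₃ ξ₆ zw Cj Cx Rj Rx R' XJ p Nf Nn
    Nu Nv nb Mf Mn vt U Fv Gf κ' e₁ d ψ ε₀ j₀ h hXK
  refine hprv (F := F) (c := c) (mv := mv) (tg := tg) (qt := qt) (Xt := fun _ => X) h.law h.sup
    h.wW h.WJ h.deg h.DK hXK (fun _ => le_rfl) h.cls h.grdz h.mU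
    (fun ω ν _ _ e => (Prod.ext_iff.mp e).2)
    (fun ω ν hω hν e => Prod.ext (h.zL ω ν hω hν e) (Prod.ext_iff.mp e).2)
    (zc_hy1 h.WJ p) (zc_hy2 h.WJ p) h.V h.hj h.hx h.n0 h.n1 h.u0 h.u1 h.m0 h.mf h.vt0 h.vs h.hc2
    h.f0 h.f1 h.v0 h.v1 h.hv1 h.hd0 h.hv0 h.dj h.jt h.hD h.hf h.T h.he1 le_rfl

/-- The lines determine the context. -/
theorem VpC.hz (h : VpC F c mv tg qt q w W X mm D K γ B G₀ H gg zw Cj Cx Rj Rx R' XJ p Nf Nn Nu
      Nv nb Mf Mn vt U Fv Gf κ' e₁ d ψ ε₀ j₀) : Det p (slam F W) (zc F W zw) :=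
  fun ω ν hω hν e => Prod.ext (h.zL ω ν hω hν e) (Prod.ext_iff.mp e).2

/-- The base is a function of the base with time and gradients. -/
theorem VpC.hBs (p : F.Ω → ℝ) : Det p
    (fun ω => ((Vm F c mv w H (fun j => nb j * J) ω, Mu F c tg qt w γ H ω),
      ((adV F c mv tg qt (fun _ => X) q w W X mm γ gg H (zc F W zw)).T ω,
        (adV F c mv tg qt (fun _ => X) q w W X mm γ gg H (zc F W zw)).g K ω)))
    (bsc F c mv tg qt w W γ H nb zw) := fun ω ν _ _ e => by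
  obtain ⟨e1, e2⟩ := Prod.ext_iff.mp e
  obtain ⟨e3, e4⟩ := Prod.ext_iff.mp e2
  have e5 : rt F W ω = rt F W ν := (Prod.ext_iff.mp e3).1
  have e6 : zc F W zw ω = zc F W zw ν := (Prod.ext_iff.mp e4).1
  exact Prod.ext e1 (Prod.ext e5 e6)

/-- **The numbers.** -/
theorem vpc_nums (k C K : ℕ) {ι : ℝ} (hι : 0 < ι) : ∃ (τ : ℝ) (X₁ : ℕ), 0 < τ ∧
    ∀ (X mm : ℕ) (κ d e₁ Ca ψJ U : ℝ), X₁ ≤ X → 0 ≤ κ → 0 ≤ d → 0 ≤ e₁ → 0 ≤ Ca → 0 ≤ ψJ →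
      κ + d + e₁ + Ca + ψJ ≤ τ * X → (mm : ℝ) ≤ τ * X → 0 ≤ U → U + 1 ≤ 2 ^ mm →
      Evn C k K U (epv k C κ d e₁ Ca ψJ) ≤ ι * X ∧
      Fwn C k K U (epv k C κ d e₁ Ca ψJ) d κ ≤ ι * X := by
  obtain ⟨B, hB0, hB⟩ := cE0_le k K
  have hl2 : 0 < Real.log 2 := Real.log_pos one_lt_two
  have hl2' : Real.log 2 ≤ 1 := by
    have := Real.log_two_lt_d9
    linarith
  have hl5 : 0 < Real.log 5 := Real.log_pos (by norm_num)
  have hl5' : Real.log 5 ≤ 2 := by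
    rw [Real.log_le_iff_le_exp (by norm_num)]
    have h1 := Real.exp_one_gt_d9
    have h2 : Real.exp 2 = Real.exp 1 * Real.exp 1 := by rw [← Real.exp_add]; norm_num
    rw [h2]
    nlinarith
  have hcV := cV_nonneg K
  have hk0 : (0 : ℝ) ≤ k := Nat.cast_nonneg k
  have hC0 : (0 : ℝ) ≤ C := Nat.cast_nonneg C
  obtain ⟨l₀, hl₀⟩ : ∃ l₀ : ℝ, l₀ = Real.log (2 * (k + 1) + 3) := ⟨_, rfl⟩
  have hl₀0 : 0 ≤ l₀ := by
    rw [hl₀]
    exact Real.log_nonneg (by linarith)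
  obtain ⟨A₁, hA₁⟩ : ∃ A₁ : ℝ, A₁ = 4 * (2 * k + 68) + (k + 1) := ⟨_, rfl⟩
  obtain ⟨A₀, hA₀⟩ : ∃ A₀ : ℝ, A₀ = 4 * (2 * k + C) + B := ⟨_, rfl⟩
  obtain ⟨T₁, hT₁⟩ : ∃ T₁ : ℝ, T₁ = 35 + 4 * C + 2 * ((C + 1) * A₁) := ⟨_, rfl⟩
  obtain ⟨T₀, hT₀⟩ : ∃ T₀ : ℝ, T₀ = 6 * k + 12 * C + C * l₀ + C * cV K +
    2 * ((C + 1) * A₀ + k * cV K) := ⟨_, rfl⟩
  have hA₁0 : 0 ≤ A₁ := by rw [hA₁]; linarith
  have hA₀0 : 0 ≤ A₀ := by rw [hA₀]; linarith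
  have hCA1 : 0 ≤ (C + 1) * A₁ := by positivity
  have hCA0 : 0 ≤ (C + 1) * A₀ := by positivity
  have hT₁0 : 1 ≤ T₁ := by rw [hT₁]; linarith
  have hkV : 0 ≤ k * cV K := by positivity
  have hCl : 0 ≤ C * l₀ := by positivity
  have hCV : 0 ≤ C * cV K := by positivity
  have hT₀0 : 0 ≤ T₀ := by rw [hT₀]; linarith
  obtain ⟨X₁, hX₁⟩ := exists_nat_ge (2 * T₀ / ι)
  refine ⟨ι / (2 * T₁), X₁, by positivity, ?_⟩
  intro X mm κ d e₁ Ca ψJ U hX hκ hd he1 hCa hψ hs hmm hU hU2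
  have hX0 : (0 : ℝ) ≤ X := Nat.cast_nonneg X
  have hXR : (X₁ : ℝ) ≤ X := by exact_mod_cast hX
  obtain ⟨x, hx⟩ : ∃ x : ℝ, x = ι / (2 * T₁) * X := ⟨_, rfl⟩
  rw [← hx] at hs hmm
  have hTx : T₁ * x = ι * X / 2 := by
    rw [hx]
    field_simp
  have hTX : T₀ ≤ ι * X / 2 := by
    have := hX₁.trans hXR
    rw [div_le_iff₀ hι] at this
    linarith
  have hx0 : 0 ≤ x := by rw [hx]; positivity
  obtain ⟨c1, _⟩ := hB U mm hU (by linarith)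
  have hmm0 : (0 : ℝ) ≤ mm := Nat.cast_nonneg mm
  have c3 : Real.log (2 * ((k + 1) * U + 1) + 1) ≤ mm + l₀ := by
    have := log_two_pow (a := 2 * (k + 1)) (b := 3) (by positivity) (by norm_num) hU
      (n := mm) (by linarith)
    rw [hl₀]
    rwa [show 2 * ((k + 1) * U + 1) + 1 = 2 * (k + 1) * U + 3 by ring]
  obtain ⟨e, he⟩ : ∃ e : ℝ, e = epv k C κ d e₁ Ca ψJ := ⟨_, rfl⟩
  rw [← he]
  have hd2 : d * Real.log 2 ≤ d := mul_le_of_le_one_right hd hl2'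
  have hkd : (k : ℝ) * (d * Real.log 2 + Real.log 5) ≤ k * (x + 2) :=
    mul_le_mul_of_nonneg_left (by linarith) hk0
  have hke : ((k : ℝ) + 1) * e₁ ≤ (k + 1) * x := mul_le_mul_of_nonneg_left (by linarith)
    (by linarith)
  have hCl2 : (C : ℝ) * Real.log 2 ≤ C := mul_le_of_le_one_right hC0 hl2'
  have he2 : e ≤ (2 * k + 68) * x + (2 * k + C) := by
    rw [he]
    unfold epv
    have h1 : (k : ℝ) * (x + 2) = k * x + 2 * k := by ring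
    have h2 : ((k : ℝ) + 1) * x = k * x + x := by ring
    have h3 : (2 * (k : ℝ) + 68) * x = 2 * (k * x) + 68 * x := by ring
    rw [h3]
    linarith
  have hkm : ((k : ℝ) + 1) * mm ≤ (k + 1) * x := mul_le_mul_of_nonneg_left hmm (by linarith)
  have hE : Evn C k K U e ≤ (C + 1) * A₁ * x + ((C + 1) * A₀ + k * cV K) := by
    unfold Evn
    have h1 : 4 * e + cE0 k K U ≤ A₁ * x + A₀ := by
      rw [hA₁, hA₀]
      have h2 : (4 * (2 * (k : ℝ) + 68) + (k + 1)) * x = 4 * ((2 * k + 68) * x) + (k + 1) * x := by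
        ring
      rw [h2]
      linarith
    have h2 := mul_le_mul_of_nonneg_left h1 (by linarith : (0 : ℝ) ≤ C + 1)
    have h3 : ((C : ℝ) + 1) * (A₁ * x + A₀) = (C + 1) * A₁ * x + (C + 1) * A₀ := by ring
    linarith
  have hCx : 0 ≤ (C : ℝ) * x := by positivity
  have hEx : 0 ≤ (C + 1) * A₁ * x := by positivity
  have h6 : T₁ * x = 35 * x + 4 * (C * x) + 2 * ((C + 1) * A₁ * x) := by
    rw [hT₁]
    ring
  constructor
  · linarith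
  · unfold Fwn
    have h3 : 3 * (k * Real.log 5) ≤ 6 * k := by
      have := mul_le_mul_of_nonneg_left hl5' hk0
      linarith
    have h4 : 3 * (C * (d * Real.log 2 + Real.log 5)) ≤ 3 * (C * x) + 6 * C := by
      have := mul_le_mul_of_nonneg_left (show d * Real.log 2 + Real.log 5 ≤ x + 2 by linarith)
        hC0
      linarith
    have h5 : 35 * κ ≤ 35 * x := by linarith
    have h7 : C * Real.log (2 * ((k + 1) * U + 1) + 1) ≤ C * x + C * l₀ := by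
      have := mul_le_mul_of_nonneg_left (c3.trans (show (mm : ℝ) + l₀ ≤ x + l₀ by linarith)) hC0
      linarith
    have h8 : 3 * (C * Real.log 5) ≤ 6 * C := by
      have := mul_le_mul_of_nonneg_left hl5' hC0
      linarith
    linarith

end vpc

end Pool.V0P
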