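import Pool.Agent.H25.V0P.Prv
import Pool.Agent.H64.VS.Prp
import Pool.Agent.H57.AVG.C1a

/-!
# The digits of the targets in the block

`VLaw2.up`: the far digits of the targets given the near digits and the near digits `Vw` of the moved
places. `pv_few`: the digits of the targets in the block are as free given the context, the gradient
and the codes as given the context only.
-/

set_option autoImplicit false

namespace Pool.V0P

open Finset Real MvPolynomial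
open Pool.Agent.H49.Ent Pool.Agent.H32.Dense
open Pool.STK hiding pr2
open Pool.KA Pool.KSAT Pool.K2S Pool.PB Pool.S6C
open Pool.GEN Pool.CHT Pool.CHX Pool.ISO Pool.LA91 Pool.AVG71 Pool.AVG5 Pool.D2F2 Pool.AVG57
open Pool.PB.Trl (rt rt_mem t_rt)
open Pool.LV64 (GrdV PrV Vm Mm Mu adV adV_ti CH_pi Evn VD)
open Pool.KVA (MI)
open Pool.D2R (hgt)
open Pool.KAF (rs Pr)
open Pool.BFL (Pb)
open Pool.V0F (VLaw2 VLaw mi_side CH_sgn CH_dig CH_ge CH_tr)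

section ent

variable {Ω : Type} [Fintype Ω] {p : Ω → ℝ}

variable {ζ ρ₁ ρ₂ ρ₃ υ ξ₁ ξ₂ ξ₃ ξ₄ ξ₅ ξ₆ ξ₇ δ : Type} {zw : Ω → ζ} {Rj : Ω → ρ₁} {Rx : Ω → ρ₂}
  {R' : Ω → ρ₃} {y : Ω → υ} {Xq : Ω → ξ₁} {Xp : Ω → ξ₂} {Uq : Ω → ξ₃} {Up : Ω → ξ₇} {N1 : Ω → ξ₄}
  {N2 : Ω → ξ₅} {XJ : Ω → ξ₆} {Vw : Ω → δ} {Fv Gf κ a b : ℝ}

/-- The digits of the moved places behind `Vw` are independent of the record. -/
theorem vl_beh (h : VLaw p zw Rj Rx R' y Xq Xp Up N1 N2 XJ Fv Gf κ) (h1 : CH p Vw Xp ≤ a)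
    (h2 : CH p Xq Vw ≤ a) : CH p Xp (fun ω => (Vw ω, (zw ω, y ω))) ≤
      CH p Xp (fun ω => (Rx ω, (Vw ω, (zw ω, y ω)))) + 4 * κ + 2 * a := by
  have h0 := h.h0
  obtain ⟨Z, hZ⟩ : ∃ Z : Ω → _, Z = fun ω => (Xq ω, (zw ω, y ω)) := ⟨_, rfl⟩
  obtain ⟨R, hR⟩ : ∃ R : Ω → _, R = fun ω => (Xq ω, (Rx ω, y ω)) := ⟨_, rfl⟩
  have hcn := h.cn
  have hfx := h.fx
  rw [← hZ] at hcn
  rw [← hR] at hfx
  have sw : ∀ {α : Type} (Q : Ω → α), CH p (fun ω => (Vw ω, Xp ω)) Q =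
      CH p (fun ω => (Xp ω, Vw ω)) Q := fun Q =>
    CH_congr h0 (fun ω ω' _ _ e => by
      simp only [Prod.mk.injEq] at e ⊢
      tauto) (fun ω ω' _ _ e => by
      simp only [Prod.mk.injEq] at e ⊢
      tauto) (fun _ _ _ _ e => e) (fun _ _ _ _ e => e)
  have c1 := CH_chain h0 Vw Xp Z
  have c2 := CH_chain h0 Xp Vw Z
  have c3 := sw Z
  have c4 : CH p Vw (fun ω => (Xp ω, Z ω)) ≤ a := le_trans (CH_mono_cond h0 fun ω ω' _ _ e =>
    (Prod.ext_iff.mp e).1) h1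
  have d1 := CH_chain h0 Vw Xp R
  have d2 := CH_chain h0 Xp Vw R
  have d3 := sw R
  have d4 := CH_nonneg h0 Vw (fun ω => (Xp ω, R ω))
  -- `Vw` given `Z` and given `R`
  have e1 := CH_ge h0 Vw zw R
  have e2 : CH p zw R ≤ CH p zw Rx := CH_mono_cond h0 fun ω ω' _ _ e => by
    rw [hR] at e
    exact (Prod.ext_iff.mp (Prod.ext_iff.mp e).2).1
  have e3 : CH p Vw (fun ω => (zw ω, R ω)) ≤ CH p Vw Z := CH_mono_cond h0 fun ω ω' _ _ e => by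
    simp only [hR, hZ, Prod.mk.injEq] at e ⊢
    tauto
  have e4 := h.zx
  -- remove `Xq`
  have f1 := CH_le_add h0 Xp Xq (fun ω => (Vw ω, (zw ω, y ω)))
  have f2 : CH p Xq (fun ω => (Vw ω, (zw ω, y ω))) ≤ a :=
    le_trans (CH_mono_cond h0 fun ω ω' _ _ e => (Prod.ext_iff.mp e).1) h2
  have f3 : CH p Xp (fun ω => (Xq ω, (Vw ω, (zw ω, y ω)))) ≤ CH p Xp (fun ω => (Vw ω, Z ω)) :=
    CH_mono_cond h0 fun ω ω' _ _ e => by
      simp only [hZ, Prod.mk.injEq] at e ⊢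
      tauto
  have g1 := CH_ge h0 Xp zw (fun ω => (Vw ω, R ω))
  have g2 : CH p zw (fun ω => (Vw ω, R ω)) ≤ CH p zw Rx := CH_mono_cond h0 fun ω ω' _ _ e => by
    rw [hR] at e
    exact (Prod.ext_iff.mp (Prod.ext_iff.mp (Prod.ext_iff.mp e).2).2).1
  have g3 : CH p Xp (fun ω => (zw ω, (Vw ω, R ω))) ≤
      CH p Xp (fun ω => (Xq ω, (Rx ω, (Vw ω, (zw ω, y ω))))) := CH_mono_cond h0 fun ω ω' _ _ e => by
    simp only [hR, Prod.mk.injEq] at e ⊢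
    tauto
  have g4 : CH p Xp (fun ω => (Xq ω, (Rx ω, (Vw ω, (zw ω, y ω))))) ≤
      CH p Xp (fun ω => (Rx ω, (Vw ω, (zw ω, y ω)))) := CH_mono_cond h0 fun ω ω' _ _ e =>
    (Prod.ext_iff.mp e).2
  linarith

/-- **The far digits of the targets** given the near ones and `Vw`. -/
theorem vl_up (h : VLaw p zw Rj Rx R' y Xq Xp Up N1 N2 XJ Fv Gf κ) (h1 : CH p Vw Xp ≤ a)
    (h2 : CH p Xq Vw ≤ a)
    (h3 : CH p (fun ω => (N2 ω, N1 ω)) (fun ω => (Rx ω, (Vw ω, (zw ω, y ω)))) ≤ b) :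
    CH p N2 (fun ω => (N1 ω, (Vw ω, (zw ω, y ω)))) ≤
      CH p N2 (fun ω => (XJ ω, (Rj ω, y ω))) + 20 * κ + 2 * a + b := by
  have h0 := h.h0
  have k1 := vl_beh h h1 h2
  obtain ⟨W, hW⟩ : ∃ W : Ω → _, W = fun ω => (Vw ω, (zw ω, y ω)) := ⟨_, rfl⟩
  obtain ⟨W₀, hW₀⟩ : ∃ W₀ : Ω → _, W₀ = fun ω => (N1 ω, (Vw ω, (zw ω, y ω))) := ⟨_, rfl⟩
  rw [← hW₀]
  rw [← hW] at k1
  have e1 : (fun ω => (Rx ω, (Vw ω, (zw ω, y ω)))) = fun ω => (Rx ω, W ω) := by rw [hW]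
  rw [e1] at k1 h3
  have c1 := CH_chain h0 N2 Xp W₀
  have c2 := CH_chain h0 Xp N2 W₀
  have c3 : CH p (fun ω => (N2 ω, Xp ω)) W₀ = CH p (fun ω => (Xp ω, N2 ω)) W₀ :=
    CH_congr h0 (fun ω ω' _ _ e => by
      simp only [Prod.mk.injEq] at e ⊢
      tauto) (fun ω ω' _ _ e => by
      simp only [Prod.mk.injEq] at e ⊢
      tauto) (fun _ _ _ _ e => e) (fun _ _ _ _ e => e)
  have d1 : CH p Xp W₀ ≤ CH p Xp W := CH_mono_cond h0 fun ω ω' _ _ e => by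
    simp only [hW₀, hW, Prod.mk.injEq] at e ⊢
    tauto
  have d2 := CH_ge h0 Xp (fun ω => (N2 ω, N1 ω)) (fun ω => (Rx ω, W ω))
  have d3 : CH p Xp (fun ω => ((N2 ω, N1 ω), (Rx ω, W ω))) ≤ CH p Xp (fun ω => (N2 ω, W₀ ω)) :=
    CH_mono_cond h0 fun ω ω' _ _ e => by
      simp only [hW₀, hW, Prod.mk.injEq] at e ⊢
      tauto
  have d4 : CH p N2 (fun ω => (Xp ω, W₀ ω)) ≤ CH p N2 (fun ω => (N1 ω, (Xp ω, (zw ω, y ω)))) :=
    CH_mono_cond h0 fun ω ω' _ _ e => by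
      simp only [hW₀, Prod.mk.injEq] at e ⊢
      tauto
  have d5 := h.al
  linarith

/-- **The far digits of the targets** given much more. -/
theorem vl_dn (h : VLaw p zw Rj Rx R' y Xq Xp Up N1 N2 XJ Fv Gf κ) {ϕ : Type} {A : Ω → ϕ} {f : ℝ}
    (hA : CH p A (fun ω => ((Xp ω, Up ω), (Rj ω, (((Xq ω, Up ω), N1 ω), (zw ω, y ω))))) ≤ f) :
    CH p N2 (fun ω => (XJ ω, (Rj ω, y ω))) - 14 * κ - f ≤ CH p N2 A := by
  have h0 := h.h0
  have h1 := h.be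
  have h2 := CH_ge h0 N2 A (fun ω => ((Xp ω, Up ω), (Rj ω, (((Xq ω, Up ω), N1 ω), (zw ω, y ω)))))
  have h3 : CH p N2 (fun ω => (A ω, ((Xp ω, Up ω), (Rj ω, (((Xq ω, Up ω), N1 ω),
      (zw ω, y ω)))))) ≤ CH p N2 A := CH_mono_cond h0 fun ω ω' _ _ e => (Prod.ext_iff.mp e).1
  linarith

end ent

section digs

variable {m J : ℕ} {F : Fam m J} {c : ℕ → Fin m} {C : ℕ} {tg : Fin C → ℕ} {w : ℕ}
  {H : LnT F → ℕ → MvPolynomial (Option (Fin m)) ℝ} {p : F.Ω → ℝ}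

theorem mm_eq (N : Fin C → ℕ) (u : Fin C) (ω : F.Ω) : Mm F c tg w H N ω u =
    ⌊(2 : ℝ) ^ ((N u : ℕ) : ℝ) * ojet F (c (tg u)) 0 (H (slam F w ω) (tg u)) ω⌋ := by
  rw [Real.rpow_natCast]
  rfl

/-- Natural digits from the digits `n`. -/
theorem CH_mm (hp : IsLaw p) {N : Fin C → ℕ} {n : Fin C → ℝ} {d : ℝ}
    (hd : ∀ u, ((N u : ℕ) : ℝ) ≤ n u * J + d) (hd0 : 0 ≤ d) {𝓦 : Type} (Z : F.Ω → 𝓦)
    (hZ : Det p Z (jp F c 0 tg w H n)) :
    CH p (Mm F c tg w H N) Z ≤ C * (d * Real.log 2 + Real.log 5) := by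
  have hl2 : 0 < Real.log 2 := Real.log_pos one_lt_two
  refine CH_pi hp.nonneg Z C _ fun u => ?_
  have h2 := CH_dig hp (a := n u * J) (b := ((N u : ℕ) : ℝ))
    (fun ω => ojet F (c (tg u)) 0 (H (slam F w ω) (tg u)) ω) Z (fun ω ν hω hν e =>
      congrFun (hZ ω ν hω hν e) u)
  simp only [mm_eq]
  refine h2.trans (add_le_add (mul_le_mul_of_nonneg_right (max_le ?_ hd0) hl2.le) le_rfl)
  have := hd u
  linarith

/-- The digits `n` from natural digits. -/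
theorem CH_jm (hp : IsLaw p) {N : Fin C → ℕ} {n : Fin C → ℝ} {d : ℝ}
    (hd : ∀ u, n u * J ≤ (N u : ℕ) + d) (hd0 : 0 ≤ d) {𝓦 : Type} (Z : F.Ω → 𝓦)
    (hZ : Det p Z (Mm F c tg w H N)) :
    CH p (jp F c 0 tg w H n) Z ≤ C * (d * Real.log 2 + Real.log 5) := by
  have hl2 : 0 < Real.log 2 := Real.log_pos one_lt_two
  refine CH_pi hp.nonneg Z C _ fun u => ?_
  have h2 := CH_dig hp (a := ((N u : ℕ) : ℝ)) (b := n u * J)
    (fun ω => ojet F (c (tg u)) 0 (H (slam F w ω) (tg u)) ω) Z (fun ω ν hω hν e => by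
      have e1 := congrFun (hZ ω ν hω hν e) u
      rw [mm_eq, mm_eq] at e1
      exact e1)
  refine h2.trans (add_le_add (mul_le_mul_of_nonneg_right (max_le ?_ hd0) hl2.le) le_rfl)
  have := hd u
  linarith

end digs

section few

variable {m J : ℕ} {F : Fam m J} {c : ℕ → Fin m} {k C : ℕ} {mv : Fin k → ℕ}
  {tg qt Xt : Fin C → ℕ} {q w W X mm D K : ℕ} {γ : ℕ → ℕ} {B : F.Ω → Prop}
  {G₀ : PtT F → ℕ → MvPolynomial (Option (Fin m)) ℝ}
  {H : LnT F → ℕ → MvPolynomial (Option (Fin m)) ℝ} {gg : F.Ω → Fin C → Fin k → ℝ}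
  {β υ ζ χ₁ χ₂ ρ₁ ρ₂ ρ₃ ξ₆ : Type} {z : F.Ω → β} {zw : F.Ω → ζ} {y : F.Ω → υ}
  {Cj : F.Ω → χ₁} {Cx : F.Ω → χ₂} {Rj : F.Ω → ρ₁} {Rx : F.Ω → ρ₂} {R' : F.Ω → ρ₃}
  {XJ : F.Ω → ξ₆} {p : F.Ω → ℝ} {Nf Nn Nu Nv : Fin k → ℕ → ℝ} {nb : Fin k → ℝ}
  {Mf Mn vt : Fin C → ℝ} {U Fv Gf κ' d e : ℝ}

/-- The digits of the targets in the block are few given the last record and `Vw`. -/
theorem pv_mmx (P : PrV F c mv tg qt Xt q w W X mm D K γ B G₀ H gg z zw y Cj Cx Rj Rx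
      (Vm F c mv w H fun j => nb j * J) p Nf Nn Nn Nu Nv (vp Mf vt) (vp Mn vt) U
      (k * (X * Real.log 2)) e)
    (hx : Det p Rx Cx) (hy1 : Det p (fun ω => (zw ω, y ω)) (fun ω => (rt F W ω, z ω)))
    (nb1 : ∀ l, ((γ (mv l) + q + X : ℕ) : ℝ) ≤ nb l * J) :
    CH p (Mm F c tg w H fun u => γ (tg u) + qt u + Xt u)
      (fun ω => (Rx ω, (jp F c 0 mv w H nb ω, (zw ω, y ω)))) ≤
      C * Real.log (2 * ((k + 1) * U + 1) + 1) := by
  have hp := P.law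
  have hU := P.grd.U0
  refine CH_pi hp.nonneg _ C _ fun u => ?_
  refine CH_pair_int hp _ _ (by positivity) fun ω ν hω hν he => ?_
  obtain ⟨e1, e2⟩ := Prod.ext_iff.mp he
  obtain ⟨e3, e4⟩ := Prod.ext_iff.mp e2
  have e5 := hy1 ω ν hω hν e4
  have e6 : rt F W ω = rt F W ν := (Prod.ext_iff.mp e5).1
  have e7 : z ω = z ν := (Prod.ext_iff.mp e5).2
  have t1 := time_eq F P.WJ (P.zT ω ν hω hν e7) e6
  have c1 := P.cls ω (P.sup ω hω)
  have c2 := P.cls ν (P.sup ν hν)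
  have hw : w ≤ J := P.wW.trans P.WJ
  have hv2 : ∀ j : Fin k, 2 ^ (γ (mv j) + q) * |hgt F c G₀ ω (mv j) - hgt F c G₀ ν (mv j)| ≤
      1 / 2 ^ X := by
    intro j
    rw [hgt_ojet hw (c1.2 j), hgt_ojet hw (c2.2 j)]
    have p1 : (0 : ℝ) < 2 ^ (γ (mv j) + q + X) := by positivity
    have p3 : (0 : ℝ) < (2 : ℝ) ^ (nb j * J) := Real.rpow_pos_of_pos two_pos _
    have hv := near_of_floor p3 (congrFun e3 j)
    have h1 : (1 : ℝ) / 2 ^ (nb j * J) ≤ 1 / 2 ^ (γ (mv j) + q + X) := by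
      refine one_div_le_one_div_of_le p1 ?_
      rw [← Real.rpow_natCast]
      exact Real.rpow_le_rpow_of_exponent_le one_le_two (nb1 j)
    have h2 := hv.trans h1
    rw [pow_add, ← div_div, le_div_iff₀ (by positivity : (0 : ℝ) < 2 ^ X)] at h2
    rw [le_div_iff₀ (by positivity : (0 : ℝ) < 2 ^ X)]
    calc _ = 2 ^ (γ (mv j) + q) * (|ojet F (c (mv j)) 0 (H (slam F w ω) (mv j)) ω -
          ojet F (c (mv j)) 0 (H (slam F w ν) (mv j)) ν| * 2 ^ X) := by ring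
      _ ≤ 2 ^ (γ (mv j) + q) * (1 / 2 ^ (γ (mv j) + q)) :=
          mul_le_mul_of_nonneg_left h2 (by positivity)
      _ = 1 := by field_simp
  have hn : Pool.LV64.NrH F c mv q γ G₀ ω ν := by
    intro j
    have h1 := hv2 j
    have h3 : (1 : ℝ) / 2 ^ X ≤ 2 ^ 2 := by
      have : (1 : ℝ) / 2 ^ X ≤ 1 := by
        rw [div_le_one (by positivity)]
        exact one_le_pow₀ (by norm_num)
      linarith
    rw [le_div_iff₀ (by positivity), mul_comm]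
    exact h1.trans h3
  have b1 := P.grd.nx ω ν (P.sup ω hω) (P.sup ν hν) t1.2 e7 (hx ω ν hω hν e1) hn u
  have b2 : |2 ^ X * ∑ j : Fin k, gg ω u j *
      (2 ^ (γ (mv j) + q) * (hgt F c G₀ ω (mv j) - hgt F c G₀ ν (mv j)))| ≤ k * U := by
    rw [abs_mul, abs_of_pos (by positivity : (0 : ℝ) < 2 ^ X)]
    have h4 : |∑ j : Fin k, gg ω u j *
        (2 ^ (γ (mv j) + q) * (hgt F c G₀ ω (mv j) - hgt F c G₀ ν (mv j)))| ≤
        k * (U * (1 / 2 ^ X)) := by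
      refine (Finset.abs_sum_le_sum_abs _ _).trans ((Finset.sum_le_sum
        (g := fun _ => U * (1 / 2 ^ X)) fun j _ => ?_).trans (le_of_eq ?_))
      · rw [abs_mul, abs_mul, abs_of_pos (by positivity : (0 : ℝ) < 2 ^ (γ (mv j) + q))]
        exact mul_le_mul (P.grd.bm ω (P.sup ω hω) u j) (hv2 j) (by positivity) hU
      · rw [Finset.sum_const, Finset.card_univ, Fintype.card_fin, nsmul_eq_mul]
    refine (mul_le_mul_of_nonneg_left h4 (by positivity)).trans (le_of_eq ?_)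
    field_simp
  have b3 : |2 ^ (γ (tg u) + qt u + Xt u) * hgt F c G₀ ω (tg u) -
      2 ^ (γ (tg u) + qt u + Xt u) * hgt F c G₀ ν (tg u)| ≤ (k + 1) * U := by
    have e8 : 2 ^ (γ (tg u) + qt u + Xt u) * hgt F c G₀ ω (tg u) -
      2 ^ (γ (tg u) + qt u + Xt u) * hgt F c G₀ ν (tg u) =
      (2 ^ Xt u * (2 ^ (γ (tg u) + qt u) * (hgt F c G₀ ω (tg u) - hgt F c G₀ ν (tg u))) -
        2 ^ X * ∑ j, gg ω u j *
        (2 ^ (γ (mv j) + q) * (hgt F c G₀ ω (mv j) - hgt F c G₀ ν (mv j)))) +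
        2 ^ X * ∑ j, gg ω u j *
        (2 ^ (γ (mv j) + q) * (hgt F c G₀ ω (mv j) - hgt F c G₀ ν (mv j))) := by
      rw [pow_add _ (γ (tg u) + qt u) (Xt u)]
      ring
    rw [e8]
    refine (abs_add_le _ _).trans ?_
    linarith
  rw [mm_eq, mm_eq, ← hgt_ojet hw (c1.1 u), ← hgt_ojet hw (c2.1 u), Real.rpow_natCast]
  exact floor_near' b3

/-- The upper digits of the codes of the targets. -/
theorem nu_floor {Ω β' : Type} (d : VD Ω β' C k) (ω : Ω) (u : Fin C) (a : Fin (K + 1)) :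
    d.nu K ω u a = ⌊(d.P ω u).coeff a⌋ := by
  show ⌊(2 : ℝ) ^ d.Xp u * (d.P ω u).coeff a⌋ / 2 ^ d.Xp u = _
  have h1 := Int.floor_div_natCast ((2 : ℝ) ^ d.Xp u * (d.P ω u).coeff a) (2 ^ d.Xp u)
  have e1 : (2 : ℝ) ^ d.Xp u * (d.P ω u).coeff a / ((2 ^ d.Xp u : ℕ) : ℝ) =
      (d.P ω u).coeff a := by
    push_cast
    field_simp
  rw [e1] at h1
  push_cast at h1
  exact h1.symm

/-- The upper digits of the position of the targets. -/
theorem nu0_few {Ω β' 𝓦 : Type} [Fintype Ω] {p : Ω → ℝ} (hp : IsLaw p) (d : VD Ω β' C k)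
    (Z : Ω → 𝓦) (hd : ∀ ω, 0 < p ω → ∀ u, (d.P ω u).natDegree ≤ K)
    (hth : ∀ ω, 0 < p ω → 0 ≤ d.th ω ∧ d.th ω < 1)
    (hZ : ∀ ω ν, 0 < p ω → 0 < p ν → Z ω = Z ν → d.th ω = d.th ν ∧ ∀ u,
      ⌊(d.P ω u).eval (d.th ω)⌋ = ⌊(d.P ν u).eval (d.th ν)⌋ ∧
      ∀ a : Fin K, d.nu K ω u a.succ = d.nu K ν u a.succ) :
    CH p (fun ω u => d.nu K ω u 0) Z ≤ C * cV K := by
  refine CH_pi hp.nonneg Z C _ fun u => ?_
  obtain ⟨d', h1, h2, h3⟩ : ∃ d' : VD Ω β' C k, d'.P = d.P ∧ d'.th = d.th ∧ ∀ u, d'.Xp u = 0 :=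
    ⟨{ d with Xp := fun _ => 0 }, rfl, rfl, fun _ => rfl⟩
  have h4 : ∀ ω (a : Fin (K + 1)), d'.nc K ω u a = d.nu K ω u a := by
    intro ω a
    rw [nu_floor]
    show ⌊(2 : ℝ) ^ d'.Xp u * (d'.P ω u).coeff a⌋ = _
    rw [h3, h1, pow_zero, one_mul]
  have h5 := Pool.VS64.nc0_few (K := K) hp d' u Z (by rw [h1]; exact fun ω hω => hd ω hω u)
    (by rw [h2]; exact hth) (fun ω ν hω hν e => by
      obtain ⟨g1, g2⟩ := hZ ω ν hω hν e
      rw [h2, h1, h3, pow_zero, one_mul, one_mul]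
      refine ⟨g1, (g2 u).1, fun a => ?_⟩
      rw [h4, h4]
      exact (g2 u).2 a)
  have e1 : (fun ω => d'.nc K ω u 0) = fun ω => d.nu K ω u 0 := funext fun ω => h4 ω 0
  rw [e1] at h5
  exact h5

/-- The numbers of `pv_few`. -/
noncomputable def Fwn (C k K : ℕ) (U e d κ : ℝ) : ℝ :=
  35 * κ + 3 * (k * Real.log 5) + 3 * (C * (d * Real.log 2 + Real.log 5)) +
    C * Real.log (2 * ((k + 1) * U + 1) + 1) + 2 * Evn C k K U e + C * cV K +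
    3 * (C * Real.log 5)

/-- **The digits of the targets in the block** are as free given the context, the gradient and the
codes as given the context only. -/
theorem pv_few (P : PrV F c mv tg qt Xt q w W X mm D K γ B G₀ H gg z zw y Cj Cx Rj Rx
      (Vm F c mv w H fun j => nb j * J) p Nf Nn Nn Nu Nv (vp Mf vt) (vp Mn vt) U
      (k * (X * Real.log 2)) e)
    (V : VLaw2 p zw Rj Rx R' y (jp F c 0 mv w H fun l => Nn l 0)
      (jp F c 0 mv w H fun l => Nf l 0) (jp F c 1 mv w H fun l => Nn l 1)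
      (jp F c 1 mv w H fun l => Nf l 1) (jp F c 0 tg w H Mn) (jp F c 0 tg w H Mf) XJ Fv Gf κ')
    (hx : Det p Rx Cx) (hy1 : Det p (fun ω => (zw ω, y ω)) (fun ω => (rt F W ω, z ω)))
    (hy2 : Det p (fun ω => (rt F W ω, z ω)) (fun ω => (zw ω, y ω)))
    (nb1 : ∀ l, ((γ (mv l) + q + X : ℕ) : ℝ) ≤ nb l * J)
    (nb2 : ∀ l, nb l * J ≤ (γ (mv l) + q + (X + mm) : ℕ))
    (f0 : ∀ l, ((γ (mv l) + q + (X + mm) : ℕ) : ℝ) ≤ Nf l 0 * J)
    (m0 : ∀ u, Mn u * J ≤ (γ (tg u) + qt u : ℕ))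
    (m0' : ∀ u, ((γ (tg u) + qt u : ℕ) : ℝ) ≤ Mn u * J + d)
    (mf : ∀ u, ((γ (tg u) + qt u + Xt u : ℕ) : ℝ) ≤ Mf u * J)
    (mf' : ∀ u, Mf u * J ≤ (γ (tg u) + qt u + Xt u : ℕ) + d) (hd0 : 0 ≤ d) :
    MI p (Mm F c tg w H fun u => γ (tg u) + qt u + Xt u)
      (fun ω => (Vm F c mv w H (fun j => nb j * J) ω,
        ((adV F c mv tg qt Xt q w W X mm γ gg H z).T ω,
          (adV F c mv tg qt Xt q w W X mm γ gg H z).g K ω)))
      (fun ω => ((Vm F c mv w H (fun j => nb j * J) ω, Mu F c tg qt w γ H ω),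
        (rt F W ω, z ω))) ≤ Fwn C k K U e d κ' := by
  have hp := P.law
  have h0 := hp.nonneg
  have hl2 : 0 < Real.log 2 := Real.log_pos one_lt_two
  have hl5 : 0 < Real.log 5 := Real.log_pos (by norm_num)
  have hyp := P.hypm nb1 nb2
  have hC0 : (0 : ℝ) ≤ C := Nat.cast_nonneg C
  have hk0 : (0 : ℝ) ≤ k := Nat.cast_nonneg k
  have hJ0 : (0 : ℝ) ≤ J := Nat.cast_nonneg J
  have hnbf : ∀ l, (nb l - Nf l 0) * J ≤ 0 := fun l => by
    have h1 := nb2 l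
    have h2 := f0 l
    rw [sub_mul]
    linarith
  have hnqb : ∀ l, (Nn l 0 - nb l) * J ≤ 0 := fun l => by
    have h1 := nb1 l
    have h2 := P.n0 l
    have h3 : ((γ (mv l) + q : ℕ) : ℝ) ≤ (γ (mv l) + q + X : ℕ) := by
      exact_mod_cast Nat.le_add_right _ _
    rw [sub_mul]
    linarith
  have hVm : Vm F c mv w H (fun j => nb j * J) = jp F c 0 mv w H nb := rfl
  have hMu : Mu F c tg qt w γ H = Mm F c tg w H fun u => γ (tg u) + qt u := rfl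
  rw [hVm] at hyp ⊢
  rw [hMu]
  -- `Vw` and `Xp`, `Xq`
  have a1 : CH p (jp F c 0 mv w H nb) (jp F c 0 mv w H fun l => Nf l 0) ≤ k * Real.log 5 := by
    have := CH_jp hp (a := 0) (n := fun l => Nf l 0) (n' := nb) hnbf le_rfl
      (jp F c 0 mv w H fun l => Nf l 0) (fun _ _ _ _ e => e)
    rwa [zero_mul, zero_add] at this
  have a2 : CH p (jp F c 0 mv w H fun l => Nn l 0) (jp F c 0 mv w H nb) ≤ k * Real.log 5 := by
    have := CH_jp hp (a := 0) (n := nb) (n' := fun l => Nn l 0) hnqb le_rfl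
      (jp F c 0 mv w H nb) (fun _ _ _ _ e => e)
    rwa [zero_mul, zero_add] at this
  have a3 : CH p (fun ω => (jp F c 0 tg w H Mf ω, jp F c 0 tg w H Mn ω))
      (fun ω => (Rx ω, (jp F c 0 mv w H nb ω, (zw ω, y ω)))) ≤
      C * Real.log (2 * ((k + 1) * U + 1) + 1) + C * (d * Real.log 2 + Real.log 5) +
        C * Real.log 5 := by
    obtain ⟨Z, hZ⟩ : ∃ Z : F.Ω → _, Z = fun ω => (Rx ω, (jp F c 0 mv w H nb ω, (zw ω, y ω))) :=
      ⟨_, rfl⟩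
    have b1 := pv_mmx P hx hy1 nb1
    rw [← hZ] at b1 ⊢
    have b2 := CH_le_add h0 (fun ω => (jp F c 0 tg w H Mf ω, jp F c 0 tg w H Mn ω))
      (Mm F c tg w H fun u => γ (tg u) + qt u + Xt u) Z
    have b3 := Pool.OWN68.CH_chain2 h0 (jp F c 0 tg w H Mf) (jp F c 0 tg w H Mn)
      (fun ω => (Mm F c tg w H (fun u => γ (tg u) + qt u + Xt u) ω, Z ω))
    have b4 := CH_jm (c := c) (w := w) (H := H) (tg := tg)
      (N := fun u => γ (tg u) + qt u + Xt u) (n := Mf) hp mf' hd0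
      (fun ω => (Mm F c tg w H (fun u => γ (tg u) + qt u + Xt u) ω, Z ω))
      (fun ω ν _ _ e => (Prod.ext_iff.mp e).1)
    have b5 := CH_jp hp (c := c) (w := w) (H := H) (mv := tg) (a := 0) (n := Mf) (n' := Mn)
      (d := 0) (fun u => by
        have h1 := m0 u
        have h2 := mf u
        have h3 : ((γ (tg u) + qt u : ℕ) : ℝ) ≤ (γ (tg u) + qt u + Xt u : ℕ) := by
          exact_mod_cast Nat.le_add_right _ _
        rw [sub_mul]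
        linarith) le_rfl (fun ω => (jp F c 0 tg w H Mf ω,
          (Mm F c tg w H (fun u => γ (tg u) + qt u + Xt u) ω, Z ω)))
      (fun ω ν _ _ e => (Prod.ext_iff.mp e).1)
    rw [zero_mul, zero_add] at b5
    linarith
  have up := vl_up V.toV a1 a2 a3
  -- the upper bound
  obtain ⟨Bs, hBs⟩ : ∃ Bs : F.Ω → _, Bs = fun ω => ((jp F c 0 mv w H nb ω,
    Mm F c tg w H (fun u => γ (tg u) + qt u) ω), (rt F W ω, z ω)) := ⟨_, rfl⟩
  have u1 := CH_le_add h0 (Mm F c tg w H fun u => γ (tg u) + qt u + Xt u)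
    (jp F c 0 tg w H Mf) Bs
  have u2 := CH_mm hp (c := c) (w := w) (H := H) (tg := tg)
    (N := fun u => γ (tg u) + qt u + Xt u) (n := Mf) (d := 0) (fun u => by
      have := mf u
      linarith) le_rfl (fun ω => (jp F c 0 tg w H Mf ω, Bs ω))
    (fun ω ν _ _ e => (Prod.ext_iff.mp e).1)
  rw [zero_mul, zero_add] at u2
  have u3 := CH_le_add h0 (jp F c 0 tg w H Mf) (jp F c 0 tg w H Mn) Bs
  have u4 := CH_jm hp (c := c) (w := w) (H := H) (tg := tg)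
    (N := fun u => γ (tg u) + qt u) (n := Mn) (d := 0) (fun u => by
      have := m0 u
      linarith) le_rfl Bs (fun ω ν _ _ e => by
        rw [hBs] at e
        exact (Prod.ext_iff.mp (Prod.ext_iff.mp e).1).2)
  rw [zero_mul, zero_add] at u4
  have u5 : CH p (jp F c 0 tg w H Mf) (fun ω => (jp F c 0 tg w H Mn ω, Bs ω)) ≤
      CH p (jp F c 0 tg w H Mf) (fun ω => (jp F c 0 tg w H Mn ω, (jp F c 0 mv w H nb ω,
        (zw ω, y ω)))) := CH_mono_cond h0 fun ω ν hω hν e => by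
    obtain ⟨e1, e2⟩ := Prod.ext_iff.mp e
    rw [hBs] at e2
    obtain ⟨e3, e4⟩ := Prod.ext_iff.mp e2
    exact Prod.ext e1 (Prod.ext (Prod.ext_iff.mp e3).1 (hy2 ω ν hω hν e4))
  -- the lower bound
  have dn : ∀ {ϕ : Type} {A : F.Ω → ϕ} {f : ℝ}, CH p A (fun ω =>
      ((jp F c 0 mv w H (fun l => Nf l 0) ω, jp F c 1 mv w H (fun l => Nf l 1) ω),
        (Rj ω, (((jp F c 0 mv w H (fun l => Nn l 0) ω, jp F c 1 mv w H (fun l => Nf l 1) ω),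
          jp F c 0 tg w H Mn ω), (zw ω, y ω))))) ≤ f →
      CH p (jp F c 0 tg w H Mf) (fun ω => (XJ ω, (Rj ω, y ω))) - 14 * κ' - f ≤
        CH p (jp F c 0 tg w H Mf) A := fun h => vl_dn V.toV h
  have hdP : ∀ ω, 0 < p ω → ∀ (u : Fin C),
      ((adV F c mv tg qt Xt q w W X mm γ gg H z).P ω u).natDegree ≤ K := hyp.dP
  have hth := hyp.th
  have hLx := hyp.Lx
  have hbbj := hyp.bbj
  have hv0 : ∀ ω (u : Fin C), ((adV F c mv tg qt Xt q w W X mm γ gg H z).P ω u).eval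
      ((adV F c mv tg qt Xt q w W X mm γ gg H z).th ω) =
      2 ^ (γ (tg u) + qt u) * ojet F (c (tg u)) 0 (H (slam F w ω) (tg u)) ω := fun ω u =>
    Pool.LV64.adV_P0 P.wW P.WJ ω u
  obtain ⟨dd, hdd⟩ : ∃ dd, dd = adV F c mv tg qt Xt q w W X mm γ gg H z := ⟨_, rfl⟩
  have htt : rt F W = dd.th := by rw [hdd]; rfl
  have hdz : z = dd.z := by rw [hdd]; rfl
  rw [← hdd] at hdP hth hLx hbbj hv0 ⊢
  obtain ⟨Wb, hWb⟩ : ∃ Wb : F.Ω → _, Wb = fun ω =>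
      ((jp F c 0 mv w H (fun l => Nf l 0) ω, jp F c 1 mv w H (fun l => Nf l 1) ω),
        (Rj ω, (((jp F c 0 mv w H (fun l => Nn l 0) ω, jp F c 1 mv w H (fun l => Nf l 1) ω),
          jp F c 0 tg w H Mn ω), (zw ω, y ω)))) := ⟨_, rfl⟩
  rw [← hWb] at dn
  have w1 : Det p Wb (jp F c 0 mv w H fun l => Nf l 0) := fun ω ν _ _ e => by
    rw [hWb] at e
    exact (Prod.ext_iff.mp (Prod.ext_iff.mp e).1).1
  have w2 : Det p Wb (jp F c 1 mv w H fun l => Nf l 1) := fun ω ν _ _ e => by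
    rw [hWb] at e
    exact (Prod.ext_iff.mp (Prod.ext_iff.mp e).1).2
  have w3 : Det p Wb Rj := fun ω ν _ _ e => by
    rw [hWb] at e
    exact (Prod.ext_iff.mp (Prod.ext_iff.mp e).2).1
  have w4 : Det p Wb (jp F c 0 mv w H fun l => Nn l 0) := fun ω ν _ _ e => by
    rw [hWb] at e
    exact (Prod.ext_iff.mp (Prod.ext_iff.mp (Prod.ext_iff.mp (Prod.ext_iff.mp e).2).2).1).1 |>
      fun e1 => (Prod.ext_iff.mp e1).1
  have w5 : Det p Wb (jp F c 0 tg w H Mn) := fun ω ν _ _ e => by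
    rw [hWb] at e
    exact (Prod.ext_iff.mp (Prod.ext_iff.mp (Prod.ext_iff.mp (Prod.ext_iff.mp e).2).2).1).2
  have w6 : Det p Wb (fun ω => (dd.th ω, dd.z ω)) := fun ω ν hω hν e => by
    rw [hWb] at e
    have e1 := hy1 ω ν hω hν (Prod.ext_iff.mp (Prod.ext_iff.mp (Prod.ext_iff.mp e).2).2).2
    rw [htt, hdz] at e1
    exact e1
  -- the pieces
  obtain ⟨W1, hW1⟩ : ∃ W1 : F.Ω → _, W1 = fun ω => (jp F c 1 mv w H (fun l => Nn l 1) ω, Wb ω) :=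
    ⟨_, rfl⟩
  obtain ⟨W2, hW2⟩ : ∃ W2 : F.Ω → _, W2 = fun ω => (jp F c 0 mv w H nb ω, W1 ω) := ⟨_, rfl⟩
  obtain ⟨W3, hW3⟩ : ∃ W3 : F.Ω → _, W3 = fun ω =>
    (Mm F c tg w H (fun u => γ (tg u) + qt u) ω, W2 ω) := ⟨_, rfl⟩
  obtain ⟨W4, hW4⟩ : ∃ W4 : F.Ω → _, W4 = fun ω => (dd.l K ω, W3 ω) := ⟨_, rfl⟩
  obtain ⟨W5, hW5⟩ : ∃ W5 : F.Ω → _, W5 = fun ω => ((fun u => dd.nu K ω u 0), W4 ω) := ⟨_, rfl⟩
  obtain ⟨W6, hW6⟩ : ∃ W6 : F.Ω → _, W6 = fun ω => (dd.bb ω, W5 ω) := ⟨_, rfl⟩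
  have d1 : Det p W1 Wb := fun ω ν _ _ e => by rw [hW1] at e; exact (Prod.ext_iff.mp e).2
  have d2 : Det p W2 W1 := fun ω ν _ _ e => by rw [hW2] at e; exact (Prod.ext_iff.mp e).2
  have d3 : Det p W3 W2 := fun ω ν _ _ e => by rw [hW3] at e; exact (Prod.ext_iff.mp e).2
  have d4 : Det p W4 W3 := fun ω ν _ _ e => by rw [hW4] at e; exact (Prod.ext_iff.mp e).2
  have d5 : Det p W5 W4 := fun ω ν _ _ e => by rw [hW5] at e; exact (Prod.ext_iff.mp e).2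
  have d6 : Det p W6 W5 := fun ω ν _ _ e => by rw [hW6] at e; exact (Prod.ext_iff.mp e).2
  have p1 : CH p (jp F c 1 mv w H fun l => Nn l 1) Wb ≤ κ' :=
    (CH_mono_cond h0 w2).trans V.uq
  have p2 : CH p (jp F c 0 mv w H nb) W1 ≤ k * Real.log 5 :=
    (CH_mono_cond h0 fun ω ν a b e => w1 ω ν a b (d1 ω ν a b e)).trans a1
  have p3 : CH p (Mm F c tg w H fun u => γ (tg u) + qt u) W2 ≤
      C * (d * Real.log 2 + Real.log 5) := CH_mm hp m0' hd0 W2 fun ω ν a b e =>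
    w5 ω ν a b (d1 ω ν a b (d2 ω ν a b e))
  have p4 : CH p (dd.l K) W3 ≤ Evn C k K U e := by
    refine (CH_mono_cond h0 fun ω ν a b e => ?_).trans hLx
    have e1 := d2 ω ν a b (d3 ω ν a b e)
    have e2 := d1 ω ν a b e1
    rw [hW1] at e1
    exact Prod.ext (jp_jetm Nf ω ν a b (Prod.ext (w1 ω ν a b e2) (w2 ω ν a b e2)))
      (Prod.ext (jp_jetm Nn ω ν a b (Prod.ext (w4 ω ν a b e2) (Prod.ext_iff.mp e1).1))
        (w6 ω ν a b e2))
  have hnus : ∀ ω ν, 0 < p ω → 0 < p ν → W4 ω = W4 ν → ∀ u (a : Fin K),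
      dd.nu K ω u a.succ = dd.nu K ν u a.succ := by
    intro ω ν hω hν e u a
    rw [hW4] at e
    have e1 := (Prod.ext_iff.mp (Prod.ext_iff.mp e).1).2
    have e2 : dd.nc K ω u a.succ = dd.nc K ν u a.succ := congrFun (congrFun e1 u) a
    show dd.nc K ω u a.succ / _ = dd.nc K ν u a.succ / _
    rw [e2]
  have hd41 : Det p W4 Wb := fun ω ν a b e => d1 ω ν a b (d2 ω ν a b (d3 ω ν a b (d4 ω ν a b e)))
  have p5 : CH p (fun ω u => dd.nu K ω u 0) W4 ≤ C * cV K := by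
    refine nu0_few hp dd W4 hdP hth fun ω ν hω hν e => ?_
    have e1 := w6 ω ν hω hν (hd41 ω ν hω hν e)
    refine ⟨(Prod.ext_iff.mp e1).1, fun u => ⟨?_, fun a => hnus ω ν hω hν e u a⟩⟩
    have e2 := d4 ω ν hω hν e
    rw [hW3] at e2
    have e3 := congrFun (Prod.ext_iff.mp e2).1 u
    rw [hv0, hv0]
    exact e3
  have hg : ∀ ω ν, 0 < p ω → 0 < p ν → W5 ω = W5 ν →
      (dd.th ω = dd.th ν ∧ dd.z ω = dd.z ν) ∧ dd.g K ω = dd.g K ν := by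
    intro ω ν hω hν e
    have e1 := d5 ω ν hω hν e
    have e2 := w6 ω ν hω hν (hd41 ω ν hω hν e1)
    obtain ⟨e3, e4⟩ := Prod.ext_iff.mp e2
    have e5 : dd.z ω = dd.z ν := e4
    refine ⟨⟨e3, e5⟩, Prod.ext e5 (Prod.ext ?_ ?_)⟩
    · have e6 := e1
      rw [hW4] at e6
      have e7 : dd.ac K ω = dd.ac K ν := (Prod.ext_iff.mp (Prod.ext_iff.mp e6).1).1
      show dd.va K ω = dd.va K ν
      unfold VD.va
      rw [e7]
    · show dd.nu K ω = dd.nu K ν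
      funext u a
      refine Fin.cases ?_ (fun b => hnus ω ν hω hν e1 u b) a
      rw [hW5] at e
      exact congrFun (Prod.ext_iff.mp e).1 u
  have p6 : CH p dd.bb W5 ≤ Evn C k K U e := by
    refine (CH_mono_cond h0 fun ω ν a b e => ?_).trans hbbj
    obtain ⟨⟨e1, _⟩, e3⟩ := hg ω ν a b e
    exact Prod.ext (w3 ω ν a b (hd41 ω ν a b (d5 ω ν a b e))) (Prod.ext e1 e3)
  obtain ⟨A, hA⟩ : ∃ A : F.Ω → _, A = fun ω => ((jp F c 0 mv w H nb ω, (dd.T ω, dd.g K ω)),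
    Bs ω) := ⟨_, rfl⟩
  have p7 : CH p A W6 ≤ 0 := le_of_eq (CH_eq_zero h0 fun ω ν a b e => by
    have e5 := d6 ω ν a b e
    obtain ⟨⟨e1, e2⟩, e3⟩ := hg ω ν a b e5
    have e4 : dd.bb ω = dd.bb ν := by
      rw [hW6] at e
      exact (Prod.ext_iff.mp e).1
    have e6 := d4 ω ν a b (d5 ω ν a b e5)
    have e7 := d3 ω ν a b e6
    rw [hW3] at e6
    rw [hW2] at e7
    have e8 := (Prod.ext_iff.mp e6).1
    have e9 := (Prod.ext_iff.mp e7).1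
    rw [hA, hBs, htt, hdz]
    exact Prod.ext (Prod.ext e9 (Prod.ext (Prod.ext e1 e4) e3))
      (Prod.ext (Prod.ext e9 e8) (Prod.ext e1 e2)))
  have q1 := CH_le_add h0 A (jp F c 1 mv w H fun l => Nn l 1) Wb
  have q2 := CH_le_add h0 A (jp F c 0 mv w H nb) W1
  have q3 := CH_le_add h0 A (Mm F c tg w H fun u => γ (tg u) + qt u) W2
  have q4 := CH_le_add h0 A (dd.l K) W3
  have q5 := CH_le_add h0 A (fun ω u => dd.nu K ω u 0) W4
  have q6 := CH_le_add h0 A dd.bb W5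
  rw [← hW1] at q1
  rw [← hW2] at q2
  rw [← hW3] at q3
  rw [← hW4] at q4
  rw [← hW5] at q5
  rw [← hW6] at q6
  have q7 : CH p A Wb ≤ κ' + k * Real.log 5 + C * (d * Real.log 2 + Real.log 5) +
      Evn C k K U e + C * cV K + Evn C k K U e := by linarith
  have dn1 := dn q7
  have dn2 := CH_le_add h0 (jp F c 0 tg w H Mf) (Mm F c tg w H fun u => γ (tg u) + qt u + Xt u) A
  have dn3 := CH_jm hp (c := c) (w := w) (H := H) (tg := tg)
    (N := fun u => γ (tg u) + qt u + Xt u) (n := Mf) (d := d) mf' hd0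
    (fun ω => (Mm F c tg w H (fun u => γ (tg u) + qt u + Xt u) ω, A ω))
    (fun ω ν _ _ e => (Prod.ext_iff.mp e).1)
  rw [← hBs, MI_eq h0]
  have e8 : CH p (Mm F c tg w H fun u => γ (tg u) + qt u + Xt u) (fun ω =>
      ((jp F c 0 mv w H nb ω, dd.T ω, dd.g K ω), Bs ω)) =
      CH p (Mm F c tg w H fun u => γ (tg u) + qt u + Xt u) A := by rw [hA]
  rw [e8]
  unfold Fwn
  have hlC : 0 ≤ C * Real.log 5 := by positivity
  linarith

end few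

end Pool.V0P
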