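import Pool.Agent.H25.V0P.Few
import Pool.Agent.H16.DIR.Pv

/-!
# Fullness of the images of the pair

`low_cls`: a lower bound on the classes of an event. `fih_pt`: fullness for closed slopes which are
functions of the digits from fullness for closed slopes which are functions of the point.
-/

set_option autoImplicit false

namespace Pool.V0P

open Finset Real MvPolynomial
open Pool.Agent.H49.Ent Pool.Agent.H32.Dense
open Pool.STK hiding pr2
open Pool.KA Pool.KSAT Pool.K2S Pool.PB Pool.S6C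
open Pool.GEN Pool.CHT Pool.CHX Pool.ISO Pool.LA91 Pool.AVG71 Pool.AVG5 Pool.D2F2 Pool.AVG57
open Pool.PB.Trl (rt rt_mem t_rt)
open Pool.LV64 (GrdV PrV Vm Mm Mu adV adV_ti CH_pi Evn VD mh_up)
open Pool.KVA (MI)
open Pool.D2R (hgt)
open Pool.KAF (rs Pr)
open Pool.BFL (Pb)
open Pool.V0F (VLaw2 VLaw mi_side CH_sgn CH_dig CH_ge CH_tr)
open Pool.DIR16 (FIh Pe_cc cond_cc)

section cls

variable {Ω S T U : Type} [Fintype Ω] {p : Ω → ℝ}

theorem law_evq (q : Ω → ℝ) (τ : Ω → U) (i : U) : law q τ i = Pe q (fun ω => τ ω = i) := by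
  show law q τ i = law q (fun ω => τ ω = i) True
  unfold law
  refine Finset.sum_congr rfl fun ω _ => ?_
  by_cases h : τ ω = i
  · rw [if_pos h, if_pos (eq_true h)]
  · rw [if_neg h, if_neg (fun h' => h (of_eq_true h'))]

theorem cond_evq (q : Ω → ℝ) (τ : Ω → U) (i : U) :
    Pool.Agent.H49.Ent.cond q τ i = Pool.Agent.H49.Ent.cond q (fun ω => τ ω = i) True := by
  funext ω
  unfold Pool.Agent.H49.Ent.cond
  rw [law_evq]
  by_cases h : τ ω = i
  · rw [if_pos h, if_pos (eq_true h)]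
  · rw [if_neg h, if_neg (fun h' => h (of_eq_true h'))]

/-- **A lower bound on the classes of an event.** -/
theorem low_cls [Fintype U] [DecidableEq U] (hp : IsLaw p) {B : Ω → Prop} (hB : 0 < Pe p B)
    (τ : Ω → U) (X : Ω → S) (W : Ω → T) {π₁ b : ℝ} (hπ : 0 < π₁) (hb : 0 ≤ b)
    (h : ∀ i : U, π₁ ≤ Pe p (fun ω => B ω ∧ τ ω = i) →
      b ≤ CH (Pool.Agent.H49.Ent.cond p (fun ω => B ω ∧ τ ω = i) True) X W) :
    (1 - Fintype.card U * (π₁ / Pe p B)) * b ≤ CH (Pool.Agent.H49.Ent.cond p B True) X W := by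
  have hql : IsLaw (Pool.Agent.H49.Ent.cond p B True) := Pool.TQ.cond_law hp.nonneg hB
  obtain ⟨q, hq⟩ : ∃ q, q = Pool.Agent.H49.Ent.cond p B True := ⟨_, rfl⟩
  rw [← hq] at hql ⊢
  have h0 := hql.nonneg
  have h1 : CH q X (fun ω => (W ω, τ ω)) ≤ CH q X W :=
    CH_mono_cond h0 fun _ _ _ _ e => (Prod.ext_iff.mp e).1
  rw [CH_split h0] at h1
  refine le_trans ?_ h1
  have h2 := sum_law_one hql.sum_one τ
  have hr : 0 ≤ π₁ / Pe p B := by positivity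
  have h3 : ∀ i ∈ univ.image τ, (law q τ i - π₁ / Pe p B) * b ≤
      law q τ i * CH (Pool.Agent.H49.Ent.cond q τ i) X W := by
    intro i _
    have e1 : law q τ i = Pe p (fun ω => B ω ∧ τ ω = i) / Pe p B := by
      rw [law_evq, Pe_cc hB, hq]
      field_simp
    have hl0 : 0 ≤ law q τ i := law_nonneg h0 τ i
    by_cases h4 : π₁ ≤ Pe p (fun ω => B ω ∧ τ ω = i)
    · have e2 : Pool.Agent.H49.Ent.cond q τ i =
          Pool.Agent.H49.Ent.cond p (fun ω => B ω ∧ τ ω = i) True := by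
        rw [cond_evq, hq, cond_cc hB]
      rw [e2]
      have h5 := mul_le_mul_of_nonneg_left (h i h4) hl0
      nlinarith
    · have h5 : law q τ i ≤ π₁ / Pe p B := by
        rw [e1]
        exact div_le_div_of_nonneg_right (not_le.1 h4).le hB.le
      have h6 : 0 ≤ law q τ i * CH (Pool.Agent.H49.Ent.cond q τ i) X W :=
        mul_nonneg hl0 (CH_nonneg (cond_nonneg h0 τ i) _ _)
      nlinarith
  refine le_trans ?_ (Finset.sum_le_sum h3)
  rw [← Finset.sum_mul, Finset.sum_sub_distrib, h2, Finset.sum_const, nsmul_eq_mul]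
  have h7 : ((univ.image τ).card : ℝ) ≤ Fintype.card U := by
    exact_mod_cast (Finset.card_le_univ (univ.image τ))
  have h8 : ((univ.image τ).card : ℝ) * (π₁ / Pe p B) ≤ Fintype.card U * (π₁ / Pe p B) :=
    mul_le_mul_of_nonneg_right h7 hr
  exact mul_le_mul_of_nonneg_right (by linarith) hb

end cls

/-- Near numbers with digits of the same class. -/
theorem floor_z3 {x y : ℝ} (h : |x - y| ≤ 1) (h3 : ((⌊x⌋ : ℤ) : ZMod 3) = ((⌊y⌋ : ℤ) : ZMod 3)) :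
    ⌊x⌋ = ⌊y⌋ := by
  have h1 := abs_le.mp h
  have h2 : ⌊x⌋ ≤ ⌊y⌋ + 1 := by
    rw [← Int.floor_add_one]
    exact Int.floor_mono (by linarith)
  have h4 : ⌊y⌋ ≤ ⌊x⌋ + 1 := by
    rw [← Int.floor_add_one]
    exact Int.floor_mono (by linarith)
  have h5 := (ZMod.intCast_eq_intCast_iff ⌊x⌋ ⌊y⌋ 3).mp h3
  have h6 : ⌊x⌋ % 3 = ⌊y⌋ % 3 := h5
  omega

section fih

variable {m J : ℕ} {F : Fam m J} {c : ℕ → Fin m} {k : ℕ} {mv : Fin k → ℕ}
  {tg qt : Fin 2 → ℕ} {q w W X mm : ℕ} {γ : ℕ → ℕ} {B : F.Ω → Prop}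
  {G₀ : PtT F → ℕ → MvPolynomial (Option (Fin m)) ℝ}
  {H : LnT F → ℕ → MvPolynomial (Option (Fin m)) ℝ} {ζ : Type} {zw : F.Ω → ζ} {p : F.Ω → ℝ}
  {nb : Fin k → ℝ}

/-- **Fullness of the images of the pair** for closed slopes which are functions of the digits. -/
theorem pv_fih (hp : IsLaw p) (hsup : ∀ ω, 0 < p ω → B ω) (hwW : w ≤ W) (hW : W ≤ J)
    (cls : ∀ ω, B ω → (∀ u, G₀ (ptr F J ω) (tg u) = H (slam F w ω) (tg u)) ∧
        ∀ j, G₀ (ptr F J ω) (mv j) = H (slam F w ω) (mv j))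
    (hz : Det p (ptr F J) zw)
    (nb2 : ∀ l, nb l * J ≤ (γ (mv l) + q + (X + mm) : ℕ))
    (cells : ∀ ω ν, 0 < p ω → 0 < p ν → ptr F J ω = ptr F J ν →
        (∀ j, |hgt F c G₀ ω (mv j) - hgt F c G₀ ν (mv j)| ≤
          1 / 2 ^ (γ (mv j) + q + (X + mm))) ∧
        ∀ u, |hgt F c G₀ ω (tg u) - hgt F c G₀ ν (tg u)| ≤ 1 / 2 ^ (γ (tg u) + qt u + X))
    {Y t : ℕ} {Kb b₀ π₁ ϖ₂ : ℝ} (hY : X - Y = mm + t) (hπ : 0 < π₁) (hϖ : 0 < ϖ₂) (hb : 0 ≤ b₀)
    (FI : ∀ (V : Type) (z : PtT F → V) (z' : LnT F → V)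
        (ka : V → ℝ) (E : F.Ω → Prop), (∀ v, |ka v| ≤ Kb) →
        (∀ ω, 0 < p ω → E ω → z (ptr F J ω) = z' (slam F W ω)) → π₁ ≤ Pe p E →
        b₀ ≤ CH (Pool.Agent.H49.Ent.cond p E True)
          (fun ω => ⌊((Mm F c tg w H (fun u => γ (tg u) + qt u + X) ω 1 : ℝ) -
            ka (z' (slam F W ω)) * Mm F c tg w H (fun u => γ (tg u) + qt u + X) ω 0) /
              2 ^ (X - Y)⌋)
          (fun ω => (z' (slam F W ω), (Mm F c tg w H (fun u => γ (tg u) + qt u) ω,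
            (jp F c 0 mv w H nb ω, (F.W ω, zw ω)))))) :
    FIh p (slam F W)
      (fun ω => ((Vm F c mv w H (fun j => nb j * J) ω, Mu F c tg qt w γ H ω),
        (rt F W ω, (zw ω, (slam F W ω).2))))
      (Mm F c tg w H (fun u => γ (tg u) + qt u + X))
      (fun ω => ((Vm F c mv w H (fun j => nb j * J) ω, Mu F c tg qt w γ H ω),
        (rt F W ω, (zw ω, (slam F W ω).2)))) (mm + t) Kb
      ((1 - 3 ^ (k + 2) * (π₁ / ϖ₂)) * b₀) ϖ₂ := by
  classical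
  have h0 := hp.nonneg
  have hw : w ≤ J := hwW.trans hW
  obtain ⟨Z, hZ⟩ : ∃ Z : F.Ω → Fin 2 → ℤ, Z = Mm F c tg w H (fun u => γ (tg u) + qt u + X) :=
    ⟨_, rfl⟩
  obtain ⟨Bs, hBs⟩ : ∃ Bs : F.Ω → _, Bs = fun ω =>
    ((Vm F c mv w H (fun j => nb j * J) ω, Mu F c tg qt w γ H ω),
        (rt F W ω, (zw ω, (slam F W ω).2))) := ⟨_, rfl⟩
  rw [← hZ, ← hBs]
  simp only [← hZ] at FI
  have hup : ∀ ω u, Mu F c tg qt w γ H ω u = Z ω u / 2 ^ X := by
    intro ω u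
    rw [hZ]
    show Mh F c (tg u) w H (γ (tg u) + qt u) ω = Mh F c (tg u) w H (γ (tg u) + qt u + X) ω / 2 ^ X
    rw [mh_up]
  -- the classes
  obtain ⟨τ, hτ⟩ : ∃ τ : F.Ω → (Fin k → ZMod 3) × (Fin 2 → ZMod 3), τ = fun ω =>
    ((fun j => ((jp F c 0 mv w H nb ω j : ℤ) : ZMod 3)), fun u => ((Z ω u : ℤ) : ZMod 3)) :=
    ⟨_, rfl⟩
  have hcard : (Fintype.card ((Fin k → ZMod 3) × (Fin 2 → ZMod 3)) : ℝ) = 3 ^ (k + 2) := by
    rw [Fintype.card_prod, Fintype.card_fun, Fintype.card_fun, Fintype.card_fin,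
      Fintype.card_fin, ZMod.card, ← pow_add]
    push_cast
    rfl
  have hsame : ∀ ω ν, 0 < p ω → 0 < p ν → ptr F J ω = ptr F J ν → τ ω = τ ν →
      Z ω = Z ν ∧ Bs ω = Bs ν := by
    intro ω ν hω hν e1 e2
    obtain ⟨g1, g2⟩ := cells ω ν hω hν e1
    have c1 := cls ω (hsup ω hω)
    have c2 := cls ν (hsup ν hν)
    rw [hτ] at e2
    obtain ⟨e3, e4⟩ := Prod.ext_iff.mp e2
    have eZ : Z ω = Z ν := by
      funext u
      have e5 := congrFun e4 u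
      rw [hZ] at e5 ⊢
      have h5 := g2 u
      rw [hgt_ojet hw (c1.1 u), hgt_ojet hw (c2.1 u)] at h5
      have p1 : (0 : ℝ) < 2 ^ (γ (tg u) + qt u + X) := by positivity
      refine floor_z3 ?_ e5
      rw [← mul_sub, abs_mul, abs_of_pos p1]
      have h6 := mul_le_mul_of_nonneg_left h5 p1.le
      rwa [mul_one_div_cancel p1.ne'] at h6
    have eV : jp F c 0 mv w H nb ω = jp F c 0 mv w H nb ν := by
      funext j
      have e5 := congrFun e3 j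
      have h5 := g1 j
      rw [hgt_ojet hw (c1.2 j), hgt_ojet hw (c2.2 j)] at h5
      have p1 : (0 : ℝ) < (2 : ℝ) ^ (nb j * J) := Real.rpow_pos_of_pos two_pos _
      have p2 : (0 : ℝ) < (2 : ℝ) ^ (γ (mv j) + q + (X + mm)) := by positivity
      refine floor_z3 ?_ e5
      rw [← mul_sub, abs_mul, abs_of_pos p1]
      have h7 : (2 : ℝ) ^ (nb j * J) ≤ 2 ^ (γ (mv j) + q + (X + mm)) := by
        rw [← Real.rpow_natCast]
        exact Real.rpow_le_rpow_of_exponent_le one_le_two (nb2 j)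
      refine (mul_le_mul h7 h5 (abs_nonneg _) p2.le).trans (le_of_eq ?_)
      exact mul_one_div_cancel p2.ne'
    refine ⟨eZ, ?_⟩
    rw [hBs]
    have eM : Mu F c tg qt w γ H ω = Mu F c tg qt w γ H ν := by
      funext u
      rw [hup, hup, eZ]
    have eW : F.W ω = F.W ν := (Prod.ext_iff.mp e1).2
    have eT : F.T ω = F.T ν := (Prod.ext_iff.mp eW).1
    have eS : F.Z ω = F.Z ν := (Prod.ext_iff.mp eW).2
    have e6 : F.T1 W ω = F.T1 W ν := by
      unfold Fam.T1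
      rw [eT]
    exact Prod.ext (Prod.ext eV eM) (Prod.ext (rt_of F hW eT) (Prod.ext (hz ω ν hω hν e1)
      (Prod.ext eS e6)))
  -- the claim
  intro kL kP ka E hka hkk hE hE0
  have key := low_cls hp hE0 τ
    (fun ω => ⌊((Z ω 1 : ℝ) - ka (kL (slam F W ω)) * Z ω 0) / 2 ^ (mm + t)⌋)
    (fun ω => (kL (slam F W ω), Bs ω)) hπ hb (fun i hi => ?_)
  · refine le_trans ?_ key
    refine mul_le_mul_of_nonneg_right ?_ hb
    rw [hcard]
    have h1 : π₁ / Pe p E ≤ π₁ / ϖ₂ := div_le_div_of_nonneg_left hπ.le hϖ hE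
    have h2 : (3 : ℝ) ^ (k + 2) * (π₁ / Pe p E) ≤ 3 ^ (k + 2) * (π₁ / ϖ₂) :=
      mul_le_mul_of_nonneg_left h1 (by positivity)
    linarith
  · have h1 := FI ℤ (fun y => if hy : ∃ ω, 0 < p ω ∧ (E ω ∧ τ ω = i) ∧ ptr F J ω = y then
      kP (Z hy.choose, Bs hy.choose) else 0) kL ka (fun ω => E ω ∧ τ ω = i) hka
      (fun ω hω hEω => by
        have hy : ∃ ω', 0 < p ω' ∧ (E ω' ∧ τ ω' = i) ∧ ptr F J ω' = ptr F J ω :=
          ⟨ω, hω, hEω, rfl⟩
        rw [dif_pos hy]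
        obtain ⟨a1, a2, a3⟩ := hy.choose_spec
        obtain ⟨b1, b2⟩ := hsame _ ω a1 hω a3 (a2.2.trans hEω.2.symm)
        rw [b1, b2]
        exact (hkk ω hω hEω.1).symm) hi
    rw [hY] at h1
    refine h1.trans ?_
    refine CH_mono_cond (cond_nonneg h0 _ _) fun ω ν a b e => ?_
    obtain ⟨e1, e2⟩ := Prod.ext_iff.mp e
    obtain ⟨e3, e4⟩ := Prod.ext_iff.mp e2
    obtain ⟨e5, e6⟩ := Prod.ext_iff.mp e4
    obtain ⟨e7, e8⟩ := Prod.ext_iff.mp e6
    have eT : F.T ω = F.T ν := (Prod.ext_iff.mp e7).1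
    have eS : F.Z ω = F.Z ν := (Prod.ext_iff.mp e7).2
    have e9 : F.T1 W ω = F.T1 W ν := by
      unfold Fam.T1
      rw [eT]
    rw [hBs]
    exact Prod.ext e1 (Prod.ext (Prod.ext e5 e3) (Prod.ext (rt_of F hW eT) (Prod.ext e8
      (Prod.ext eS e9))))

end fih

end Pool.V0P
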