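import Pool.Agent.H25.V0P.Fih
import Pool.Agent.H44.V0F.Ev3

/-!
# The pair event theorem

`v0pFin`: the statement `V0pFin`.
-/

set_option autoImplicit false

namespace Pool.V0P

open Finset Real MvPolynomial
open Pool.Agent.H49.Ent Pool.Agent.H32.Dense
open Pool.STK hiding pr2
open Pool.KA Pool.KSAT Pool.K2S Pool.PB Pool.S6C
open Pool.GEN Pool.CHT Pool.CHX Pool.ISO Pool.LA91 Pool.AVG71 Pool.AVG5 Pool.D2F2 Pool.AVG57
open Pool.PB.Trl (rt rt_mem t_rt)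
open Pool.LV64 (GrdV PrV Vm Mm Mu adV adV_ti CH_pi Evn VD mh_up)
open Pool.KVA (MI)
open Pool.D2R (hgt)
open Pool.KAF (rs Pr)
open Pool.BFL (Pb)
open Pool.V0F (VLaw2 VLaw mi_side CH_sgn CH_dig CH_ge CH_tr cE0_le log_two_pow)
open Pool.DIR16 (FIh Pe_cc cond_cc la pv_u)

/-- **The numbers.** -/
theorem v0p_nums (k K : ℕ) {ι : ℝ} (hι : 0 < ι) : ∃ (τ : ℝ) (X₁ : ℕ), 0 < τ ∧
    ∀ (X mm : ℕ) (κ d e₁ Ca ψJ U : ℝ), X₁ ≤ X → 0 ≤ κ → 0 ≤ d → 0 ≤ e₁ → 0 ≤ Ca → 0 ≤ ψJ →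
      κ + d + e₁ + Ca + ψJ ≤ τ * X → (mm : ℝ) ≤ τ * X → 0 ≤ U → U + 1 ≤ 2 ^ mm →
      Evn 2 k K U (65 * κ + (2 : ℕ) * Real.log 2 + k * (d * Real.log 2 + Real.log 5) +
        (k + 1) * e₁ + Ca + ψJ) ≤ ι * X ∧
      Fwn 2 k K U (65 * κ + (2 : ℕ) * Real.log 2 + k * (d * Real.log 2 + Real.log 5) +
        (k + 1) * e₁ + Ca + ψJ) d κ ≤ ι * X := by
  obtain ⟨B, hB0, hB⟩ := cE0_le k K
  have hl2 : 0 < Real.log 2 := Real.log_pos one_lt_two
  have hl2' : Real.log 2 ≤ 1 := by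
    have := Real.log_two_lt_d9
    linarith
  have hl5 : 0 < Real.log 5 := Real.log_pos (by norm_num)
  have hl5' : Real.log 5 ≤ 2 := by
    rw [Real.log_le_iff_le_exp (by norm_num)]
    have h1 := Real.exp_one_gt_d9
    have h2 : Real.exp 2 = Real.exp 1 * Real.exp 1 := by rw [← Real.exp_add]; norm_num
    rw [h2]
    nlinarith
  have hcV := cV_nonneg K
  have hk0 : (0 : ℝ) ≤ k := Nat.cast_nonneg k
  obtain ⟨l₀, hl₀⟩ : ∃ l₀ : ℝ, l₀ = Real.log (2 * (k + 1) + 3) := ⟨_, rfl⟩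
  have hl₀0 : 0 ≤ l₀ := by
    rw [hl₀]
    exact Real.log_nonneg (by linarith)
  obtain ⟨T₁, hT₁⟩ : ∃ T₁ : ℝ, T₁ = 43 + 2 * (12 * (2 * k + 68) + 3 * (k + 1)) := ⟨_, rfl⟩
  obtain ⟨T₀, hT₀⟩ : ∃ T₀ : ℝ, T₀ = 6 * k + 24 + 2 * l₀ + 2 * cV K +
    2 * (12 * (2 * k + 2) + 3 * B + k * cV K) := ⟨_, rfl⟩
  have hT₁0 : 1 ≤ T₁ := by rw [hT₁]; linarith
  have hkV : 0 ≤ k * cV K := by positivity
  have hT₀0 : 0 ≤ T₀ := by rw [hT₀]; linarith
  obtain ⟨X₁, hX₁⟩ := exists_nat_ge (2 * T₀ / ι)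
  refine ⟨ι / (2 * T₁), X₁, by positivity, ?_⟩
  intro X mm κ d e₁ Ca ψJ U hX hκ hd he1 hCa hψ hs hmm hU hU2
  have hX0 : (0 : ℝ) ≤ X := Nat.cast_nonneg X
  have hXR : (X₁ : ℝ) ≤ X := by exact_mod_cast hX
  obtain ⟨x, hx⟩ : ∃ x : ℝ, x = ι / (2 * T₁) * X := ⟨_, rfl⟩
  rw [← hx] at hs hmm
  have hTx : T₁ * x = ι * X / 2 := by
    rw [hx]
    field_simp
  have hTX : T₀ ≤ ι * X / 2 := by
    have := hX₁.trans hXR
    rw [div_le_iff₀ hι] at this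
    linarith
  have hx0 : 0 ≤ x := by rw [hx]; positivity
  obtain ⟨c1, _⟩ := hB U mm hU (by linarith)
  have hmm0 : (0 : ℝ) ≤ mm := Nat.cast_nonneg mm
  have c3 : Real.log (2 * ((k + 1) * U + 1) + 1) ≤ mm + l₀ := by
    have := log_two_pow (a := 2 * (k + 1)) (b := 3) (by positivity) (by norm_num) hU
      (n := mm) (by linarith)
    rw [hl₀]
    rwa [show 2 * ((k + 1) * U + 1) + 1 = 2 * (k + 1) * U + 3 by ring]
  obtain ⟨e, he⟩ : ∃ e : ℝ, e = 65 * κ + (2 : ℕ) * Real.log 2 +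
    k * (d * Real.log 2 + Real.log 5) + (k + 1) * e₁ + Ca + ψJ := ⟨_, rfl⟩
  rw [← he]
  have hd2 : d * Real.log 2 ≤ d := mul_le_of_le_one_right hd hl2'
  have hkd : (k : ℝ) * (d * Real.log 2 + Real.log 5) ≤ k * (x + 2) :=
    mul_le_mul_of_nonneg_left (by linarith) hk0
  have hke : ((k : ℝ) + 1) * e₁ ≤ (k + 1) * x := mul_le_mul_of_nonneg_left (by linarith)
    (by linarith)
  have he2 : e ≤ (2 * k + 68) * x + (2 * k + 2) := by
    rw [he]
    push_cast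
    nlinarith
  have hkm : ((k : ℝ) + 1) * mm ≤ (k + 1) * x := mul_le_mul_of_nonneg_left hmm (by linarith)
  have hE : Evn 2 k K U e ≤ (12 * (2 * k + 68) + 3 * (k + 1)) * x +
      (12 * (2 * k + 2) + 3 * B + k * cV K) := by
    unfold Evn
    push_cast
    nlinarith
  have hkx : 0 ≤ (k : ℝ) * x := by positivity
  have hEx : 0 ≤ (12 * (2 * (k : ℝ) + 68) + 3 * (k + 1)) * x := by positivity
  constructor
  · have h1 : (12 * (2 * (k : ℝ) + 68) + 3 * (k + 1)) * x ≤ T₁ * x := by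
      refine mul_le_mul_of_nonneg_right ?_ hx0
      rw [hT₁]
      linarith
    have h2 : 12 * (2 * (k : ℝ) + 2) + 3 * B + k * cV K ≤ T₀ := by
      rw [hT₀]
      linarith
    linarith
  · unfold Fwn
    have h3 : 3 * (k * Real.log 5) ≤ 6 * k := by nlinarith
    push_cast
    have h4 : 3 * (2 * (d * Real.log 2 + Real.log 5)) ≤ 6 * x + 12 := by linarith
    have h5 : 35 * κ ≤ 35 * x := by linarith
    have h6 : T₁ * x = 43 * x + 2 * ((12 * (2 * (k : ℝ) + 68) + 3 * (k + 1)) * x) := by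
      rw [hT₁]
      ring
    have h7 : 2 * Real.log (2 * ((k + 1) * U + 1) + 1) ≤ 2 * x + 2 * l₀ := by linarith
    linarith

/-- **The pair event theorem**: the statement. -/
theorem v0pFin : V0pFin := by
  intro k K h κ₂ ε hK hh hh1 hκ hκh hε
  obtain ⟨ι, π₀, hι, hπ₀, X₀, hpv⟩ := pv_u k K hK (x₀ := κ₂) (σ := 1) hh hh1 hκ hκh one_pos hε
  obtain ⟨Ca, hCa, hprv⟩ := prvGen k 2 K
  obtain ⟨τ₁, X₁, hτ₁, hnum⟩ := v0p_nums k K hι
  have hl2 : 0 < Real.log 2 := Real.log_pos one_lt_two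
  have hl2' : Real.log 2 ≤ 1 := by
    have := Real.log_two_lt_d9
    linarith
  have hl2'' : 1 / 2 ≤ Real.log 2 := by
    have := Real.log_two_gt_d9
    linarith
  obtain ⟨π₁, hπ₁⟩ : ∃ π₁ : ℝ, π₁ = min π₀ 1 * min ι 1 / (4 * 3 ^ (k + 2)) := ⟨_, rfl⟩
  have h3k : (1 : ℝ) ≤ 3 ^ (k + 2) := one_le_pow₀ (by norm_num)
  have hm1 : 0 < min π₀ 1 := lt_min hπ₀ one_pos
  have hm2 : 0 < min ι 1 := lt_min hι one_pos
  have hπ₁0 : 0 < π₁ := by rw [hπ₁]; positivity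
  have hπ₁a : 3 ^ (k + 2) * (π₁ / π₀) ≤ min ι 1 / 4 := by
    have e1 : 3 ^ (k + 2) * (π₁ / π₀) = min π₀ 1 / π₀ * (min ι 1 / 4) := by
      rw [hπ₁]
      field_simp
    rw [e1]
    have e2 : min π₀ 1 / π₀ ≤ 1 := by
      rw [div_le_one hπ₀]
      exact min_le_left _ _
    have e3 : 0 ≤ min ι 1 / 4 := by positivity
    nlinarith
  have hπ₁b : π₁ ≤ min π₀ 1 := by
    rw [hπ₁, div_le_iff₀ (by positivity)]
    have e1 : min ι 1 ≤ 1 := min_le_right _ _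
    nlinarith
  obtain ⟨τ, hτ⟩ : ∃ τ : ℝ, τ = min τ₁ (min (ι / 8) (h / 16)) := ⟨_, rfl⟩
  have hτ0 : 0 < τ := by
    rw [hτ]
    exact lt_min hτ₁ (lt_min (by positivity) (by positivity))
  have hτa : τ ≤ τ₁ := by rw [hτ]; exact min_le_left _ _
  have hτb : τ ≤ ι / 8 := by rw [hτ]; exact (min_le_right _ _).trans (min_le_left _ _)
  have hτc : τ ≤ h / 16 := by rw [hτ]; exact (min_le_right _ _).trans (min_le_right _ _)
  obtain ⟨X₂, hX₂⟩ := exists_nat_ge (16 / h)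
  refine ⟨π₁, τ, 1, Ca, 0, max (max X₀ X₁) (max K X₂), hπ₁0, hπ₁b.trans (min_le_right _ _), hτ0,
    one_pos, hCa, ?_⟩
  intro m J F c mv tg qt q w W X mm D γ B G₀ H gg ζ χ₁ χ₂ ρ₁ ρ₂ ρ₃ ξ₆ zw Cj Cx Rj Rx R' XJ p Nf Nn
    Nu Nv nb Mf Mn vt U Fv Gf κ' e₁ d ψ hp sup wW hWX deg DK cls grd mU V hj hx zL zP n0 n1 u0 u1
    m0 m0' mf mf' v0' vs hc2 f0 f1 v0 v1 hv1 hd0 hv0 dj jt hD hf nb1 nb2 cells row FI T hX hs hmm
  have h0 := hp.nonneg
  have hW : W ≤ J := by omega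
  have hX0 : (0 : ℝ) ≤ X := Nat.cast_nonneg X
  have hXX0 : X₀ ≤ X := (le_max_left _ _).trans ((le_max_left _ _).trans hX)
  have hXX1 : X₁ ≤ X := (le_max_right _ _).trans ((le_max_left _ _).trans hX)
  have hXK : K ≤ X := (le_max_left _ _).trans ((le_max_right _ _).trans hX)
  have hXX2 : X₂ ≤ X := (le_max_right _ _).trans ((le_max_right _ _).trans hX)
  have hhX : 1 ≤ h / 16 * X := by
    have h1 : (X₂ : ℝ) ≤ X := by exact_mod_cast hXX2
    have h2 := hX₂.trans h1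
    rw [div_le_iff₀ hh] at h2
    linarith
  have hκ0 := V.κ0
  have he1 : 0 ≤ e₁ := (CH_nonneg h0 _ _).trans (dj 0)
  have hψ : 0 ≤ ψ * J := by
    have h1 := T.mi (F.T1 W) (fun ω ν _ _ e => (Prod.ext_iff.mp (Prod.ext_iff.mp e).2).2)
      (fun _ _ _ _ e => e)
    refine le_trans ?_ h1
    rw [MI_eq h0]
    have := CH_mono_cond h0 (X := F.T) (W' := fun ω => (slam F W ω, F.T1 W ω)) (W := F.T1 W)
      (fun ω ν _ _ e => (Prod.ext_iff.mp e).2)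
    linarith
  obtain ⟨z, hz⟩ : ∃ z : F.Ω → ζ × (F.ζ × ℕ), z = fun ω => (zw ω, (slam F W ω).2) := ⟨_, rfl⟩
  have hWz : ∀ ω ν, F.W ω = F.W ν → zw ω = zw ν → rt F W ω = rt F W ν ∧ z ω = z ν := by
    intro ω ν e1 e2
    have eT : F.T ω = F.T ν := (Prod.ext_iff.mp e1).1
    have eS : F.Z ω = F.Z ν := (Prod.ext_iff.mp e1).2
    have e6 : F.T1 W ω = F.T1 W ν := by
      unfold Fam.T1
      rw [eT]
    rw [hz]
    exact ⟨rt_of F hW eT, Prod.ext e2 (Prod.ext eS e6)⟩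
  have hzW : ∀ ω ν, rt F W ω = rt F W ν → z ω = z ν → zw ω = zw ν ∧ F.W ω = F.W ν := by
    intro ω ν e1 e2
    rw [hz] at e2
    obtain ⟨e3, e4⟩ := Prod.ext_iff.mp e2
    obtain ⟨e5, e6⟩ := Prod.ext_iff.mp e4
    exact ⟨e3, Prod.ext (time_eq F hW e6 e1).1 e5⟩
  have hy1 : Det p (fun ω => (zw ω, F.W ω)) (fun ω => (rt F W ω, z ω)) := fun ω ν _ _ e => by
    obtain ⟨e1, e2⟩ := Prod.ext_iff.mp e
    exact Prod.ext (hWz ω ν e2 e1).1 (hWz ω ν e2 e1).2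
  have hy2 : Det p (fun ω => (rt F W ω, z ω)) (fun ω => (zw ω, F.W ω)) := fun ω ν _ _ e => by
    obtain ⟨e1, e2⟩ := Prod.ext_iff.mp e
    exact Prod.ext (hzW ω ν e1 e2).1 (hzW ω ν e1 e2).2
  have hz1 : Det p z (fun ω => (slam F W ω).2) := fun ω ν _ _ e => by
    rw [hz] at e
    exact (Prod.ext_iff.mp e).2
  have hz2 : Det p (slam F W) z := fun ω ν hω hν e => by
    rw [hz]
    exact Prod.ext (zL ω ν hω hν e) (Prod.ext_iff.mp e).2
  have hgrd : GrdV F c mv tg qt (fun _ => X) q X γ U B G₀ gg z Cj Cx :=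
    { U0 := grd.U0
      bm := grd.bm
      bj := fun ω ν a b e1 _ e3 e4 => grd.bj ω ν a b e1 rfl e3 e4
      bx := fun ω ν a b e1 _ e3 e4 => grd.bx ω ν a b e1 rfl e3 e4
      nx := fun ω ν a b e1 _ e3 e4 => grd.nx ω ν a b e1 rfl e3 e4 }
  have hτX : κ' + d + e₁ + Ca + ψ * J ≤ τ₁ * X :=
    hs.trans (mul_le_mul_of_nonneg_right hτa hX0)
  have hmX : (mm : ℝ) ≤ τ₁ * X := hmm.trans (mul_le_mul_of_nonneg_right hτa hX0)
  obtain ⟨q1, q2⟩ := hnum X mm κ' d e₁ Ca (ψ * J) U hXX1 hκ0 hd0 he1 hCa hψ hτX hmX grd.U0 mU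
  have P := hprv (F := F) (c := c) (mv := mv) (tg := tg) (qt := qt) (Xt := fun _ => X) hp sup wW
    hW deg DK hXK (fun _ => le_rfl) cls hgrd mU hz1 hz2 hy1 hy2 V hj hx n0 n1 u0 u1 m0 mf v0' vs
    hc2 f0 f1 v0 v1 hv1 hd0 hv0 dj jt hD hf T he1 le_rfl
  have few := pv_few P V hx hy1 hy2 nb1 nb2 f0 m0 m0' mf mf' hd0
  -- the blocks
  have hla1 : 7 / 16 * h ≤ la h := by
    unfold la
    nlinarith
  have hla2 : la h ≤ 1 / 2 := by
    unfold la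
    nlinarith [sq_nonneg (h - 1)]
  have hla0 : 0 ≤ la h * X := by
    have : 0 ≤ la h := le_trans (by positivity) hla1
    positivity
  obtain ⟨L, hL⟩ : ∃ L : ℕ, L = ⌊la h * X⌋₊ := ⟨_, rfl⟩
  have hL1 : (L : ℝ) ≤ la h * X := by rw [hL]; exact Nat.floor_le hla0
  have hL2 : la h * X < L + 1 := by rw [hL]; exact Nat.lt_floor_add_one _
  have hlaX : la h * X ≤ 1 / 2 * X := mul_le_mul_of_nonneg_right hla2 hX0
  have hlaX' : 7 / 16 * h * X ≤ la h * X := mul_le_mul_of_nonneg_right hla1 hX0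
  have hmmh : (mm : ℝ) ≤ h / 16 * X := hmm.trans (mul_le_mul_of_nonneg_right hτc hX0)
  have hmL : mm ≤ L := by
    have h1 : (mm : ℝ) ≤ L := by linarith
    exact_mod_cast h1
  have hLX : L ≤ X := by
    have h1 : (L : ℝ) ≤ X := by linarith
    exact_mod_cast h1
  obtain ⟨t, ht⟩ : ∃ t : ℕ, t = X - L := ⟨_, rfl⟩
  obtain ⟨Y, hY⟩ : ∃ Y : ℕ, Y = L - mm := ⟨_, rfl⟩
  have htX : t ≤ X := by omega
  have hXt : (X : ℝ) - t = L := by
    have h1 : t + L = X := by omega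
    have h2 : (t : ℝ) + L = X := by exact_mod_cast h1
    linarith
  have hYL : (Y : ℝ) = L - mm := by
    have h1 : Y + mm = L := by omega
    have h2 : (Y : ℝ) + mm = L := by exact_mod_cast h1
    linarith
  have hXY : X - Y = mm + t := by omega
  have hXY' : X = Y + (mm + t) := by omega
  have hY1 : h / 4 * X ≤ Y := by
    rw [hYL]
    nlinarith
  have hY2 : 2 * Y ≤ X := by
    have h1 : (2 : ℝ) * Y ≤ X := by
      rw [hYL]
      have : (0 : ℝ) ≤ mm := Nat.cast_nonneg mm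
      linarith
    exact_mod_cast h1
  have hYX : Y ≤ X := by omega
  -- fullness
  have hb₀ : 0 ≤ Y * Real.log 2 - τ * X := by
    have h1 : h / 4 * X * (1 / 2) ≤ Y * Real.log 2 := mul_le_mul hY1 hl2'' (by norm_num)
      (Nat.cast_nonneg Y)
    have h2 : τ * X ≤ h / 16 * X := mul_le_mul_of_nonneg_right hτc hX0
    nlinarith
  have hfi := pv_fih (c := c) (mv := mv) (tg := tg) (qt := qt) (q := q) (γ := γ) (G₀ := G₀)
    (H := H) (nb := nb) hp sup wW hW cls zP nb2 cells (Y := Y) (t := t)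
    (Kb := (2 : ℝ) ^ (h ^ 2 / 16 * X)) hXY hπ₁0 hπ₀ hb₀ (FI Y hY1 hY2)
  rw [← hXY] at hfi
  have hMM : ∀ ω u, Mm F c tg w H (fun u => γ (tg u) + qt u + X) ω u / 2 ^ (mm + t) =
      Mm F c tg w H (fun u => γ (tg u) + qt u + Y) ω u := by
    intro ω u
    have e1 : γ (tg u) + qt u + X = γ (tg u) + qt u + Y + (mm + t) := by omega
    show Mh F c (tg u) w H (γ (tg u) + qt u + X) ω / 2 ^ (mm + t) =
      Mh F c (tg u) w H (γ (tg u) + qt u + Y) ω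
    rw [e1, mh_up]
  have hcnd : ∀ (E : Set F.Ω), Det (rs p E)
      (fun ω => ((Vm F c mv w H (fun j => nb j * J) ω, Mu F c tg qt w γ H ω),
        (rt F W ω, z ω)))
      (fun ω => (Mm F c tg w H (fun u => γ (tg u) + qt u) ω,
            (jp F c 0 mv w H nb ω, (F.W ω, zw ω)))) := by
    intro E ω ν _ _ e
    obtain ⟨e1, e2⟩ := Prod.ext_iff.mp e
    obtain ⟨e3, e4⟩ := Prod.ext_iff.mp e1
    obtain ⟨e5, e6⟩ := Prod.ext_iff.mp e2
    obtain ⟨e7, e8⟩ := hzW ω ν e5 e6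
    exact Prod.ext e4 (Prod.ext e3 (Prod.ext e8 e7))
  have hτι : τ * X ≤ ι / 8 * X := mul_le_mul_of_nonneg_right hτb hX0
  have hιX : 0 ≤ ι * X := by positivity
  obtain ⟨mu, b1, -, b3, -⟩ := hpv P (Ur := (2 - h) * X * Real.log 2 + τ * X)
    (Ur' := (2 - h) * Y * Real.log 2 + τ * X)
    (b₁ := (1 - 3 ^ (k + 2) * (π₁ / π₀)) * (Y * Real.log 2 - τ * X)) (ψ := ψ) (ε₀ := 1)
    (j₀ := 0) (t := t)
    (Bs := fun ω => ((Vm F c mv w H (fun j => nb j * J) ω, Mu F c tg qt w γ H ω),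
        (rt F W ω, z ω))) nb1 nb2 (fun _ => rfl)
    (fun ω ν _ _ e => by
      obtain ⟨e1, e2⟩ := Prod.ext_iff.mp e
      obtain ⟨e3, e4⟩ := Prod.ext_iff.mp e2
      have e5 : rt F W ω = rt F W ν := (Prod.ext_iff.mp e3).1
      have e6 : z ω = z ν := (Prod.ext_iff.mp e4).1
      exact Prod.ext e1 (Prod.ext e5 e6))
    (few.trans q2)
    (fun E hE => by
      have h1 := row X (by nlinarith) le_rfl E
        ((hπ₁b.trans (min_le_left _ _)).trans hE)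
      exact (CH_mono_cond (cond_nonneg h0 _ _) (hcnd E)).trans h1)
    (fun E hE => by
      have h1 := row Y hY1 hYX E ((hπ₁b.trans (min_le_left _ _)).trans hE)
      have e1 : (fun ω u => Mm F c tg w H (fun u => γ (tg u) + qt u + X) ω u / 2 ^ (mm + t)) =
        Mm F c tg w H (fun u => γ (tg u) + qt u + Y) := by
        funext ω u
        exact hMM ω u
      show CH (rs p E) (fun ω u => Mm F c tg w H (fun u => γ (tg u) + qt u + X) ω u /
        2 ^ (mm + t)) _ ≤ _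
      rw [e1]
      exact (CH_mono_cond (cond_nonneg h0 _ _) (hcnd E)).trans h1)
    (by
      rw [hXY] at hfi
      rw [hz]
      exact hfi)
    T hz2 hXX0 hWX (by linarith) (by linarith) q1 htX (by rw [hXt]; exact hL1)
    (by rw [hXt]; linarith) (by linarith)
    (by
      have h1 : (2 - h) * Y ≤ (2 - h) * (L : ℝ) := by
        refine mul_le_mul_of_nonneg_left ?_ (by linarith)
        rw [hYL]
        have : (0 : ℝ) ≤ mm := Nat.cast_nonneg mm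
        linarith
      have h2 := mul_le_mul_of_nonneg_right h1 hl2.le
      rw [hXt]
      linarith)
    (by
      rw [hXt]
      have h1 : (L : ℝ) * Real.log 2 - Y * Real.log 2 ≤ τ * X := by
        rw [hYL]
        have h3 : (mm : ℝ) * Real.log 2 ≤ mm := mul_le_of_le_one_right (Nat.cast_nonneg mm) hl2'
        nlinarith
      have h2 : (3 ^ (k + 2) * (π₁ / π₀)) * (Y * Real.log 2 - τ * X) ≤ ι / 4 * X := by
        have h3 : Y * Real.log 2 - τ * X ≤ X := by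
          have h4 : (Y : ℝ) ≤ X := by exact_mod_cast hYX
          have h5 : (Y : ℝ) * Real.log 2 ≤ Y := mul_le_of_le_one_right (Nat.cast_nonneg Y) hl2'
          have h6 : 0 ≤ τ * X := by positivity
          linarith
        have h4 : min ι 1 ≤ ι := min_le_left _ _
        exact mul_le_mul (hπ₁a.trans (by linarith)) h3 hb₀ (by positivity)
      nlinarith)
  exact ⟨mu, b1, b3⟩

end Pool.V0P
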