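import Pool.Agent.H25.V0P.Alt
import Pool.Agent.H25.V0D.Alt
import Pool.Agent.H48.V0T.Par2

/-!
# One and two targets, the last one is the pivot

`v0tFinF0`, `v0tFinF1`: the statements `V0tFinF 0` and `V0tFinF 1`.
-/

set_option autoImplicit false

namespace Pool.V0P

open Finset Real MvPolynomial
open Pool.Agent.H49.Ent Pool.Agent.H32.Dense
open Pool.STK hiding pr2
open Pool.KA Pool.KSAT Pool.K2S Pool.PB Pool.S6C
open Pool.GEN Pool.CHT Pool.CHX Pool.ISO Pool.LA91 Pool.AVG71 Pool.AVG5 Pool.D2F2 Pool.AVG57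
open Pool.PB.Trl (rt)
open Pool.LV64 (GrdV PrV Vm Mm)
open Pool.D2R (hgt)
open Pool.KAF (rs Pr)
open Pool.BFL (Pb)
open Pool.V0F (VLaw2)
open Pool.V0T (V0tFinF)

/-- The law for other names of the last digits. -/
theorem vlaw2_congr {Ω ζ ρ₁ ρ₂ ρ₃ υ ξ₁ ξ₂ ξ₃ ξ₇ ξ₄ ξ₅ ξ₄' ξ₅' ξ₆ : Type} [Fintype Ω] {p : Ω → ℝ}
    {zw : Ω → ζ} {Rj : Ω → ρ₁} {Rx : Ω → ρ₂} {R' : Ω → ρ₃} {y : Ω → υ} {Xq : Ω → ξ₁} {Xp : Ω → ξ₂}
    {Uq : Ω → ξ₃} {Up : Ω → ξ₇} {N1 : Ω → ξ₄} {N2 : Ω → ξ₅} {XJ : Ω → ξ₆} {Fv Gf κ : ℝ}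
    (h : VLaw2 p zw Rj Rx R' y Xq Xp Uq Up N1 N2 XJ Fv Gf κ) {N1' : Ω → ξ₄'} {N2' : Ω → ξ₅'}
    (h1 : Det p N1 N1') (h1' : Det p N1' N1) (h2 : Det p N2 N2') (h2' : Det p N2' N2) :
    VLaw2 p zw Rj Rx R' y Xq Xp Uq Up N1' N2' XJ Fv Gf κ := by
  have h0 := h.h0
  refine { h with n1 := ?_, n2 := ?_, nl := ?_ }
  · exact (CH_mono_left h0 fun ω ω' a b e => h1 ω ω' a b (Prod.ext_iff.mp e).1).trans h.n1
  · exact (CH_mono_left h0 fun ω ω' a b e => h2 ω ω' a b (Prod.ext_iff.mp e).1).trans h.n2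
  · have e1 : CH p N2' (fun ω => (N1' ω, (XJ ω, (zw ω, y ω)))) =
        CH p N2 (fun ω => (N1 ω, (XJ ω, (zw ω, y ω)))) := by
      refine CH_congr h0 (fun ω ω' a b e => h2' ω ω' a b (Prod.ext_iff.mp e).1)
        (fun ω ω' a b e => h2 ω ω' a b (Prod.ext_iff.mp e).1) ?_ ?_
      · intro ω ω' a b e
        obtain ⟨e1, e2⟩ := Prod.ext_iff.mp e
        exact Prod.ext (h1' ω ω' a b e1) e2
      · intro ω ω' a b e
        obtain ⟨e1, e2⟩ := Prod.ext_iff.mp e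
        exact Prod.ext (h1 ω ω' a b e1) e2
    have e2 : CH p N2' (fun ω => (XJ ω, (Rj ω, y ω))) = CH p N2 (fun ω => (XJ ω, (Rj ω, y ω))) :=
      CH_congr h0 (fun ω ω' a b e => h2' ω ω' a b (Prod.ext_iff.mp e).1)
        (fun ω ω' a b e => h2 ω ω' a b (Prod.ext_iff.mp e).1) (fun _ _ _ _ e => e)
        (fun _ _ _ _ e => e)
    rw [e1, e2]
    exact h.nl

theorem rev_det {Ω α : Type} [Fintype Ω] {n : ℕ} (p : Ω → ℝ) (Z : Ω → Fin n → α) :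
    Det p Z (fun ω u => Z ω (Fin.rev u)) := fun ω ω' _ _ e => by
  funext u
  exact congrFun e (Fin.rev u)

theorem rev_det' {Ω α : Type} [Fintype Ω] {n : ℕ} (p : Ω → ℝ) (Z : Ω → Fin n → α) :
    Det p (fun ω u => Z ω (Fin.rev u)) Z := fun ω ω' _ _ e => by
  funext u
  have h1 := congrFun e (Fin.rev u)
  simp only [Fin.rev_rev] at h1
  exact h1

/-- **One target.** -/
theorem v0tFinF0 : V0tFinF 0 := by
  intro k K h θ hK hh hh1 hθ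
  obtain ⟨κ₂, ζ₂, hκζ, π₀, m₀, τ, ε₀, Ca, j₀, X₀, a1, a2, a3, a4, a5, a6, H1⟩ :=
    v0tFin1 k K h θ hK hh hh1 hθ
  obtain ⟨b1, b2, b3, b4⟩ := hκζ 0
  refine ⟨κ₂ 0, ζ₂ 0, b1, b2, b3, b4, 1, π₀, m₀, τ, ε₀, Ca, j₀, X₀, one_pos, le_refl _, a1, a2, a3,
    a4, a5, a6, ?_⟩
  intro m J F c mv tg qt q w W X mm D γ B G₀ H gg ζ χ₁ χ₂ ρ₁ ρ₂ ρ₃ ξ₆ zw Cj Cx Rj Rx R' XJ p Nf Nn
    Nu Nv nb Mf Mn vt U Fv Gf κ' e₁ d ψ hp sup wW hWX deg DK cls grd mU V hj hx zL zP n0 n1 u0 u1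
    m0 m0' mf mf' v0' vs hc2 f0 f1 v0 v1 hv1 hd0 hv0 dj jt hD hf nb1 nb2 cells row ful T hX hs hmm
  have hfl : 1 * ⌊(1 : ℝ) * X⌋₊ = X := by simp
  obtain ⟨i, G, lam, lamP, mu, c1, c2, c3, c4, c5, c6⟩ := H1 hp sup wW hWX deg DK cls grd mU V hj hx
    zL zP n0 n1 u0 u1 m0 m0' mf mf' v0' vs hc2 f0 f1 v0 v1 hv1 hd0 hv0 dj jt hD hf nb1 nb2 cells
    (fun E hE => by
      have h1 := row 1 (by rw [hfl]) E hE
      rw [hfl] at h1
      refine h1.trans (le_of_eq ?_)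
      push_cast
      ring) T hX hs hmm
  have hi : i = 0 := Subsingleton.elim _ _
  subst hi
  exact ⟨G, lam, lamP, mu, c1, c2, c4, c5, c6⟩

/-- **Two targets.** -/
theorem v0tFinF1 : V0tFinF 1 := by
  intro k K h θ hK hh hh1 hθ
  obtain ⟨κ₂, hκ₂⟩ : ∃ κ₂ : ℝ, κ₂ = h ^ 2 / 32 := ⟨_, rfl⟩
  obtain ⟨dl, hdl⟩ : ∃ dl : ℝ, dl = min (θ * κ₂) (h ^ 2 / 256) := ⟨_, rfl⟩
  have hh2 : 0 < h ^ 2 := by positivity
  have hκ0 : 0 < κ₂ := by rw [hκ₂]; positivity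
  have hdl0 : 0 < dl := by
    rw [hdl]
    exact lt_min (by positivity) (by positivity)
  have hd1 : dl ≤ θ * κ₂ := by rw [hdl]; exact min_le_left _ _
  have hd2 : dl ≤ h ^ 2 / 256 := by rw [hdl]; exact min_le_right _ _
  have hh3 : h ^ 2 ≤ 1 := pow_le_one₀ hh.le hh1
  obtain ⟨κ, π₀, m₀, τ, ε₀, Ca, j₀, X₀, k1, k2, a1, a2, a3, a4, a5, a6, H1⟩ :=
    v0pAlt k K h κ₂ dl hK hh hh1 hκ0 hdl0 (by rw [hκ₂]; linarith)
  refine ⟨κ₂, dl, hκ0, by rw [hκ₂]; linarith, hdl0.le, hd1, κ, π₀, m₀, τ, ε₀, Ca, j₀, X₀, k1, k2,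
    a1, a2, a3, a4, a5, a6, ?_⟩
  intro m J F c mv tg qt q w W X mm D γ B G₀ H gg ζ χ₁ χ₂ ρ₁ ρ₂ ρ₃ ξ₆ zw Cj Cx Rj Rx R' XJ p Nf Nn
    Nu Nv nb Mf Mn vt U Fv Gf κ' e₁ d ψ hp sup wW hWX deg DK cls grd mU V hj hx zL zP n0 n1 u0 u1
    m0 m0' mf mf' v0' vs hc2 f0 f1 v0 v1 hv1 hd0 hv0 dj jt hD hf nb1 nb2 cells row ful T hX hs hmm
  have h0 := hp.nonneg
  have hr0 : Fin.rev (0 : Fin 2) = 1 := rfl
  have hr1 : Fin.rev (1 : Fin 2) = 0 := rfl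
  obtain ⟨lam, lamP, mu, G, c1, c2, c3, c4⟩ := H1 (tg := fun u => tg (Fin.rev u))
    (qt := fun u => qt (Fin.rev u)) (gg := fun ω u => gg ω (Fin.rev u))
    (Mf := fun u => Mf (Fin.rev u)) (Mn := fun u => Mn (Fin.rev u))
    (vt := fun u => vt (Fin.rev u)) hp sup wW hWX deg DK
    (fun ω hω => ⟨fun u => (cls ω hω).1 _, (cls ω hω).2⟩)
    ⟨grd.U0, fun ω hω u j => grd.bm ω hω _ j,
      fun ω ν e1 e2 e3 e4 e5 e6 u j => grd.bj ω ν e1 e2 e3 e4 e5 e6 _ j,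
      fun ω ν e1 e2 e3 e4 e5 e6 u j => grd.bx ω ν e1 e2 e3 e4 e5 e6 _ j,
      fun ω ν e1 e2 e3 e4 e5 e6 u => grd.nx ω ν e1 e2 e3 e4 e5 e6 _⟩ mU
    (vlaw2_congr V (rev_det p (jp F c 0 tg w H Mn)) (rev_det' p (jp F c 0 tg w H Mn))
      (rev_det p (jp F c 0 tg w H Mf)) (rev_det' p (jp F c 0 tg w H Mf))) hj hx
    zL zP n0 n1 u0 u1 (fun u => m0 _) (fun u => m0' _) (fun u => mf _) (fun u => mf' _)
    (fun u => v0' _) (fun ω hω u => vs ω hω _) hc2 f0 f1 v0 v1 hv1 hd0 hv0 (fun u => dj _)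
    (fun u => jt _) hD hf nb1 nb2
    (fun ω ν e1 e2 e3 => ⟨(cells ω ν e1 e2 e3).1, fun u => (cells ω ν e1 e2 e3).2 _⟩)
    (fun j hj E hE => by
      have h1 := row j hj E hE
      have hq0 : ∀ ω, 0 ≤ rs p E ω := cond_nonneg h0 _ _
      have h2 : CH (rs p E)
          (fun ω u => Mm F c tg w H (fun u => γ (tg u) + qt u + j * ⌊κ * X⌋₊) ω (Fin.rev u))
          (fun ω => ((fun u => Mm F c tg w H (fun u => γ (tg u) + qt u) ω (Fin.rev u)),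
            (jp F c 0 mv w H nb ω, (F.W ω, zw ω)))) =
          CH (rs p E) (Mm F c tg w H (fun u => γ (tg u) + qt u + j * ⌊κ * X⌋₊))
          (fun ω => (Mm F c tg w H (fun u => γ (tg u) + qt u) ω,
            (jp F c 0 mv w H nb ω, (F.W ω, zw ω)))) := by
        refine CH_congr hq0 ?_ ?_ ?_ ?_
        · exact fun ω ω' a b e => rev_det' (rs p E)
            (Mm F c tg w H (fun u => γ (tg u) + qt u + j * ⌊κ * X⌋₊)) ω ω' a b
            (Prod.ext_iff.mp e).1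
        · exact fun ω ω' a b e => rev_det (rs p E)
            (Mm F c tg w H (fun u => γ (tg u) + qt u + j * ⌊κ * X⌋₊)) ω ω' a b
            (Prod.ext_iff.mp e).1
        · intro ω ω' a b e
          obtain ⟨e1, e2⟩ := Prod.ext_iff.mp e
          exact Prod.ext (rev_det' (rs p E)
            (Mm F c tg w H (fun u => γ (tg u) + qt u)) ω ω' a b e1) e2
        · intro ω ω' a b e
          obtain ⟨e1, e2⟩ := Prod.ext_iff.mp e
          exact Prod.ext (rev_det (rs p E)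
            (Mm F c tg w H (fun u => γ (tg u) + qt u)) ω ω' a b e1) e2
      refine le_trans (le_of_eq h2) (h1.trans (le_of_eq ?_))
      push_cast
      ring)
    (fun i j hij hj Vt z z' E hz hE => by
      have h1 := ful i j hij hj 0 (by decide) Vt z z' E hz hE
      have hq0 : ∀ ω, 0 ≤ Pool.Agent.H49.Ent.cond p E True ω := cond_nonneg h0 _ _
      refine h1.trans (CH_mono_cond hq0 fun ω ω' a b e => ?_)
      obtain ⟨e1, e5⟩ := Prod.ext_iff.mp e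
      obtain ⟨e2, e6⟩ := Prod.ext_iff.mp e5
      refine Prod.ext e1 (Prod.ext ?_ e6)
      have e7 : Mm F c tg w H (fun u => γ (tg u) + qt u + (if u < 0 then j else i) * ⌊κ * X⌋₊) ω =
        Mm F c tg w H (fun u => γ (tg u) + qt u + (if u < 0 then j else i) * ⌊κ * X⌋₊) ω' := e2
      have hi0 : ∀ u : Fin (1 + 1), (if u < 0 then j else i) = i := fun u => if_neg (by simp)
      simp only [hi0] at e7
      funext u
      have e3 := congrFun e7 (Fin.rev u)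
      exact e3) T hX hs hmm
  refine ⟨G, fun s => ![-lam s, 1], fun s => ![-lamP s, 1], mu, c3, fun s => rfl, ?_, c2, ?_⟩
  · intro s l
    have h1 : (1 : ℝ) ≤ 2 ^ (dl * X) := Real.one_le_rpow (by norm_num) (by positivity)
    fin_cases l
    · show |-lam s| ≤ _
      rw [abs_neg]
      exact c1 s
    · show |(1 : ℝ)| ≤ _
      rw [abs_one]
      exact h1
  · intro ω hω hG
    obtain ⟨d1, d2⟩ := c4 ω hω hG
    refine ⟨by simp only [d1], fun j => ?_⟩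
    have h1 := d2 j
    have h2 : ∑ u : Fin (1 + 1), (![-lam (slam F W ω), 1] : Fin 2 → ℝ) u * gg ω u j =
        gg ω 1 j - lam (slam F W ω) * gg ω 0 j := by
      rw [Fin.sum_univ_two]
      show -lam (slam F W ω) * gg ω 0 j + 1 * gg ω 1 j = _
      ring
    rw [h2]
    exact h1

end Pool.V0P
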