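import Pool.Agent.H25.V0P.St
import Pool.Agent.H44.V0F.Ev2
import Pool.Agent.H97.V0F.Ac2

/-!
# Several targets: the inputs `PrV` from the law

`prvGen`: the statement `PrvGen`.
-/

set_option autoImplicit false

namespace Pool.V0P

open Finset Real MvPolynomial
open Pool.Agent.H49.Ent Pool.Agent.H32.Dense
open Pool.STK hiding pr2
open Pool.KA Pool.KSAT Pool.K2S Pool.PB Pool.S6C
open Pool.GEN Pool.CHT Pool.CHX Pool.ISO Pool.LA91 Pool.AVG71 Pool.AVG5 Pool.D2F2 Pool.AVG57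
open Pool.PB.Trl (rt rt_mem t_rt)
open Pool.LV64 (GrdV PrV Vm Mm adV adV_ti CH_pi)
open Pool.KVA (MI)
open Pool.D2R (hgt)
open Pool.KAF (rs Pr)
open Pool.BFL (Pb)
open Pool.V0F (VLaw2 mi_side CH_sgn CH_dig)

variable {m J : ℕ}

section jets

variable {F : Fam m J} {c : ℕ → Fin m} {k C : ℕ} {mv : Fin k → ℕ} {tg : Fin C → ℕ} {w : ℕ}
  {H : LnT F → ℕ → MvPolynomial (Option (Fin m)) ℝ} {p : F.Ω → ℝ}

theorem jetm_jp0 (N : Fin k → ℕ → ℝ) :
    Det p (jetm F c mv w H N) (jp F c 0 mv w H fun l => N l 0) := by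
  intro ω ν _ _ e
  funext j
  exact congrFun e (j, 0)

theorem jetm_jp1 (N : Fin k → ℕ → ℝ) :
    Det p (jetm F c mv w H N) (jp F c 1 mv w H fun l => N l 1) := by
  intro ω ν _ _ e
  funext j
  exact congrFun e (j, 1)

theorem jp_jetm (N : Fin k → ℕ → ℝ) :
    Det p (fun ω => (jp F c 0 mv w H (fun l => N l 0) ω, jp F c 1 mv w H (fun l => N l 1) ω))
      (jetm F c mv w H N) := by
  intro ω ν _ _ e
  obtain ⟨e1, e2⟩ := Prod.ext_iff.mp e
  funext ⟨j, a⟩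
  fin_cases a
  · exact congrFun e1 j
  · exact congrFun e2 j

/-- The digits of the heights and of the velocities of the targets. -/
theorem pr2_vp (M v : Fin C → ℝ) (u : Fin C) (ω : F.Ω) :
    pr2 F c w H (tg u) (vp M v u) ω = (jp F c 0 tg w H M ω u, jp F c 1 tg w H v ω u) := rfl

theorem pr2_jp0 (M v : Fin C → ℝ) :
    Det p (fun ω u => pr2 F c w H (tg u) (vp M v u) ω) (jp F c 0 tg w H M) := by
  intro ω ν _ _ e
  funext u
  exact (Prod.ext_iff.mp (congrFun e u)).1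

theorem pr2_jp1 (M v : Fin C → ℝ) :
    Det p (fun ω u => pr2 F c w H (tg u) (vp M v u) ω) (jp F c 1 tg w H v) := by
  intro ω ν _ _ e
  funext u
  exact (Prod.ext_iff.mp (congrFun e u)).2

theorem jp_pr2 (M v : Fin C → ℝ) :
    Det p (fun ω => (jp F c 0 tg w H M ω, jp F c 1 tg w H v ω))
      (fun ω u => pr2 F c w H (tg u) (vp M v u) ω) := by
  intro ω ν _ _ e
  obtain ⟨e1, e2⟩ := Prod.ext_iff.mp e
  funext u
  exact Prod.ext (congrFun e1 u) (congrFun e2 u)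

/-- Other digits of the own jets of several places. -/
theorem CH_jp (hp : IsLaw p) {a : ℕ} {n n' : Fin k → ℝ} {d : ℝ}
    (hd : ∀ l, (n' l - n l) * J ≤ d) (hd0 : 0 ≤ d) {𝓦 : Type} (Z : F.Ω → 𝓦)
    (hZ : Det p Z (jp F c a mv w H n)) :
    CH p (jp F c a mv w H n') Z ≤ k * (d * Real.log 2 + Real.log 5) := by
  have h0 := hp.nonneg
  have hl2 : 0 < Real.log 2 := Real.log_pos one_lt_two
  refine CH_pi h0 Z k _ fun l => ?_
  have h2 := CH_dig hp (a := n l * J) (b := n' l * J)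
    (fun ω => ojet F (c (mv l)) a (H (slam F w ω) (mv l)) ω) Z (fun ω ν hω hν e =>
      congrFun (hZ ω ν hω hν e) l)
  refine h2.trans (add_le_add (mul_le_mul_of_nonneg_right (max_le ?_ hd0) hl2.le) le_rfl)
  have := hd l
  linarith

/-- Small velocities. -/
theorem CH_jp1 (hp : IsLaw p) {v : Fin C → ℝ} {𝓦 : Type} (Z : F.Ω → 𝓦)
    (hs : ∀ ω, 0 < p ω → ∀ u,
      |(2 : ℝ) ^ (v u * J) * ojet F (c (tg u)) 1 (H (slam F w ω) (tg u)) ω| < 1) :
    CH p (jp F c 1 tg w H v) Z ≤ C * Real.log 2 :=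
  CH_pi hp.nonneg Z C _ fun u => CH_sgn hp _ Z fun ω hω => hs ω hω u

variable {υ ζ ρ₁ ρ₂ ρ₃ ξ₆ : Type} {zw : F.Ω → ζ} {y : F.Ω → υ} {Rj : F.Ω → ρ₁} {Rx : F.Ω → ρ₂}
  {R' : F.Ω → ρ₃} {XJ : F.Ω → ξ₆} {Fv Gf κ : ℝ} {Nn Nf Nv : Fin k → ℕ → ℝ}
  {Mf Mn vt : Fin C → ℝ}

/-- **The field `mx`.** -/
theorem pv_mx (V : VLaw2 p zw Rj Rx R' y (jp F c 0 mv w H fun l => Nn l 0)
      (jp F c 0 mv w H fun l => Nf l 0) (jp F c 1 mv w H fun l => Nn l 1)
      (jp F c 1 mv w H fun l => Nf l 1) (jp F c 0 tg w H Mn) (jp F c 0 tg w H Mf) XJ Fv Gf κ) :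
    MI p Rx (jetm F c mv w H Nf)
      (fun ω => (jetm F c mv w H Nn ω, (zw ω, y ω))) ≤ 25 * κ := by
  have h1 := mi_side V.h0 Rx (A := fun ω => (jp F c 0 mv w H (fun l => Nf l 0) ω,
      jp F c 1 mv w H (fun l => Nf l 1) ω)) (A' := jetm F c mv w H Nf) (s := fun _ => ())
    (W := fun ω => ((jp F c 0 mv w H (fun l => Nn l 0) ω, jp F c 1 mv w H (fun l => Nn l 1) ω),
      (zw ω, y ω)))
    (W' := fun ω => (jetm F c mv w H Nn ω, (zw ω, y ω))) (e := 0)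
    (fun ω ν hω hν e => jp_jetm Nf ω ν hω hν (Prod.ext_iff.mp e).1)
    (fun ω ν hω hν e => by
      obtain ⟨e1, e2⟩ := Prod.ext_iff.mp e
      exact Prod.ext (Prod.ext (jetm_jp0 Nn ω ν hω hν e1) (jetm_jp1 Nn ω ν hω hν e1)) e2)
    (fun ω ν hω hν e => by
      obtain ⟨e1, e2⟩ := Prod.ext_iff.mp e
      exact Prod.ext (jetm_jp0 Nf ω ν hω hν e1) (jetm_jp1 Nf ω ν hω hν e1))
    (fun ω ν hω hν e => by
      obtain ⟨_, e2⟩ := Prod.ext_iff.mp e
      obtain ⟨e3, e4⟩ := Prod.ext_iff.mp e2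
      exact Prod.ext (jp_jetm Nn ω ν hω hν e3) e4)
    (le_of_eq (CH_eq_zero V.h0 fun _ _ _ _ _ => rfl))
  have h2 := V.mx
  linarith

/-- **The field `mj`.** -/
theorem pv_mj (hp : IsLaw p) (V : VLaw2 p zw Rj Rx R' y (jp F c 0 mv w H fun l => Nn l 0)
      (jp F c 0 mv w H fun l => Nf l 0) (jp F c 1 mv w H fun l => Nn l 1)
      (jp F c 1 mv w H fun l => Nf l 1) (jp F c 0 tg w H Mn) (jp F c 0 tg w H Mf) XJ Fv Gf κ)
    (hs : ∀ ω, 0 < p ω → ∀ u,
      |(2 : ℝ) ^ (vt u * J) * ojet F (c (tg u)) 1 (H (slam F w ω) (tg u)) ω| < 1) :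
    MI p Rj (fun ω => (jetm F c mv w H Nf ω, fun u => pr2 F c w H (tg u) (vp Mf vt u) ω))
      (fun ω => ((jetm F c mv w H Nn ω, fun u => pr2 F c w H (tg u) (vp Mn vt u) ω),
        (zw ω, y ω))) ≤ 65 * κ + C * Real.log 2 := by
  have h1 := mi_side V.h0 Rj (A := fun ω => ((jp F c 0 mv w H (fun l => Nf l 0) ω,
      jp F c 1 mv w H (fun l => Nf l 1) ω), jp F c 0 tg w H Mf ω))
    (A' := fun ω => (jetm F c mv w H Nf ω, fun u => pr2 F c w H (tg u) (vp Mf vt u) ω))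
    (s := jp F c 1 tg w H vt)
    (W := fun ω => (((jp F c 0 mv w H (fun l => Nn l 0) ω, jp F c 1 mv w H (fun l => Nn l 1) ω),
      jp F c 0 tg w H Mn ω), (zw ω, y ω)))
    (W' := fun ω => ((jetm F c mv w H Nn ω, fun u => pr2 F c w H (tg u) (vp Mn vt u) ω),
      (zw ω, y ω))) (e := C * Real.log 2)
    (fun ω ν hω hν e => by
      obtain ⟨e1, e2⟩ := Prod.ext_iff.mp e
      obtain ⟨e3, e4⟩ := Prod.ext_iff.mp e1
      obtain ⟨e5, _⟩ := Prod.ext_iff.mp e2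
      obtain ⟨_, e6⟩ := Prod.ext_iff.mp e5
      exact Prod.ext (jp_jetm Nf ω ν hω hν e3)
        (jp_pr2 Mf vt ω ν hω hν (Prod.ext e4 (pr2_jp1 Mn vt ω ν hω hν e6))))
    (fun ω ν hω hν e => by
      obtain ⟨e1, e2⟩ := Prod.ext_iff.mp e
      obtain ⟨e3, e4⟩ := Prod.ext_iff.mp e1
      exact Prod.ext (Prod.ext (Prod.ext (jetm_jp0 Nn ω ν hω hν e3) (jetm_jp1 Nn ω ν hω hν e3))
        (pr2_jp0 Mn vt ω ν hω hν e4)) e2)
    (fun ω ν hω hν e => by
      obtain ⟨e1, _⟩ := Prod.ext_iff.mp e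
      obtain ⟨e3, e4⟩ := Prod.ext_iff.mp e1
      exact Prod.ext (Prod.ext (jetm_jp0 Nf ω ν hω hν e3) (jetm_jp1 Nf ω ν hω hν e3))
        (pr2_jp0 Mf vt ω ν hω hν e4))
    (fun ω ν hω hν e => by
      obtain ⟨e1, e2⟩ := Prod.ext_iff.mp e
      obtain ⟨e3, e4⟩ := Prod.ext_iff.mp e2
      obtain ⟨e5, e6⟩ := Prod.ext_iff.mp e3
      exact Prod.ext (Prod.ext (jp_jetm Nn ω ν hω hν e5)
        (jp_pr2 Mn vt ω ν hω hν (Prod.ext e6 e1))) e4)
    (CH_jp1 hp _ hs)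
  have h2 := V.mj
  linarith

/-- **The field `vf`.** -/
theorem pv_vf (hp : IsLaw p) (V : VLaw2 p zw Rj Rx R' y (jp F c 0 mv w H fun l => Nn l 0)
      (jp F c 0 mv w H fun l => Nf l 0) (jp F c 1 mv w H fun l => Nn l 1)
      (jp F c 1 mv w H fun l => Nf l 1) (jp F c 0 tg w H Mn) (jp F c 0 tg w H Mf) XJ Fv Gf κ)
    {δ : Type} {D : F.Ω → δ} {Fw d : ℝ} (hD : CH p D (fun ω => (R' ω, y ω)) ≤ κ)
    (hf : Fw - κ ≤ CH p D (fun ω => (jp F c 0 mv w H (fun l => Nn l 0) ω, (Rx ω, y ω))))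
    (hv1 : ∀ l, Nv l 1 = Nn l 1) (hd0 : 0 ≤ d) (hv0 : ∀ l, (Nv l 0 - Nn l 0) * J ≤ d) :
    Fw - 10 * κ - k * (d * Real.log 2 + Real.log 5) ≤
      CH p D (fun ω => (jetm F c mv w H Nv ω, (Rx ω, y ω))) := by
  have h0 := V.h0
  have h1 := V.vf hD hf
  have h2 := Pool.V0F.CH_ge h0 D (jp F c 0 mv w H fun l => Nv l 0)
    (fun ω => ((jp F c 0 mv w H (fun l => Nn l 0) ω, jp F c 1 mv w H (fun l => Nn l 1) ω),
      (Rx ω, y ω)))
  have h3 := CH_jp hp (a := 0) hv0 hd0 (fun ω => ((jp F c 0 mv w H (fun l => Nn l 0) ω,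
    jp F c 1 mv w H (fun l => Nn l 1) ω), (Rx ω, y ω))) (fun ω ν _ _ e =>
      (Prod.ext_iff.mp (Prod.ext_iff.mp e).1).1)
  have h4 : CH p D (fun ω => (jp F c 0 mv w H (fun l => Nv l 0) ω,
      ((jp F c 0 mv w H (fun l => Nn l 0) ω, jp F c 1 mv w H (fun l => Nn l 1) ω),
        (Rx ω, y ω)))) ≤
      CH p D (fun ω => (jetm F c mv w H Nv ω, (Rx ω, y ω))) := by
    refine CH_mono_cond h0 fun ω ν hω hν e => ?_
    obtain ⟨e1, e2⟩ := Prod.ext_iff.mp e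
    obtain ⟨e3, e4⟩ := Prod.ext_iff.mp e2
    obtain ⟨_, e5⟩ := Prod.ext_iff.mp e3
    have e6 : (fun l : Fin k => Nv l 1) = fun l => Nn l 1 := funext hv1
    refine Prod.ext (jp_jetm Nv ω ν hω hν (Prod.ext e1 ?_)) e4
    simp only [e6]
    exact e5
  linarith

end jets

section codes

/-- The moved places as places of a chain. -/
def mvn {k : ℕ} (mv : Fin k → ℕ) (l : ℕ) : ℕ := if h : l < k then mv ⟨l, h⟩ else 0

theorem mvn_lt {k : ℕ} (mv : Fin k → ℕ) {l : ℕ} (h : l < k) : mvn mv l = mv ⟨l, h⟩ := dif_pos h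

theorem mvn_fin {k : ℕ} (mv : Fin k → ℕ) (j : Fin k) : mvn mv (0 + j) = mv j := by
  rw [Nat.zero_add, mvn_lt mv j.2]

/-- **The codes of the moved places** from the digits of their jets of the orders `0`, `1`. -/
theorem pv_ac (k K : ℕ) : ∃ Ca : ℝ, 0 ≤ Ca ∧ ∀ {m J : ℕ} {F : Fam m J} {c : ℕ → Fin m} {C : ℕ}
    {mv : Fin k → ℕ} {tg qt Xt : Fin C → ℕ} {q w W X mm D : ℕ} {γ : ℕ → ℕ}
    {H : LnT F → ℕ → MvPolynomial (Option (Fin m)) ℝ} {gg : F.Ω → Fin C → Fin k → ℝ} {β : Type}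
    {z : F.Ω → β} {p : F.Ω → ℝ} {e : ℝ}, IsLaw p → w ≤ W → W ≤ J →
    (∀ s l, (H s l).totalDegree ≤ D) → D + 1 ≤ K → 0 ≤ e →
    Det p z (fun ω => (slam F W ω).2) →
    (∀ l, CH p (Pool.AVG71.cod F W 2 K (2 ^ (γ (mv l) + q + (X + mm))) (c (mv l))
        (fun s => upw w W s) (fun s => H s (mv l))) F.W ≤ e) →
    (∀ N : Fin k → ℕ → ℝ, (∀ l, ((γ (mv l) + q + (X + mm) : ℕ) : ℝ) ≤ N l 0 * J) →
      (∀ l, ((γ (mv l) + q + (X + mm) : ℕ) : ℝ) ≤ N l 1 * J + W) →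
      CH p ((adV F c mv tg qt Xt q w W X mm γ gg H z).ac K) (fun ω =>
        (jetm F c mv w H N ω, (rt F W ω, z ω))) ≤ k * e + Ca) ∧
    ∀ N : Fin k → ℕ → ℝ, (∀ l, ((γ (mv l) + q : ℕ) : ℝ) ≤ N l 0 * J) →
      (∀ l, ((γ (mv l) + q + (X + mm) : ℕ) : ℝ) ≤ N l 1 * J + W) →
      CH p (fun ω => ((adV F c mv tg qt Xt q w W X mm γ gg H z).v K ω).2) (fun ω =>
        (jetm F c mv w H N ω, (rt F W ω, z ω))) ≤ k * e + Ca := by
  obtain ⟨Ca, hCa, h⟩ := Pool.V0F97.acStmt k K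
  refine ⟨Ca, hCa, ?_⟩
  intro m J F c C mv tg qt Xt q w W X mm D γ H gg β z p e hp wW hW deg DK he hz hc
  have h0 := hp.nonneg
  obtain ⟨c', hc'⟩ : ∃ c' : ℕ → Fin m, ∀ l, c' l = c (mvn mv l) := ⟨_, fun _ => rfl⟩
  obtain ⟨γ', hγ'⟩ : ∃ γ' : ℕ → ℕ, ∀ l, γ' l = γ (mvn mv l) := ⟨_, fun _ => rfl⟩
  obtain ⟨H', hH'⟩ : ∃ H' : LnT F → ℕ → MvPolynomial (Option (Fin m)) ℝ,
    ∀ s l, H' s l = H s (mvn mv l) := ⟨_, fun _ _ => rfl⟩
  have h1 := h (F := F) (c := c') (n := 0) (q := q) (w := w) (W := W) (X := X) (mm := mm)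
    (D := D) (γ := γ') (G := fun _ _ _ => 0) (H := H') (zw := fun _ : F.Ω => ()) hp wW hW
    (fun s l => by rw [hH']; exact deg _ _) DK he (fun l hl => by
      have e1 : (fun s => H' s l) = fun s => H s (mv ⟨l, hl⟩) := by
        funext s
        rw [hH', mvn_lt mv hl]
      rw [e1, hγ', hc', mvn_lt mv hl]
      exact hc ⟨l, hl⟩)
  have hA : ∀ (ω : F.Ω) (j : Fin k), (adM F c' 0 k 0 q w W X mm γ' (fun _ _ _ => 0) H'
      (fun _ : F.Ω => ())).A ω j = (adV F c mv tg qt Xt q w W X mm γ gg H z).A ω j := by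
    intro ω j
    show Polynomial.C (2 ^ (γ' (0 + j) + q)) * dv W (fun s (_ : Fin m) => H' (upw w W s) (0 + j))
      (c' (0 + j)) (slam F W ω) = Polynomial.C (2 ^ (γ (mv j) + q)) *
      dv W (fun s (_ : Fin m) => H (upw w W s) (mv j)) (c (mv j)) (slam F W ω)
    have e1 : (fun (s : LnT F) (_ : Fin m) => H' (upw w W s) (0 + j)) =
      fun s (_ : Fin m) => H (upw w W s) (mv j) := by
      funext s _
      rw [hH', mvn_fin]
    rw [e1, hγ', hc', mvn_fin]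
  have hac : ∀ (ω : F.Ω), (adM F c' 0 k 0 q w W X mm γ' (fun _ _ _ => 0) H'
      (fun _ : F.Ω => ())).ac K ω = (adV F c mv tg qt Xt q w W X mm γ gg H z).ac K ω := by
    intro ω
    funext j a
    show ⌊(2 : ℝ) ^ (X + mm) * ((adM F c' 0 k 0 q w W X mm γ' (fun _ _ _ => 0) H'
      (fun _ : F.Ω => ())).A ω j).coeff a⌋ = ⌊(2 : ℝ) ^ (X + mm) *
      ((adV F c mv tg qt Xt q w W X mm γ gg H z).A ω j).coeff a⌋
    rw [hA]
  -- the condition
  have hcd : ∀ N : Fin k → ℕ → ℝ, Det p (fun ω => (jetm F c mv w H N ω, (rt F W ω, z ω)))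
      (fun ω => (jet2 F c' w H' 0 k (fun l a => if hl : l < k then N ⟨l, hl⟩ a else 0) ω,
        ((adM F c' 0 k 0 q w W X mm γ' (fun _ _ _ => 0) H' (fun _ : F.Ω => ())).th ω,
          (adM F c' 0 k 0 q w W X mm γ' (fun _ _ _ => 0) H' (fun _ : F.Ω => ())).z ω))) := by
    intro N ω ν hω hν e
    obtain ⟨e1, e2⟩ := Prod.ext_iff.mp e
    obtain ⟨e3, e4⟩ := Prod.ext_iff.mp e2
    refine Prod.ext ?_ (Prod.ext e3 (Prod.ext rfl (Prod.ext (hz ω ν hω hν e4)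
      (funext fun l => l.elim0))))
    funext l a
    show (if 0 ≤ l ∧ l < k ∧ a ≤ 1 then ⌊(2 : ℝ) ^ ((if hl : l < k then N ⟨l, hl⟩ a else 0) * J) *
        ojet F (c' l) a (H' (slam F w ω) l) ω⌋ else 0) =
      (if 0 ≤ l ∧ l < k ∧ a ≤ 1 then ⌊(2 : ℝ) ^ ((if hl : l < k then N ⟨l, hl⟩ a else 0) * J) *
        ojet F (c' l) a (H' (slam F w ν) l) ν⌋ else 0)
    by_cases hl : 0 ≤ l ∧ l < k ∧ a ≤ 1
    · rw [if_pos hl, if_pos hl, dif_pos hl.2.1, hH', hH', hc', mvn_lt mv hl.2.1]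
      have ha : a = 0 ∨ a = 1 := by omega
      rcases ha with rfl | rfl
      · exact congrFun e1 (⟨l, hl.2.1⟩, 0)
      · exact congrFun e1 (⟨l, hl.2.1⟩, 1)
    · rw [if_neg hl, if_neg hl]
  constructor
  · intro N hN0 hN1
    have h2 := h1.1 (fun l a => if hl : l < k then N ⟨l, hl⟩ a else 0)
      (fun l hl => by rw [dif_pos hl, hγ', mvn_lt mv hl]; exact hN0 ⟨l, hl⟩)
      (fun l hl => by rw [dif_pos hl, hγ', mvn_lt mv hl]; exact hN1 ⟨l, hl⟩)
    refine le_trans ?_ h2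
    refine (CH_mono_cond h0 (hcd N)).trans (CH_mono_left h0 fun ω ν _ _ e => ?_)
    have e1 := (Prod.ext_iff.mp e).1
    simp only at e1
    rw [hac, hac] at e1
    exact e1
  · intro N hN0 hN1
    have h2 := h1.2 (fun l a => if hl : l < k then N ⟨l, hl⟩ a else 0)
      (fun l hl => by rw [dif_pos hl, hγ', mvn_lt mv hl]; exact hN0 ⟨l, hl⟩)
      (fun l hl => by rw [dif_pos hl, hγ', mvn_lt mv hl]; exact hN1 ⟨l, hl⟩)
    refine le_trans ?_ h2
    refine (CH_mono_cond h0 (hcd N)).trans (CH_mono_left h0 fun ω ν _ _ e => ?_)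
    have e1 := (Prod.ext_iff.mp e).1
    obtain ⟨e2, e3⟩ := Prod.ext_iff.mp e1
    refine Prod.ext ?_ ?_
    · funext j a
      have e4 := congrFun (congrFun e2 j) a
      show (adV F c mv tg qt Xt q w W X mm γ gg H z).ac K ω j a.succ =
        (adV F c mv tg qt Xt q w W X mm γ gg H z).ac K ν j a.succ
      rw [← hac, ← hac]
      exact e4
    · funext j
      have e4 := congrFun e3 j
      show (adV F c mv tg qt Xt q w W X mm γ gg H z).ac K ω j 0 / 2 ^ (X + mm) =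
        (adV F c mv tg qt Xt q w W X mm γ gg H z).ac K ν j 0 / 2 ^ (X + mm)
      rw [← hac, ← hac]
      exact e4

/-- **The inputs for several targets**: the statement. -/
theorem prvGen : PrvGen := by
  intro k C K
  obtain ⟨Ca, hCa, hac⟩ := pv_ac k K
  refine ⟨Ca, hCa, ?_⟩
  intro m J F c mv tg qt Xt q w W X mm D γ B G₀ H gg β υ ζ χ₁ χ₂ ρ₁ ρ₂ ρ₃ ξ₆ z zw y Cj Cx Rj Rx
    R' XJ p Nf Nn Nu Nv nb Mf Mn vt U Fv Gf κ' e₁ d e ε₀ ψ j₀ hp sup wW hW deg DK hK hXt cls grd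
    mU hz1 hz2 hy1 hy2 V hj hx n0 n1 u0 u1 m0 mf v0' vs hc2 f0 f1 v0 v1 hv1 hd0 hv0 dj jt hD hf T
    he1 he
  have h0 := hp.nonneg
  have hl2 : 0 < Real.log 2 := Real.log_pos one_lt_two
  have hl5 : 0 < Real.log 5 := Real.log_pos (by norm_num)
  have hκ0 := V.κ0
  have hzT : Det p z (F.T1 W) := fun ω ν a b e => (Prod.ext_iff.mp (hz1 ω ν a b e)).2
  have hψ : 0 ≤ ψ * J := by
    have h1 := T.mi (F.T1 W) (fun ω ν _ _ e => (Prod.ext_iff.mp (Prod.ext_iff.mp e).2).2)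
      (fun _ _ _ _ e => e)
    refine le_trans ?_ h1
    rw [MI_eq h0]
    have := CH_mono_cond h0 (X := F.T) (W' := fun ω => (slam F W ω, F.T1 W ω)) (W := F.T1 W)
      (fun ω ν _ _ e => (Prod.ext_iff.mp e).2)
    linarith
  have hk0 : (0 : ℝ) ≤ k := Nat.cast_nonneg k
  have hC0 : (0 : ℝ) ≤ C := Nat.cast_nonneg C
  have hCl : 0 ≤ C * Real.log 2 := by positivity
  have hkd : 0 ≤ k * (d * Real.log 2 + Real.log 5) := by positivity
  have hke : 0 ≤ k * e₁ := by positivity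
  have he0 : 0 ≤ e := by linarith
  have ac := hac (F := F) (c := c) (mv := mv) (tg := tg) (qt := qt) (Xt := Xt) (q := q) (w := w)
    (W := W) (X := X) (mm := mm) (γ := γ) (H := H) (gg := gg) (z := z) hp wW hW deg DK he1 hz1 hc2
  exact
    { law := hp
      sup := sup
      wW := wW
      WJ := hW
      deg := deg
      DK := DK
      KX := by
        have h1 : (K : ℝ) ≤ 2 ^ K := by exact_mod_cast Nat.lt_two_pow_self.le
        exact h1.trans (pow_le_pow_right₀ (by norm_num) (by omega))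
      Xtm := hXt
      cls := cls
      grd := grd
      mU := mU
      zT := hzT
      czy := by
        rw [CH_eq_zero h0 hy1]
        exact he0
      cyz := by
        rw [CH_eq_zero h0 hy2]
        exact he0
      ti := by
        have := adV_ti (c := c) (mv := mv) (tg := tg) (qt := qt) (Xt := Xt) (q := q) (w := w)
          (X := X) (mm := mm) (γ := γ) (gg := gg) (H := H) (z := z) hp T hz2 hzT K
        linarith
      mj := by
        have := pv_mj hp V vs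
        linarith
      mx := by
        have := pv_mx V
        linarith
      chj := by
        rw [CH_eq_zero h0 hj]
        exact he0
      chx := by
        rw [CH_eq_zero h0 hx]
        exact he0
      zx := by
        have := V.zx
        linarith
      n0 := n0
      n1 := n1
      x0 := n0
      x1 := n1
      u0 := u0
      u1 := u1
      m0 := m0
      m1 := v0'
      mf := mf
      ac := by
        have := ac.1 Nf f0 f1
        linarith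
      va := by
        have := ac.2 Nv v0 v1
        linarith
      dj := fun u => by
        have := dj u
        linarith
      jt := fun u => by
        have := jt u
        linarith
      vf := by
        have h1 : CH p (Vm F c mv w H fun j => nb j * J) (fun ω => (R' ω, y ω)) ≤ κ' := hD
        have h2 : k * (X * Real.log 2) - κ' ≤ CH p (Vm F c mv w H fun j => nb j * J)
          (fun ω => (jp F c 0 mv w H (fun l => Nn l 0) ω, (Rx ω, y ω))) := hf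
        have := pv_vf hp V h1 h2 hv1 hd0 hv0
        linarith }

end codes

end Pool.V0P
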