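import Pool.Agent.H64.LV.Evd
import Pool.Agent.H44.V0F.S5

/-!
# Several targets, all base coordinates moved: the event theorem, statements

`jp`: digits of the own jets of several places. `PrvGen`: the inputs `PrV` of 64 for several targets
from the inputs in the letters of the class theorem. `V0pFin`: two targets, the gradient of the first
one in all moved directions is closed.
-/

set_option autoImplicit false

namespace Pool.V0P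

open Finset Real MvPolynomial
open Pool.Agent.H49.Ent Pool.Agent.H32.Dense
open Pool.STK hiding pr2
open Pool.KA Pool.KSAT Pool.K2S Pool.PB Pool.S6C
open Pool.GEN Pool.CHT Pool.CHX Pool.ISO Pool.LA91 Pool.AVG71 Pool.AVG5 Pool.D2F2 Pool.AVG57
open Pool.PB.Trl (rt)
open Pool.LV64 (GrdV PrV Vm Mm)
open Pool.D2R (hgt)
open Pool.KAF (rs Pr)
open Pool.BFL (Pb)
open Pool.V0F (VLaw2)

/-- The digits `n` of the own jets of the order `a` of several places. -/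
noncomputable def jp {m J : ℕ} (F : Fam m J) (c : ℕ → Fin m) (a : ℕ) {k : ℕ} (mv : Fin k → ℕ)
    (w : ℕ) (H : LnT F → ℕ → MvPolynomial (Option (Fin m)) ℝ) (n : Fin k → ℝ) (ω : F.Ω)
    (j : Fin k) : ℤ :=
  ⌊(2 : ℝ) ^ (n j * J) * ojet F (c (mv j)) a (H (slam F w ω) (mv j)) ω⌋

/-- Digits of the heights and of the velocities. -/
def vp {C : ℕ} (M v : Fin C → ℝ) (u : Fin C) (a : ℕ) : ℝ := if a = 0 then M u else v u

/-- **The inputs for several targets**, from the law and from the codes. `z`: the context, `y`: the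
side information; `vt`: digits of the velocities of the targets. -/
def PrvGen : Prop := ∀ (k C K : ℕ), ∃ Ca : ℝ, 0 ≤ Ca ∧
    ∀ {m J : ℕ} {F : Fam m J} {c : ℕ → Fin m} {mv : Fin k → ℕ} {tg qt Xt : Fin C → ℕ}
      {q w W X mm D : ℕ} {γ : ℕ → ℕ} {B : F.Ω → Prop}
      {G₀ : PtT F → ℕ → MvPolynomial (Option (Fin m)) ℝ}
      {H : LnT F → ℕ → MvPolynomial (Option (Fin m)) ℝ} {gg : F.Ω → Fin C → Fin k → ℝ}
      {β υ ζ χ₁ χ₂ ρ₁ ρ₂ ρ₃ ξ₆ : Type} {z : F.Ω → β} {zw : F.Ω → ζ} {y : F.Ω → υ}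
      {Cj : F.Ω → χ₁} {Cx : F.Ω → χ₂} {Rj : F.Ω → ρ₁} {Rx : F.Ω → ρ₂} {R' : F.Ω → ρ₃}
      {XJ : F.Ω → ξ₆} {p : F.Ω → ℝ} {Nf Nn Nu Nv : Fin k → ℕ → ℝ} {nb : Fin k → ℝ}
      {Mf Mn vt : Fin C → ℝ} {U Fv Gf κ' e₁ d e ε₀ ψ : ℝ} {j₀ : ℕ},
      IsLaw p → (∀ ω, 0 < p ω → B ω) → w ≤ W → W ≤ J →
      (∀ s l, (H s l).totalDegree ≤ D) → D + 1 ≤ K → K ≤ X → (∀ u, Xt u ≤ X) →
      (∀ ω, B ω → (∀ u, G₀ (ptr F J ω) (tg u) = H (slam F w ω) (tg u)) ∧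
        ∀ j, G₀ (ptr F J ω) (mv j) = H (slam F w ω) (mv j)) →
      GrdV F c mv tg qt Xt q X γ U B G₀ gg z Cj Cx → U + 1 ≤ 2 ^ mm →
      -- the context
      Det p z (fun ω => (slam F W ω).2) → Det p (slam F W) z →
      Det p (fun ω => (zw ω, y ω)) (fun ω => (rt F W ω, z ω)) →
      Det p (fun ω => (rt F W ω, z ω)) (fun ω => (zw ω, y ω)) →
      -- the law
      VLaw2 p zw Rj Rx R' y (jp F c 0 mv w H fun l => Nn l 0) (jp F c 0 mv w H fun l => Nf l 0)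
        (jp F c 1 mv w H fun l => Nn l 1) (jp F c 1 mv w H fun l => Nf l 1)
        (jp F c 0 tg w H Mn) (jp F c 0 tg w H Mf) XJ Fv Gf κ' →
      Det p Rj Cj → Det p Rx Cx →
      -- the digits
      (∀ l, Nn l 0 * J ≤ (γ (mv l) + q : ℕ)) →
      (∀ l, Nn l 1 * J + W ≤ (γ (mv l) + q + (X + mm) : ℕ)) →
      (∀ l, Nu l 0 * J ≤ (γ (mv l) + q : ℕ)) →
      (∀ l, Nu l 1 * J + W ≤ (γ (mv l) + q + (X + mm) : ℕ)) →
      (∀ u, Mn u * J ≤ (γ (tg u) + qt u : ℕ)) →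
      (∀ u, ((γ (tg u) + qt u + Xt u : ℕ) : ℝ) ≤ Mf u * J) →
      (∀ u, vt u * J + W ≤ (γ (tg u) + qt u : ℕ)) →
      (∀ ω, 0 < p ω → ∀ u,
        |(2 : ℝ) ^ (vt u * J) * ojet F (c (tg u)) 1 (H (slam F w ω) (tg u)) ω| < 1) →
      (∀ l, CH p (Pool.AVG71.cod F W 2 K (2 ^ (γ (mv l) + q + (X + mm))) (c (mv l))
        (fun s => upw w W s) (fun s => H s (mv l))) F.W ≤ e₁) →
      (∀ l, ((γ (mv l) + q + (X + mm) : ℕ) : ℝ) ≤ Nf l 0 * J) →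
      (∀ l, ((γ (mv l) + q + (X + mm) : ℕ) : ℝ) ≤ Nf l 1 * J + W) →
      (∀ l, ((γ (mv l) + q : ℕ) : ℝ) ≤ Nv l 0 * J) →
      (∀ l, ((γ (mv l) + q + (X + mm) : ℕ) : ℝ) ≤ Nv l 1 * J + W) →
      (∀ l, Nv l 1 = Nn l 1) → 0 ≤ d → (∀ l, (Nv l 0 - Nn l 0) * J ≤ d) →
      (∀ u, CH p (Pool.AVG57.cod F w (fun s => H s (tg u)) (c (tg u)) (γ (tg u) + qt u + Xt u)
        1 K) (fun ω => (jetm F c mv w H Nf ω, (zw ω, y ω))) ≤ e₁) →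
      (∀ u, CH p (Pool.AVG57.cod F w (fun s => H s (tg u)) (c (tg u)) (γ (tg u) + qt u) 0 K)
        (fun ω => (jetm F c mv w H Nu ω, (Rx ω, y ω))) ≤ e₁) →
      CH p (jp F c 0 mv w H nb) (fun ω => (R' ω, y ω)) ≤ κ' →
      k * (X * Real.log 2) - κ' ≤ CH p (jp F c 0 mv w H nb)
        (fun ω => (jp F c 0 mv w H (fun l => Nn l 0) ω, (Rx ω, y ω))) →
      TimW F p W j₀ ε₀ ψ → 0 ≤ e₁ →
      65 * κ' + C * Real.log 2 + k * (d * Real.log 2 + Real.log 5) + (k + 1) * e₁ + Ca + ψ * J ≤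
        e →
      PrV F c mv tg qt Xt q w W X mm D K γ B G₀ H gg z zw y Cj Cx Rj Rx
        (Vm F c mv w H fun j => nb j * J) p Nf Nn Nn Nu Nv (vp Mf vt) (vp Mn vt) U
        (k * (X * Real.log 2)) e

/-- **The pair event theorem.** `mv`: the moved places, `tg`: the two targets, the gradient of the
first one is closed. -/
def V0pFin : Prop := ∀ (k K : ℕ) (h κ₂ ε : ℝ), 1 ≤ K → 0 < h → h ≤ 1 → 0 < κ₂ →
  κ₂ < h ^ 2 / 16 → 0 < ε →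
  ∃ (π₀ τ ε₀ Ca : ℝ) (j₀ X₀ : ℕ), 0 < π₀ ∧ π₀ ≤ 1 ∧ 0 < τ ∧ 0 < ε₀ ∧ 0 ≤ Ca ∧
    ∀ {m J : ℕ} {F : Fam m J} {c : ℕ → Fin m} {mv : Fin k → ℕ} {tg qt : Fin 2 → ℕ}
      {q w W X mm D : ℕ} {γ : ℕ → ℕ} {B : F.Ω → Prop}
      {G₀ : PtT F → ℕ → MvPolynomial (Option (Fin m)) ℝ}
      {H : LnT F → ℕ → MvPolynomial (Option (Fin m)) ℝ} {gg : F.Ω → Fin 2 → Fin k → ℝ}
      {ζ χ₁ χ₂ ρ₁ ρ₂ ρ₃ ξ₆ : Type} {zw : F.Ω → ζ} {Cj : F.Ω → χ₁} {Cx : F.Ω → χ₂}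
      {Rj : F.Ω → ρ₁} {Rx : F.Ω → ρ₂} {R' : F.Ω → ρ₃} {XJ : F.Ω → ξ₆} {p : F.Ω → ℝ}
      {Nf Nn Nu Nv : Fin k → ℕ → ℝ} {nb : Fin k → ℝ} {Mf Mn vt : Fin 2 → ℝ}
      {U Fv Gf κ' e₁ d ψ : ℝ},
      IsLaw p → (∀ ω, 0 < p ω → B ω) → w ≤ W → W + X ≤ J →
      (∀ s l, (H s l).totalDegree ≤ D) → D + 1 ≤ K →
      -- the charts are closed; the gradients
      (∀ ω, B ω → (∀ u, G₀ (ptr F J ω) (tg u) = H (slam F w ω) (tg u)) ∧
        ∀ j, G₀ (ptr F J ω) (mv j) = H (slam F w ω) (mv j)) →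
      GrdV F c mv tg qt (fun _ => X) q X γ U B G₀ gg (fun _ => ()) Cj Cx → U + 1 ≤ 2 ^ mm →
      -- the law
      VLaw2 p zw Rj Rx R' F.W (jp F c 0 mv w H fun l => Nn l 0) (jp F c 0 mv w H fun l => Nf l 0)
        (jp F c 1 mv w H fun l => Nn l 1) (jp F c 1 mv w H fun l => Nf l 1)
        (jp F c 0 tg w H Mn) (jp F c 0 tg w H Mf) XJ Fv Gf κ' →
      Det p Rj Cj → Det p Rx Cx → Det p (slam F W) zw → Det p (ptr F J) zw →
      -- the digits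
      (∀ l, Nn l 0 * J ≤ (γ (mv l) + q : ℕ)) →
      (∀ l, Nn l 1 * J + W ≤ (γ (mv l) + q + (X + mm) : ℕ)) →
      (∀ l, Nu l 0 * J ≤ (γ (mv l) + q : ℕ)) →
      (∀ l, Nu l 1 * J + W ≤ (γ (mv l) + q + (X + mm) : ℕ)) →
      (∀ u, Mn u * J ≤ (γ (tg u) + qt u : ℕ)) →
      (∀ u, ((γ (tg u) + qt u : ℕ) : ℝ) ≤ Mn u * J + d) →
      (∀ u, ((γ (tg u) + qt u + X : ℕ) : ℝ) ≤ Mf u * J) →
      (∀ u, Mf u * J ≤ (γ (tg u) + qt u + X : ℕ) + d) →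
      -- the own velocities of the targets are small
      (∀ u, vt u * J + W ≤ (γ (tg u) + qt u : ℕ)) →
      (∀ ω, 0 < p ω → ∀ u,
        |(2 : ℝ) ^ (vt u * J) * ojet F (c (tg u)) 1 (H (slam F w ω) (tg u)) ω| < 1) →
      -- the codes of the orders `≥ 2` of the moved places
      (∀ l, CH p (Pool.AVG71.cod F W 2 K (2 ^ (γ (mv l) + q + (X + mm))) (c (mv l))
        (fun s => upw w W s) (fun s => H s (mv l))) F.W ≤ e₁) →
      (∀ l, ((γ (mv l) + q + (X + mm) : ℕ) : ℝ) ≤ Nf l 0 * J) →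
      (∀ l, ((γ (mv l) + q + (X + mm) : ℕ) : ℝ) ≤ Nf l 1 * J + W) →
      (∀ l, ((γ (mv l) + q : ℕ) : ℝ) ≤ Nv l 0 * J) →
      (∀ l, ((γ (mv l) + q + (X + mm) : ℕ) : ℝ) ≤ Nv l 1 * J + W) →
      (∀ l, Nv l 1 = Nn l 1) → 0 ≤ d → (∀ l, (Nv l 0 - Nn l 0) * J ≤ d) →
      -- `dj`, `jt` for both targets
      (∀ u, CH p (Pool.AVG57.cod F w (fun s => H s (tg u)) (c (tg u)) (γ (tg u) + qt u + X) 1 K)
        (fun ω => (jetm F c mv w H Nf ω, (zw ω, F.W ω))) ≤ e₁) →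
      (∀ u, CH p (Pool.AVG57.cod F w (fun s => H s (tg u)) (c (tg u)) (γ (tg u) + qt u) 0 K)
        (fun ω => (jetm F c mv w H Nu ω, (Rx ω, F.W ω))) ≤ e₁) →
      -- near digits of the moved places
      CH p (jp F c 0 mv w H nb) (fun ω => (R' ω, F.W ω)) ≤ κ' →
      k * (X * Real.log 2) - κ' ≤ CH p (jp F c 0 mv w H nb)
        (fun ω => (jp F c 0 mv w H (fun l => Nn l 0) ω, (Rx ω, F.W ω))) →
      (∀ l, ((γ (mv l) + q + X : ℕ) : ℝ) ≤ nb l * J) →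
      (∀ l, nb l * J ≤ (γ (mv l) + q + (X + mm) : ℕ)) →
      -- the cells: samples of one point
      (∀ ω ν, 0 < p ω → 0 < p ν → ptr F J ω = ptr F J ν →
        (∀ j, |hgt F c G₀ ω (mv j) - hgt F c G₀ ν (mv j)| ≤
          1 / 2 ^ (γ (mv j) + q + (X + mm))) ∧
        ∀ u, |hgt F c G₀ ω (tg u) - hgt F c G₀ ν (tg u)| ≤ 1 / 2 ^ (γ (tg u) + qt u + X)) →
      -- the rows of the pair, blocks `(q, q + Y]`
      (∀ Y : ℕ, h / 4 * X ≤ Y → Y ≤ X → ∀ E : Set F.Ω, π₀ ≤ Pr p E →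
        CH (rs p E) (Mm F c tg w H (fun u => γ (tg u) + qt u + Y))
          (fun ω => (Mm F c tg w H (fun u => γ (tg u) + qt u) ω,
            (jp F c 0 mv w H nb ω, (F.W ω, zw ω)))) ≤ (2 - h) * Y * Real.log 2 + τ * X) →
      -- fullness of the images of the pair under closed slopes, blocks `(q, q + Y]`
      (∀ Y : ℕ, h / 4 * X ≤ Y → 2 * Y ≤ X → ∀ (V : Type) (z : PtT F → V) (z' : LnT F → V)
        (ka : V → ℝ) (E : F.Ω → Prop), (∀ v, |ka v| ≤ (2 : ℝ) ^ (h ^ 2 / 16 * X)) →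
        (∀ ω, 0 < p ω → E ω → z (ptr F J ω) = z' (slam F W ω)) → π₀ ≤ Pe p E →
        Y * Real.log 2 - τ * X ≤ CH (Pool.Agent.H49.Ent.cond p E True)
          (fun ω => ⌊((Mm F c tg w H (fun u => γ (tg u) + qt u + X) ω 1 : ℝ) -
            ka (z' (slam F W ω)) * Mm F c tg w H (fun u => γ (tg u) + qt u + X) ω 0) /
              2 ^ (X - Y)⌋)
          (fun ω => (z' (slam F W ω), (Mm F c tg w H (fun u => γ (tg u) + qt u) ω,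
            (jp F c 0 mv w H nb ω, (F.W ω, zw ω)))))) →
      TimW F p W j₀ ε₀ ψ → X₀ ≤ X →
      κ' + d + e₁ + Ca + ψ * J ≤ τ * X → (mm : ℝ) ≤ τ * X →
      ∃ mu : LnT F → Fin k → Polynomial ℝ, (∀ s i, (mu s i).natDegree ≤ K) ∧
        Pb p (fun ω => ∃ j, (2 : ℝ) ^ (-(κ₂ * X)) <
          |gg ω 0 j - (mu (slam F W ω) j).eval (rt F W ω)|) ≤ ε

end Pool.V0P
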